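import Mathlib
import Pool.Agent.Helper540.Lip
import Pool.Agent.Helper540.Pt
import Pool.Agent.Helper540.Circ

set_option autoImplicit false

namespace Pool.Agent.H840R2.LJ

open Metric Set Filter Topology Pool.Agent.Helper540

/-- The space `ℂ²` with its Euclidean norm. -/
abbrev E2 := EuclideanSpace ℂ (Fin 2)

/-- Coefficients of a function with nonnegative real part on the unit circle. -/
theorem norm_tc_le_of_re_nonneg {T : ℂ → ℂ} {R : ℝ} (hR : 1 < R)
    (hT : DifferentiableOn ℂ T (ball 0 R)) (hpos : ∀ l : ℂ, ‖l‖ = 1 → 0 ≤ (T l).re) {n : ℕ}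
    (hn : n ≠ 0) : ‖tc n T‖ ≤ 2 * (T 0).re := by
  have hcl : DiffContOnCl ℂ T (ball 0 1) :=
    DifferentiableOn.diffContOnCl_ball hT (closedBall_subset_ball hR)
  have hcs : ContinuousOn T (sphere 0 1) := hT.continuousOn.mono (fun z hz => by
    rw [mem_sphere_zero_iff_norm] at hz
    rw [mem_ball_zero_iff, hz]; exact hR)
  have hz0 : ∀ z ∈ sphere (0 : ℂ) 1, z ≠ 0 := fun z hz => ne_zero_of_sphere one_pos hz
  have hcinv : ContinuousOn (fun z : ℂ => (z ^ n)⁻¹) (sphere 0 1) := by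
    apply ContinuousOn.inv₀ (by fun_prop)
    intro z hz
    exact pow_ne_zero _ (hz0 z hz)
  have h1 : Real.circleAverage (fun z => (z ^ n)⁻¹ * T z) 0 1 = tc n T := by
    have := tc_circleAverage one_pos n hcl
    simpa [smul_eq_mul] using this
  have h2 := avg_conj one_pos hcl n
  rw [if_neg hn] at h2
  have hcc : ContinuousOn (fun z => (starRingEnd ℂ) (T z)) (sphere 0 1) :=
    Complex.continuous_conj.comp_continuousOn hcs
  have h3 : Real.circleAverage (fun z => (z ^ n)⁻¹ * T z + (z ^ n)⁻¹ * (starRingEnd ℂ) (T z)) 0 1 =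
      tc n T := by
    have i1 : CircleIntegrable (fun z => (z ^ n)⁻¹ * T z) 0 1 :=
      circInt zero_le_one (hcinv.mul hcs)
    have i2 : CircleIntegrable (fun z => (z ^ n)⁻¹ * (starRingEnd ℂ) (T z)) 0 1 :=
      circInt zero_le_one (hcinv.mul hcc)
    rw [Real.circleAverage_fun_add i1 i2, h1, h2, add_zero]
  rw [← h3]
  have hcre : ContinuousOn (fun z => (T z).re) (sphere 0 1) :=
    Complex.continuous_re.comp_continuousOn hcs
  have h4 : Real.circleAverage (fun z => 2 * (T z).re) 0 1 = 2 * (T 0).re := by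
    have e1 : Real.circleAverage (fun z => (T z).re) 0 1 = (T 0).re := by
      rw [re_circleAverage (circInt zero_le_one hcs)]
      have := avg_pow_mul one_pos hcl 0
      simp only [pow_zero, one_mul, if_true] at this
      rw [this]
    have e2 := Real.circleAverage_fun_smul (𝕜 := ℝ) (a := (2 : ℝ)) (f := fun z => (T z).re)
      (c := (0 : ℂ)) (R := 1)
    simp only [smul_eq_mul] at e2
    rw [e2, e1]
  rw [← h4]
  apply norm_circleAverage_le (circInt_re zero_le_one (continuousOn_const.mul hcre)) zero_le_one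
  intro z hz
  have hzn : ‖z‖ = 1 := by simpa using hz
  have e : (z ^ n)⁻¹ * T z + (z ^ n)⁻¹ * (starRingEnd ℂ) (T z) =
      (z ^ n)⁻¹ * ((2 * (T z).re : ℝ) : ℂ) := by
    rw [← mul_add, Complex.add_conj]
  rw [e, norm_mul, norm_inv, norm_pow, hzn, one_pow, inv_one, one_mul, Complex.norm_real,
    Real.norm_of_nonneg (by have := hpos z hzn; linarith)]
  exact le_rfl

/-- Division by the variable. -/
theorem exists_div {H : ℂ → ℂ} {R : ℝ} (hR : 0 < R) (hH : DifferentiableOn ℂ H (ball 0 R))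
    (h0 : H 0 = 0) : ∃ K : ℂ → ℂ, DifferentiableOn ℂ K (ball 0 R) ∧ (∀ z, H z = z * K z) ∧
      ∀ n, tc (n + 1) H = tc n K := by
  have hb : ball (0 : ℂ) R ∈ 𝓝 (0 : ℂ) := ball_mem_nhds _ hR
  have hd : DifferentiableOn ℂ (dslope H 0) (ball 0 R) := (Complex.differentiableOn_dslope hb).2 hH
  have he : ∀ z, H z = z * dslope H 0 z := by
    intro z
    have := sub_smul_dslope H 0 z
    rw [h0, sub_zero, sub_zero, smul_eq_mul] at this
    exact this.symm
  refine ⟨dslope H 0, hd, he, fun n => ?_⟩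
  rw [← tc_succ hR hd n]
  congr 1
  ext z
  exact he z

/-- The main inequality for a weighted circle action. -/
theorem weighted_ineq {H1 H2 : ℂ → ℂ} {R : ℝ} (hR : 1 < R) (d1 : DifferentiableOn ℂ H1 (ball 0 R))
    (d2 : DifferentiableOn ℂ H2 (ball 0 R)) (h10 : tc 0 H1 = 0) (h11 : tc 1 H1 = 0)
    (h20 : tc 0 H2 = 0) (a b : ℂ)
    (hpos : ∀ l : ℂ, ‖l‖ = 1 → 0 ≤ ((starRingEnd ℂ) (l ^ 2 * a) * H1 l +
      (starRingEnd ℂ) (l * b) * H2 l).re) {n : ℕ} (hn : n ≠ 0) :
    ‖(starRingEnd ℂ) a * tc (n + 2) H1 + (starRingEnd ℂ) b * tc (n + 1) H2‖ ≤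
      2 * ((starRingEnd ℂ) a * tc 2 H1 + (starRingEnd ℂ) b * tc 1 H2).re := by
  have hR0 : 0 < R := by linarith
  rw [tc_zero_eq] at h10 h20
  obtain ⟨K0, dK0, eK0, tK0⟩ := exists_div hR0 d1 h10
  have hK00 : K0 0 = 0 := by rw [← tc_zero_eq (f := K0), ← tK0 0]; exact h11
  obtain ⟨K1, dK1, eK1, tK1⟩ := exists_div hR0 dK0 hK00
  obtain ⟨K2, dK2, eK2, tK2⟩ := exists_div hR0 d2 h20
  set T : ℂ → ℂ := fun l => (starRingEnd ℂ) a * K1 l + (starRingEnd ℂ) b * K2 l with hT
  have dT : DifferentiableOn ℂ T (ball 0 R) := (dK1.const_mul _).add (dK2.const_mul _)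
  have htc : ∀ n, tc n T = (starRingEnd ℂ) a * tc n K1 + (starRingEnd ℂ) b * tc n K2 := by
    intro n
    have c1 := contDiffAt_of_ball hR0 dK1 n
    have c2 := contDiffAt_of_ball hR0 dK2 n
    have e := tc_add n (f := fun l => (starRingEnd ℂ) a * K1 l)
      (g := fun l => (starRingEnd ℂ) b * K2 l) (contDiffAt_const.mul c1) (contDiffAt_const.mul c2)
    have f1 := tc_clm ((starRingEnd ℂ) a • ContinuousLinearMap.id ℂ ℂ) n c1
    have f2 := tc_clm ((starRingEnd ℂ) b • ContinuousLinearMap.id ℂ ℂ) n c2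
    simp only [smul_apply, ContinuousLinearMap.id_apply, smul_eq_mul] at f1 f2
    rw [hT, e, f1, f2]
  have hTpos : ∀ l : ℂ, ‖l‖ = 1 → 0 ≤ (T l).re := by
    intro l hl
    have h1 := hpos l hl
    have hll : (starRingEnd ℂ) l * l = 1 := by
      rw [mul_comm, Complex.mul_conj, Complex.normSq_eq_norm_sq, hl]; simp
    have e : (starRingEnd ℂ) (l ^ 2 * a) * H1 l + (starRingEnd ℂ) (l * b) * H2 l = T l := by
      rw [eK0 l, eK1 l, eK2 l, hT]
      simp only [map_mul, map_pow]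
      linear_combination ((starRingEnd ℂ) a * K1 l * ((starRingEnd ℂ) l * l + 1) +
        (starRingEnd ℂ) b * K2 l) * hll
    rwa [e] at h1
  have key := norm_tc_le_of_re_nonneg hR dT hTpos hn
  rw [htc n] at key
  have e0 : T 0 = (starRingEnd ℂ) a * tc 2 H1 + (starRingEnd ℂ) b * tc 1 H2 := by
    rw [← tc_zero_eq (f := T), htc 0, tK0 1, tK1 0, tK2 0]
  rw [← e0, tK0 (n + 1), tK1 n, tK2 n]
  exact key

end Pool.Agent.H840R2.LJ
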