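import Mathlib
import Pool.Agent.H840R2.LJB
import Pool.Agent.Helper540.Rigid

set_option autoImplicit false

namespace Pool.Agent.H840R2.LJ

open Metric Set Filter Topology Pool.Agent.Helper540

/-- The coordinate functions of a map. -/
def cmp (h : E2 → E2) (i : Fin 2) : E2 → ℂ := fun z => h z i

theorem cmp_diff {h : E2 → E2} (hh : DifferentiableOn ℂ h (ball 0 1)) (i : Fin 2) :
    DifferentiableOn ℂ (cmp h i) (ball 0 1) :=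
  (co i).differentiable.comp_differentiableOn hh

theorem fderiv_cmp {h : E2 → E2} (hh : DifferentiableOn ℂ h (ball 0 1)) (i : Fin 2) {z : E2}
    (hz : z ∈ ball (0 : E2) 1) (v : E2) : fderiv ℂ (cmp h i) z v = (fderiv ℂ h z v) i := by
  have h1 : HasFDerivAt h (fderiv ℂ h z) z :=
    (hh.differentiableAt (isOpen_ball.mem_nhds hz)).hasFDerivAt
  have h2 := ((co i).hasFDerivAt (x := h z)).comp z h1
  have h3 : HasFDerivAt (cmp h i) ((co i).comp (fderiv ℂ h z)) z := h2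
  rw [h3.fderiv]
  rfl

theorem aco_zero (f : E2 → ℂ) : aco f 0 = f 0 := by
  rw [aco, tc_zero_eq, pt_zero_zero]

theorem bco_zero (f : E2 → ℂ) : bco f 0 = fderiv ℂ f 0 (pt 1 0) := by
  rw [bco, tc_zero_eq, pt_zero_zero]

theorem aco_one {f : E2 → ℂ} (hf : DifferentiableOn ℂ f (ball 0 1)) :
    aco f 1 = fderiv ℂ f 0 (pt 0 1) := by
  rw [aco]
  apply tc_one
  have h1 : HasFDerivAt f (fderiv ℂ f 0) (pt 0 0) := by
    rw [pt_zero_zero]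
    exact (hf.differentiableAt (ball_mem_nhds _ one_pos)).hasFDerivAt
  have h2 : HasDerivAt (fun ζ : ℂ => pt 0 ζ) (pt 0 1) 0 :=
    hasDerivAt_pt (hasDerivAt_const 0 0) (hasDerivAt_id 0)
  exact h1.comp_hasDerivAt 0 h2

/-- Data of the low order coefficients of `h`. -/
theorem Cara_low {h : E2 → E2} (hh : Cara h) :
    aco (cmp h 0) 0 = 0 ∧ aco (cmp h 1) 0 = 0 ∧ aco (cmp h 0) 1 = 0 ∧ aco (cmp h 1) 1 = 1 ∧
      bco (cmp h 0) 0 = 1 ∧ bco (cmp h 1) 0 = 0 := by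
  have hd := hh.diff
  have hz : (0 : E2) ∈ ball (0 : E2) 1 := mem_ball_self one_pos
  refine ⟨?_, ?_, ?_, ?_, ?_, ?_⟩
  · rw [aco_zero, cmp, hh.zero]; rfl
  · rw [aco_zero, cmp, hh.zero]; rfl
  · rw [aco_one (cmp_diff hd 0), fderiv_cmp hd 0 hz, hh.fder]; rfl
  · rw [aco_one (cmp_diff hd 1), fderiv_cmp hd 1 hz, hh.fder]; rfl
  · rw [bco_zero, fderiv_cmp hd 0 hz, hh.fder]; rfl
  · rw [bco_zero, fderiv_cmp hd 1 hz, hh.fder]; rfl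

/-- The weighted slices of the coordinate functions. -/
theorem tc_low {f : E2 → ℂ} (hf : DifferentiableOn ℂ f (ball 0 1)) : ∃ s : ℂ,
    ∀ z1 z2 : ℂ, ‖z1‖ ≤ 1 → ‖z2‖ ≤ 1 →
    tc 0 (fun l : ℂ => f (pt (l ^ 2 * z1) (l * z2))) = aco f 0 ∧
    tc 1 (fun l : ℂ => f (pt (l ^ 2 * z1) (l * z2))) = z2 * aco f 1 ∧
    tc 2 (fun l : ℂ => f (pt (l ^ 2 * z1) (l * z2))) = z2 ^ 2 * aco f 2 + z1 * bco f 0 ∧
    tc 3 (fun l : ℂ => f (pt (l ^ 2 * z1) (l * z2))) = z2 ^ 3 * aco f 3 + z1 * z2 * bco f 1 ∧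
    tc 4 (fun l : ℂ => f (pt (l ^ 2 * z1) (l * z2))) =
      z2 ^ 4 * aco f 4 + z1 * z2 ^ 2 * bco f 2 + z1 ^ 2 * s := by
  obtain ⟨s, hs⟩ := tc_weighted hf
  refine ⟨s, fun z1 z2 h1 h2 => ⟨?_, ?_, ?_, ?_, ?_⟩⟩
  · rw [hs z1 z2 h1 h2 0 (by norm_num), tc_mid_zero hf z1 z2 h2 (by norm_num)]
    simp
  · rw [hs z1 z2 h1 h2 1 (by norm_num), tc_mid_zero hf z1 z2 h2 (by norm_num)]
    simp
  · rw [hs z1 z2 h1 h2 2 (by norm_num), tc_mid hf z1 z2 h2 0]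
    simp
  · rw [hs z1 z2 h1 h2 3 (by norm_num), tc_mid hf z1 z2 h2 1]
    simp
  · rw [hs z1 z2 h1 h2 4 (by norm_num), tc_mid hf z1 z2 h2 2]
    simp

/-- The two basic inequalities. -/
theorem Cara_ineq {h : E2 → E2} (hh : Cara h) : ∃ X : ℂ, ∀ z1 z2 : ℂ,
    ‖z1‖ ^ 2 + ‖z2‖ ^ 2 < 1 →
    ‖(starRingEnd ℂ) z1 * (z2 ^ 3 * aco (cmp h 0) 3 + z1 * z2 * bco (cmp h 0) 1) +
      (starRingEnd ℂ) z2 * (z2 ^ 2 * aco (cmp h 1) 2)‖ ≤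
      2 * ((starRingEnd ℂ) z1 * (z2 ^ 2 * aco (cmp h 0) 2 + z1) + (starRingEnd ℂ) z2 * z2).re ∧
    ‖(starRingEnd ℂ) z1 * (z2 ^ 4 * aco (cmp h 0) 4 + z1 * z2 ^ 2 * bco (cmp h 0) 2 + z1 ^ 2 * X) +
      (starRingEnd ℂ) z2 * (z2 ^ 3 * aco (cmp h 1) 3 + z1 * z2 * bco (cmp h 1) 1)‖ ≤
      2 * ((starRingEnd ℂ) z1 * (z2 ^ 2 * aco (cmp h 0) 2 + z1) + (starRingEnd ℂ) z2 * z2).re := by
  obtain ⟨a00, a10, a01, a11, b00, b10⟩ := Cara_low hh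
  have dh0 := cmp_diff hh.diff 0
  have dh1 := cmp_diff hh.diff 1
  obtain ⟨X, hX⟩ := tc_low dh0
  obtain ⟨X', hX'⟩ := tc_low dh1
  refine ⟨X, fun z1 z2 hz => ?_⟩
  have n1 : ‖z1‖ ≤ 1 := by nlinarith [norm_nonneg z1, norm_nonneg z2]
  have n2 : ‖z2‖ ≤ 1 := by nlinarith [norm_nonneg z1, norm_nonneg z2]
  obtain ⟨p0, p1, p2, p3, p4⟩ := hX z1 z2 n1 n2
  obtain ⟨r0, r1, r2, r3, r4⟩ := hX' z1 z2 n1 n2
  rw [a00] at p0
  rw [a01, mul_zero] at p1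
  rw [b00, mul_one] at p2
  rw [a10] at r0
  rw [a11, mul_one] at r1
  rw [b10, mul_zero, add_zero] at r2
  -- a radius greater than one
  obtain ⟨R, hR1, hR⟩ : ∃ R : ℝ, 1 < R ∧ R ^ 4 * (‖z1‖ ^ 2 + ‖z2‖ ^ 2) < 1 := by
    have hc : Tendsto (fun R : ℝ => R ^ 4 * (‖z1‖ ^ 2 + ‖z2‖ ^ 2)) (𝓝[>] 1)
        (𝓝 ((1 : ℝ) ^ 4 * (‖z1‖ ^ 2 + ‖z2‖ ^ 2))) :=
      (Continuous.tendsto (by fun_prop) _).mono_left nhdsWithin_le_nhds
    rw [one_pow, one_mul] at hc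
    have h1 := hc.eventually (gt_mem_nhds hz)
    obtain ⟨R, hR⟩ := (h1.and self_mem_nhdsWithin).exists
    exact ⟨R, hR.2, hR.1⟩
  have hR0 : 0 < R := by linarith
  have hmem : ∀ l ∈ ball (0 : ℂ) R, pt (l ^ 2 * z1) (l * z2) ∈ ball (0 : E2) 1 := by
    intro l hl
    rw [mem_ball_zero_iff] at hl
    apply pt_mem_ball
    rw [norm_mul, norm_mul, norm_pow]
    have h0 := norm_nonneg l
    have e1 : ‖l‖ ^ 4 ≤ R ^ 4 := by gcongr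
    have e2 : ‖l‖ ^ 2 ≤ R ^ 4 := by
      calc ‖l‖ ^ 2 ≤ R ^ 2 := by gcongr
        _ ≤ R ^ 4 := pow_le_pow_right₀ hR1.le (by norm_num)
    calc (‖l‖ ^ 2 * ‖z1‖) ^ 2 + (‖l‖ * ‖z2‖) ^ 2 = ‖l‖ ^ 4 * ‖z1‖ ^ 2 + ‖l‖ ^ 2 * ‖z2‖ ^ 2 := by ring
      _ ≤ R ^ 4 * ‖z1‖ ^ 2 + R ^ 4 * ‖z2‖ ^ 2 := by gcongr
      _ < 1 := by linarith
  have dpt : DifferentiableOn ℂ (fun l : ℂ => pt (l ^ 2 * z1) (l * z2)) (ball 0 R) := fun l _ =>
    (differentiableAt_pt (by fun_prop) (by fun_prop)).differentiableWithinAt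
  have d1 : DifferentiableOn ℂ (fun l : ℂ => cmp h 0 (pt (l ^ 2 * z1) (l * z2))) (ball 0 R) :=
    dh0.comp dpt hmem
  have d2 : DifferentiableOn ℂ (fun l : ℂ => cmp h 1 (pt (l ^ 2 * z1) (l * z2))) (ball 0 R) :=
    dh1.comp dpt hmem
  have hpos : ∀ l : ℂ, ‖l‖ = 1 → 0 ≤ ((starRingEnd ℂ) (l ^ 2 * z1) *
      cmp h 0 (pt (l ^ 2 * z1) (l * z2)) +
      (starRingEnd ℂ) (l * z2) * cmp h 1 (pt (l ^ 2 * z1) (l * z2))).re := by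
    intro l hl
    have hm := hmem l (by rw [mem_ball_zero_iff, hl]; exact hR1)
    have := hh.re_inner_nonneg (mem_ball_zero_iff.1 hm)
    rw [inner_pt] at this
    exact this
  have k1 := weighted_ineq hR1 d1 d2 p0 p1 r0 z1 z2 hpos (n := 1) one_ne_zero
  have k2 := weighted_ineq hR1 d1 d2 p0 p1 r0 z1 z2 hpos (n := 2) two_ne_zero
  rw [p2, r1] at k1 k2
  have e3 : (1 + 2 : ℕ) = 3 := rfl
  have e4 : (2 + 2 : ℕ) = 4 := rfl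
  have e5 : (1 + 1 : ℕ) = 2 := rfl
  have e6 : (2 + 1 : ℕ) = 3 := rfl
  rw [e3, e5, p3, r2] at k1
  rw [e4, e6, p4, r3] at k2
  exact ⟨k1, k2⟩

/-- The same on the closed ball. -/
theorem Cara_ineq_closed {h : E2 → E2} (hh : Cara h) : ∃ X : ℂ, ∀ z1 z2 : ℂ,
    ‖z1‖ ^ 2 + ‖z2‖ ^ 2 ≤ 1 →
    ‖(starRingEnd ℂ) z1 * (z2 ^ 3 * aco (cmp h 0) 3 + z1 * z2 * bco (cmp h 0) 1) +
      (starRingEnd ℂ) z2 * (z2 ^ 2 * aco (cmp h 1) 2)‖ ≤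
      2 * ((starRingEnd ℂ) z1 * (z2 ^ 2 * aco (cmp h 0) 2 + z1) + (starRingEnd ℂ) z2 * z2).re ∧
    ‖(starRingEnd ℂ) z1 * (z2 ^ 4 * aco (cmp h 0) 4 + z1 * z2 ^ 2 * bco (cmp h 0) 2 + z1 ^ 2 * X) +
      (starRingEnd ℂ) z2 * (z2 ^ 3 * aco (cmp h 1) 3 + z1 * z2 * bco (cmp h 1) 1)‖ ≤
      2 * ((starRingEnd ℂ) z1 * (z2 ^ 2 * aco (cmp h 0) 2 + z1) + (starRingEnd ℂ) z2 * z2).re := by
  obtain ⟨X, hX⟩ := Cara_ineq hh
  refine ⟨X, fun z1 z2 hz => ?_⟩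
  have hev : ∀ᶠ r : ℝ in 𝓝[<] 1, ‖(r : ℂ) * z1‖ ^ 2 + ‖(r : ℂ) * z2‖ ^ 2 < 1 := by
    have h1 : ∀ᶠ r : ℝ in 𝓝[<] 1, r ∈ Ioo (0 : ℝ) 1 := Ioo_mem_nhdsLT one_pos
    filter_upwards [h1] with r hr
    rw [norm_mul, norm_mul, Complex.norm_real, Real.norm_of_nonneg hr.1.le]
    have h2 : r ^ 2 < 1 := by nlinarith [hr.1, hr.2]
    have h3 := sq_nonneg ‖z1‖
    have h4 := sq_nonneg ‖z2‖
    nlinarith
  have hlim : Tendsto (fun r : ℝ => (r : ℂ)) (𝓝[<] 1) (𝓝 1) := by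
    have : Tendsto (fun r : ℝ => (r : ℂ)) (𝓝 1) (𝓝 ((1 : ℝ) : ℂ)) :=
      Complex.continuous_ofReal.tendsto 1
    rw [Complex.ofReal_one] at this
    exact this.mono_left nhdsWithin_le_nhds
  have hc : ∀ g : ℂ → ℂ → ℝ, Continuous (Function.uncurry g) →
      Tendsto (fun r : ℝ => g ((r : ℂ) * z1) ((r : ℂ) * z2)) (𝓝[<] 1) (𝓝 (g z1 z2)) := by
    intro g hg
    have h1 : Tendsto (fun r : ℝ => ((r : ℂ) * z1, (r : ℂ) * z2)) (𝓝[<] 1)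
        (𝓝 (1 * z1, 1 * z2)) := (hlim.mul_const z1).prodMk_nhds (hlim.mul_const z2)
    rw [one_mul, one_mul] at h1
    exact (hg.tendsto (z1, z2)).comp h1
  constructor
  · refine le_of_tendsto_of_tendsto
      (hc (fun a b => ‖(starRingEnd ℂ) a * (b ^ 3 * aco (cmp h 0) 3 + a * b * bco (cmp h 0) 1) +
        (starRingEnd ℂ) b * (b ^ 2 * aco (cmp h 1) 2)‖) ?_)
      (hc (fun a b => 2 * ((starRingEnd ℂ) a * (b ^ 2 * aco (cmp h 0) 2 + a) +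
        (starRingEnd ℂ) b * b).re) ?_) ?_
    · simp only [Function.uncurry_def]
      have := Complex.continuous_conj
      fun_prop
    · simp only [Function.uncurry_def]
      have := Complex.continuous_conj
      fun_prop
    · filter_upwards [hev] with r hr using (hX _ _ hr).1
  · refine le_of_tendsto_of_tendsto
      (hc (fun a b => ‖(starRingEnd ℂ) a * (b ^ 4 * aco (cmp h 0) 4 +
        a * b ^ 2 * bco (cmp h 0) 2 + a ^ 2 * X) +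
        (starRingEnd ℂ) b * (b ^ 3 * aco (cmp h 1) 3 + a * b * bco (cmp h 1) 1)‖) ?_)
      (hc (fun a b => 2 * ((starRingEnd ℂ) a * (b ^ 2 * aco (cmp h 0) 2 + a) +
        (starRingEnd ℂ) b * b).re) ?_) ?_
    · simp only [Function.uncurry_def]
      have := Complex.continuous_conj
      fun_prop
    · simp only [Function.uncurry_def]
      have := Complex.continuous_conj
      fun_prop
    · filter_upwards [hev] with r hr using (hX _ _ hr).2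

end Pool.Agent.H840R2.LJ
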