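import Mathlib
import Pool.Agent.H840R2.LJC

set_option autoImplicit false

namespace Pool.Agent.H840R2.LJ

open Metric Set Filter Topology Pool.Agent.Helper540

theorem deriv_zero_of_quad {f : ℝ → ℂ} {f' : ℂ} {C : ℝ} (hf : HasDerivAt f f' 0)
    (h : ∀ᶠ t in 𝓝 (0 : ℝ), ‖f t‖ ≤ C * t ^ 2) : f 0 = 0 ∧ f' = 0 := by
  have h0 : f 0 = 0 := by
    have := h.self_of_nhds
    simpa using this
  refine ⟨h0, ?_⟩
  have h1 : HasDerivAt f 0 0 := by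
    rw [hasDerivAt_iff_isLittleO]
    have hO : f =O[𝓝 0] fun t : ℝ => t ^ 2 := by
      apply Asymptotics.IsBigO.of_bound C
      filter_upwards [h] with t ht
      rw [Real.norm_of_nonneg (sq_nonneg t)]
      exact ht
    have ho : (fun t : ℝ => t ^ 2) =o[𝓝 0] fun t : ℝ => t := by
      have := Asymptotics.isLittleO_pow_id (𝕜 := ℝ) one_lt_two
      exact this
    have := hO.trans_isLittleO ho
    simpa [h0] using this
  exact hf.unique h1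

/-- Bound of the coefficient `q`. -/
theorem q_bound {h : E2 → E2} (hh : Cara h) :
    ‖aco (cmp h 0) 2‖ ≤ 3 * Real.sqrt 3 / 2 := by
  obtain ⟨X, hX⟩ := Cara_ineq_closed hh
  set q := aco (cmp h 0) 2 with hq
  obtain ⟨e, he, heq⟩ := exists_phase q
  set r := Real.sqrt 3 with hr
  have hr2 : r ^ 2 = 3 := Real.sq_sqrt (by norm_num)
  have hr0 : 0 < r := Real.sqrt_pos.2 (by norm_num)
  set b := Real.sqrt (2 / 3) with hb
  have hb2 : b ^ 2 = 2 / 3 := Real.sq_sqrt (by norm_num)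
  have hbC : ((b : ℂ)) ^ 2 = 2 / 3 := by
    rw [← Complex.ofReal_pow, hb2]; push_cast; ring
  have hb0 : 0 ≤ b := Real.sqrt_nonneg _
  have hee : (starRingEnd ℂ) e * e = 1 := by
    rw [mul_comm, Complex.mul_conj, Complex.normSq_eq_norm_sq, he]; simp
  have key := (hX (((r / 3 : ℝ) : ℂ) * (starRingEnd ℂ) e) (b : ℂ) (by
    rw [norm_mul, Complex.norm_real, Complex.norm_real, RCLike.norm_conj, he,
      Real.norm_of_nonneg (by positivity), Real.norm_of_nonneg hb0]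
    nlinarith)).1
  have h0 := (norm_nonneg _).trans key
  have e1 : (starRingEnd ℂ) (((r / 3 : ℝ) : ℂ) * (starRingEnd ℂ) e) * ((b : ℂ) ^ 2 * q +
      ((r / 3 : ℝ) : ℂ) * (starRingEnd ℂ) e) + (starRingEnd ℂ) (b : ℂ) * (b : ℂ) =
      ((r / 3 * (2 / 3) : ℝ) : ℂ) * (e * q) + ((r ^ 2 / 9 + 2 / 3 : ℝ) : ℂ) := by
    rw [map_mul, Complex.conj_ofReal, Complex.conj_ofReal, Complex.conj_conj]
    push_cast
    linear_combination ((r : ℂ) / 3 * e * q + 1) * hbC + (r : ℂ) ^ 2 / 9 * hee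
  rw [e1, Complex.add_re, Complex.re_ofReal_mul, heq, Complex.ofReal_re] at h0
  have h1 : ‖q‖ * r ≤ 9 / 2 := by nlinarith
  have h2 : ‖q‖ * r * r ≤ 9 / 2 * r := mul_le_mul_of_nonneg_right h1 hr0.le
  nlinarith

/-- Evaluation of the inequalities on the distinguished torus. -/
theorem face_eval {h : E2 → E2} (hh : Cara h)
    (hq : aco (cmp h 0) 2 = ((-(3 * Real.sqrt 3 / 2) : ℝ) : ℂ)) : ∃ X : ℂ, ∀ (a b : ℝ) (w : ℂ),
    ‖w‖ = 1 → a ^ 2 + b ^ 2 = 1 →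
    ‖(b : ℂ) * ((a : ℂ) * (b : ℂ) ^ 2 * aco (cmp h 0) 3 * (starRingEnd ℂ) w +
      (a : ℂ) ^ 2 * bco (cmp h 0) 1 + (b : ℂ) ^ 2 * aco (cmp h 1) 2)‖ ≤
      2 * (1 - 3 * Real.sqrt 3 / 2 * (a * b ^ 2) * w.re) ∧
    ‖(a : ℂ) * (b : ℂ) ^ 4 * aco (cmp h 0) 4 * (starRingEnd ℂ) w +
      ((a : ℂ) ^ 2 * (b : ℂ) ^ 2 * bco (cmp h 0) 2 + (b : ℂ) ^ 4 * aco (cmp h 1) 3) +
      ((a : ℂ) ^ 3 * X + (a : ℂ) * (b : ℂ) ^ 2 * bco (cmp h 1) 1) * w‖ ≤
      2 * (1 - 3 * Real.sqrt 3 / 2 * (a * b ^ 2) * w.re) := by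
  obtain ⟨X, hX⟩ := Cara_ineq_closed hh
  refine ⟨X, fun a b w hw hab => ?_⟩
  have hww : (starRingEnd ℂ) w * w = 1 := by
    rw [mul_comm, Complex.mul_conj, Complex.normSq_eq_norm_sq, hw]; simp
  have key := hX ((a : ℂ) * w) (b : ℂ) (by
    rw [norm_mul, Complex.norm_real, Complex.norm_real, hw, mul_one, Real.norm_eq_abs,
      Real.norm_eq_abs, sq_abs, sq_abs, hab])
  rw [hq] at key
  have e0 : ((starRingEnd ℂ) ((a : ℂ) * w) * ((b : ℂ) ^ 2 *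
      ((-(3 * Real.sqrt 3 / 2) : ℝ) : ℂ) + (a : ℂ) * w) + (starRingEnd ℂ) (b : ℂ) * (b : ℂ)).re =
      1 - 3 * Real.sqrt 3 / 2 * (a * b ^ 2) * w.re := by
    have e1 : (starRingEnd ℂ) ((a : ℂ) * w) * ((b : ℂ) ^ 2 *
      ((-(3 * Real.sqrt 3 / 2) : ℝ) : ℂ) + (a : ℂ) * w) + (starRingEnd ℂ) (b : ℂ) * (b : ℂ) =
      ((-(3 * Real.sqrt 3 / 2 * (a * b ^ 2)) : ℝ) : ℂ) * (starRingEnd ℂ) w +
        ((a ^ 2 + b ^ 2 : ℝ) : ℂ) := by
      rw [map_mul, Complex.conj_ofReal, Complex.conj_ofReal]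
      push_cast
      linear_combination (a : ℂ) ^ 2 * hww
    rw [e1, Complex.add_re, Complex.re_ofReal_mul, Complex.ofReal_re, hab, Complex.conj_re]
    ring
  rw [e0] at key
  refine ⟨?_, ?_⟩
  · have e2 : (b : ℂ) * ((a : ℂ) * (b : ℂ) ^ 2 * aco (cmp h 0) 3 * (starRingEnd ℂ) w +
      (a : ℂ) ^ 2 * bco (cmp h 0) 1 + (b : ℂ) ^ 2 * aco (cmp h 1) 2) =
      (starRingEnd ℂ) ((a : ℂ) * w) * ((b : ℂ) ^ 3 * aco (cmp h 0) 3 +
        (a : ℂ) * w * (b : ℂ) * bco (cmp h 0) 1) +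
      (starRingEnd ℂ) (b : ℂ) * ((b : ℂ) ^ 2 * aco (cmp h 1) 2) := by
      rw [map_mul, Complex.conj_ofReal, Complex.conj_ofReal]
      linear_combination (-(a : ℂ) ^ 2 * b * bco (cmp h 0) 1) * hww
    rw [e2]
    exact key.1
  · have e2 : (a : ℂ) * (b : ℂ) ^ 4 * aco (cmp h 0) 4 * (starRingEnd ℂ) w +
      ((a : ℂ) ^ 2 * (b : ℂ) ^ 2 * bco (cmp h 0) 2 + (b : ℂ) ^ 4 * aco (cmp h 1) 3) +
      ((a : ℂ) ^ 3 * X + (a : ℂ) * (b : ℂ) ^ 2 * bco (cmp h 1) 1) * w =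
      (starRingEnd ℂ) ((a : ℂ) * w) * ((b : ℂ) ^ 4 * aco (cmp h 0) 4 +
        (a : ℂ) * w * (b : ℂ) ^ 2 * bco (cmp h 0) 2 + ((a : ℂ) * w) ^ 2 * X) +
      (starRingEnd ℂ) (b : ℂ) * ((b : ℂ) ^ 3 * aco (cmp h 1) 3 +
        (a : ℂ) * w * (b : ℂ) * bco (cmp h 1) 1) := by
      rw [map_mul, Complex.conj_ofReal, Complex.conj_ofReal]
      linear_combination (-(a : ℂ) ^ 2 * (b : ℂ) ^ 2 * bco (cmp h 0) 2 -
        (a : ℂ) ^ 3 * w * X) * hww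
    rw [e2]
    exact key.2

theorem hasDerivAt_cexp_mul (c : ℂ) (t : ℝ) :
    HasDerivAt (fun t : ℝ => Complex.exp ((t : ℂ) * c)) (Complex.exp ((t : ℂ) * c) * c) t := by
  have h1 : HasDerivAt (fun t : ℝ => (t : ℂ) * c) (1 * c) t :=
    (Complex.ofRealCLM.hasDerivAt (x := t)).mul_const c
  have h2 := h1.cexp
  rw [one_mul] at h2
  exact h2

theorem face_one {h : E2 → E2} (hh : Cara h)
    (hq : aco (cmp h 0) 2 = ((-(3 * Real.sqrt 3 / 2) : ℝ) : ℂ)) : aco (cmp h 1) 2 = 0 := by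
  obtain ⟨X, hX⟩ := face_eval hh hq
  set r := Real.sqrt 3 with hr
  have hr2 : r ^ 2 = 3 := Real.sq_sqrt (by norm_num)
  have hr0 : 0 < r := Real.sqrt_pos.2 (by norm_num)
  have hrC : (r : ℂ) ^ 2 = 3 := by rw [← Complex.ofReal_pow, hr2]; norm_num
  have hrne : (r : ℂ) ≠ 0 := by exact_mod_cast hr0.ne'
  set c := aco (cmp h 0) 3 with hc
  set p1 := bco (cmp h 0) 1 with hp1
  set p := aco (cmp h 1) 2 with hp
  set b := Real.sqrt (2 / 3) with hb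
  have hb2 : b ^ 2 = 2 / 3 := Real.sq_sqrt (by norm_num)
  have hbC : ((b : ℂ)) ^ 2 = 2 / 3 := by
    rw [← Complex.ofReal_pow, hb2]; push_cast; ring
  have hb0 : 1 / 2 ≤ b := by
    apply Real.le_sqrt_of_sq_le; norm_num
  -- first path
  have h1 : ∀ t : ℝ, ‖(r : ℂ) / 3 * (2 / 3) * c * Complex.exp ((t : ℂ) * (-Complex.I)) +
      (1 / 3 * p1 + 2 / 3 * p)‖ ≤ 2 * t ^ 2 := by
    intro t
    have hw : ‖Complex.exp ((t : ℂ) * Complex.I)‖ = 1 := Complex.norm_exp_ofReal_mul_I t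
    have key := (hX (r / 3) b (Complex.exp ((t : ℂ) * Complex.I)) hw (by nlinarith)).1
    have hre : (Complex.exp ((t : ℂ) * Complex.I)).re = Real.cos t :=
      Complex.exp_ofReal_mul_I_re t
    have hconj : (starRingEnd ℂ) (Complex.exp ((t : ℂ) * Complex.I)) =
        Complex.exp ((t : ℂ) * (-Complex.I)) := by
      rw [← Complex.exp_conj, map_mul, Complex.conj_ofReal, Complex.conj_I]
    rw [hre, hconj, norm_mul, Complex.norm_real, Real.norm_of_nonneg (by linarith)] at key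
    have e1 : 3 * r / 2 * (r / 3 * b ^ 2) = 1 := by rw [hb2]; nlinarith
    rw [e1, one_mul] at key
    have e2 : ((r / 3 : ℝ) : ℂ) * (b : ℂ) ^ 2 * c * Complex.exp ((t : ℂ) * (-Complex.I)) +
        ((r / 3 : ℝ) : ℂ) ^ 2 * p1 + (b : ℂ) ^ 2 * p =
        (r : ℂ) / 3 * (2 / 3) * c * Complex.exp ((t : ℂ) * (-Complex.I)) +
      (1 / 3 * p1 + 2 / 3 * p) := by
      push_cast
      linear_combination ((r : ℂ) / 3 * c * Complex.exp ((t : ℂ) * (-Complex.I)) + p) * hbC +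
        p1 / 9 * hrC
    rw [e2] at key
    have hcos := Real.one_sub_sq_div_two_le_cos (x := t)
    have h3 : b * ‖(r : ℂ) / 3 * (2 / 3) * c * Complex.exp ((t : ℂ) * (-Complex.I)) +
      (1 / 3 * p1 + 2 / 3 * p)‖ ≤ t ^ 2 := by linarith
    have h4 := norm_nonneg ((r : ℂ) / 3 * (2 / 3) * c * Complex.exp ((t : ℂ) * (-Complex.I)) +
      (1 / 3 * p1 + 2 / 3 * p))
    nlinarith
  have hd1 : HasDerivAt (fun t : ℝ => (r : ℂ) / 3 * (2 / 3) * c *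
      Complex.exp ((t : ℂ) * (-Complex.I)) + (1 / 3 * p1 + 2 / 3 * p))
      ((r : ℂ) / 3 * (2 / 3) * c * (Complex.exp (((0 : ℝ) : ℂ) * (-Complex.I)) * (-Complex.I))) 0 :=
    ((hasDerivAt_cexp_mul (-Complex.I) 0).const_mul _).add_const _
  obtain ⟨z1, z2⟩ := deriv_zero_of_quad hd1 (Eventually.of_forall h1)
  simp only [Complex.ofReal_zero, zero_mul, Complex.exp_zero, mul_one, one_mul] at z1 z2
  have hc0 : c = 0 := by
    have h5 : (r : ℂ) / 3 * (2 / 3) * (-Complex.I) ≠ 0 := by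
      apply mul_ne_zero
      · apply mul_ne_zero
        · exact div_ne_zero hrne (by norm_num)
        · norm_num
      · exact neg_ne_zero.2 Complex.I_ne_zero
    have h6 : (r : ℂ) / 3 * (2 / 3) * (-Complex.I) * c = 0 := by
      rw [← z2]; ring
    exact (mul_eq_zero.1 h6).resolve_left h5
  have hp1 : p1 = -2 * p := by
    rw [hc0, mul_zero, zero_add] at z1
    linear_combination 3 * z1
  -- second path
  have h2 : ∀ᶠ t : ℝ in 𝓝 0, ‖p * (1 - 3 * ((r : ℂ) / 3 + (t : ℂ)) ^ 2)‖ ≤ 100 * t ^ 2 := by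
    have hev : ∀ᶠ t : ℝ in 𝓝 0, |t| < 1 / 100 := by
      have h0 : Tendsto (fun t : ℝ => |t|) (𝓝 0) (𝓝 0) := by
        have := (continuous_abs : Continuous (fun t : ℝ => |t|)).tendsto 0
        rwa [abs_zero] at this
      exact h0.eventually (gt_mem_nhds (by norm_num))
    filter_upwards [hev] with t ht
    obtain ⟨ht1, ht2⟩ := abs_lt.1 ht
    have hr17 : r < 1.8 := by nlinarith
    have hr16 : 1.7 < r := by nlinarith
    set a := r / 3 + t with ha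
    have ha1 : a ^ 2 < 3 / 4 := by nlinarith
    set b' := Real.sqrt (1 - a ^ 2) with hb'
    have hb'2 : b' ^ 2 = 1 - a ^ 2 := Real.sq_sqrt (by linarith)
    have hb'C : ((b' : ℂ)) ^ 2 = 1 - (a : ℂ) ^ 2 := by
      rw [← Complex.ofReal_pow, hb'2]; push_cast; ring
    have hb'0 : 1 / 2 ≤ b' := by
      apply Real.le_sqrt_of_sq_le; nlinarith
    have key := (hX a b' 1 (by simp) (by linarith)).1
    rw [hc0, hp1, norm_mul, Complex.norm_real, Real.norm_of_nonneg (by linarith), hb'2] at key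
    have e2 : (a : ℂ) * (b' : ℂ) ^ 2 * 0 * (starRingEnd ℂ) 1 + (a : ℂ) ^ 2 * (-2 * p) +
        (b' : ℂ) ^ 2 * p = p * (1 - 3 * ((r : ℂ) / 3 + (t : ℂ)) ^ 2) := by
      rw [hb'C, ha]; push_cast; ring
    have e3 : 2 * (1 - 3 * r / 2 * (a * (1 - a ^ 2)) * (1 : ℂ).re) = 3 * r * t ^ 2 * (t + r) := by
      rw [ha, Complex.one_re]
      linear_combination (r ^ 2 / 9 - 2 / 3 + r * t) * hr2
    rw [e2, e3] at key
    have h7 := norm_nonneg (p * (1 - 3 * ((r : ℂ) / 3 + (t : ℂ)) ^ 2))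
    have h8 : (1 / 2) * ‖p * (1 - 3 * ((r : ℂ) / 3 + (t : ℂ)) ^ 2)‖ ≤ 3 * r * t ^ 2 * (t + r) :=
      le_trans (mul_le_mul_of_nonneg_right hb'0 h7) key
    have h9 : 3 * r * t ^ 2 * (t + r) ≤ 50 * t ^ 2 := by
      have : 3 * r * (t + r) ≤ 50 := by nlinarith
      nlinarith [sq_nonneg t]
    linarith
  have hd2 : HasDerivAt (fun t : ℝ => p * (1 - 3 * ((r : ℂ) / 3 + (t : ℂ)) ^ 2))
      (p * (-(3 * (2 * ((r : ℂ) / 3 + ((0 : ℝ) : ℂ)) ^ 1 * 1)))) 0 := by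
    have g1 : HasDerivAt (fun t : ℝ => (r : ℂ) / 3 + (t : ℂ)) 1 0 :=
      (Complex.ofRealCLM.hasDerivAt (x := (0 : ℝ))).const_add _
    have g2 := ((g1.pow 2).const_mul (3 : ℂ)).const_sub 1
    have g3 := g2.const_mul p
    exact g3
  obtain ⟨_, z4⟩ := deriv_zero_of_quad hd2 h2
  have h5 : (-(3 * (2 * ((r : ℂ) / 3 + ((0 : ℝ) : ℂ)) ^ 1 * 1))) ≠ 0 := by
    simp only [Complex.ofReal_zero, add_zero, pow_one, mul_one]
    apply neg_ne_zero.2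
    apply mul_ne_zero (by norm_num)
    apply mul_ne_zero (by norm_num)
    exact div_ne_zero hrne (by norm_num)
  exact (mul_eq_zero.1 z4).resolve_right h5

/-- The algebra behind the face relation. -/
theorem face_alg {r al be ga X y : ℂ} (hr : r ^ 2 = 3)
    (h0 : r / 3 * (4 / 9) * be + (2 / 9 * al + 4 / 9 * ga) + (r / 9 * X + r / 3 * (2 / 3) * y) = 0)
    (h1 : r / 3 * (4 / 9) * be = r / 9 * X + r / 3 * (2 / 3) * y)
    (h2 : X + 2 / 3 * (r / 3) * al - 8 / 3 * (r / 3) * ga - 4 / 9 * be = 0) :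
    ga = -(r / 2) * y := by
  -- A1 = A2, A0 = - 2 A1
  have e1 : be = 3 / 4 * (X + 2 * y) := by
    have : r * (be - 3 / 4 * (X + 2 * y)) = 0 := by linear_combination 27 / 4 * h1
    have hr0 : r ≠ 0 := by
      intro h; rw [h] at hr; norm_num at hr
    linear_combination (mul_eq_zero.1 this).resolve_left hr0
  have e2 : al = -r * (X + 2 * y) - 2 * ga := by
    linear_combination 9 / 2 * h0 - 2 / 3 * r * e1 * 0 - 9 / 2 * (r / 3 * (4 / 9)) * e1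
  rw [e1, e2] at h2
  have hr0 : r ≠ 0 := by
    intro h; rw [h] at hr; norm_num at hr
  have h3 : r * (ga + r / 2 * y) = 0 := by
    linear_combination -3 / 4 * h2 - (X / 6 + 0 * y) * hr + (1 / 6 * y + 0) * hr
  linear_combination (mul_eq_zero.1 h3).resolve_left hr0

theorem face_two {h : E2 → E2} (hh : Cara h)
    (hq : aco (cmp h 0) 2 = ((-(3 * Real.sqrt 3 / 2) : ℝ) : ℂ)) :
    aco (cmp h 1) 3 = -((Real.sqrt 3 : ℝ) / 2 : ℂ) * bco (cmp h 1) 1 := by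
  obtain ⟨X, hX⟩ := face_eval hh hq
  set r := Real.sqrt 3 with hr
  have hr2 : r ^ 2 = 3 := Real.sq_sqrt (by norm_num)
  have hr0 : 0 < r := Real.sqrt_pos.2 (by norm_num)
  have hrC : (r : ℂ) ^ 2 = 3 := by rw [← Complex.ofReal_pow, hr2]; norm_num
  have hrne : (r : ℂ) ≠ 0 := by exact_mod_cast hr0.ne'
  set be := aco (cmp h 0) 4 with hbe
  set al := bco (cmp h 0) 2 with hal
  set ga := aco (cmp h 1) 3 with hga
  set y := bco (cmp h 1) 1 with hy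
  set b := Real.sqrt (2 / 3) with hb
  have hb2 : b ^ 2 = 2 / 3 := Real.sq_sqrt (by norm_num)
  have hbC : ((b : ℂ)) ^ 2 = 2 / 3 := by
    rw [← Complex.ofReal_pow, hb2]; push_cast; ring
  have hb4 : ((b : ℂ)) ^ 4 = 4 / 9 := by
    have : (b : ℂ) ^ 4 = ((b : ℂ) ^ 2) ^ 2 := by ring
    rw [this, hbC]; norm_num
  -- first path
  have h1 : ∀ t : ℝ, ‖(r : ℂ) / 3 * (4 / 9) * be * Complex.exp ((t : ℂ) * (-Complex.I)) +
      (2 / 9 * al + 4 / 9 * ga) +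
      ((r : ℂ) / 9 * X + (r : ℂ) / 3 * (2 / 3) * y) * Complex.exp ((t : ℂ) * Complex.I)‖ ≤
      1 * t ^ 2 := by
    intro t
    have hw : ‖Complex.exp ((t : ℂ) * Complex.I)‖ = 1 := Complex.norm_exp_ofReal_mul_I t
    have key := (hX (r / 3) b (Complex.exp ((t : ℂ) * Complex.I)) hw (by nlinarith)).2
    have hre : (Complex.exp ((t : ℂ) * Complex.I)).re = Real.cos t :=
      Complex.exp_ofReal_mul_I_re t
    have hconj : (starRingEnd ℂ) (Complex.exp ((t : ℂ) * Complex.I)) =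
        Complex.exp ((t : ℂ) * (-Complex.I)) := by
      rw [← Complex.exp_conj, map_mul, Complex.conj_ofReal, Complex.conj_I]
    rw [hre, hconj] at key
    have e1 : 3 * r / 2 * (r / 3 * b ^ 2) = 1 := by rw [hb2]; nlinarith
    rw [e1, one_mul] at key
    have e2 : ((r / 3 : ℝ) : ℂ) * (b : ℂ) ^ 4 * be * Complex.exp ((t : ℂ) * (-Complex.I)) +
        (((r / 3 : ℝ) : ℂ) ^ 2 * (b : ℂ) ^ 2 * al + (b : ℂ) ^ 4 * ga) +
        (((r / 3 : ℝ) : ℂ) ^ 3 * X + ((r / 3 : ℝ) : ℂ) * (b : ℂ) ^ 2 * y) *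
          Complex.exp ((t : ℂ) * Complex.I) =
        (r : ℂ) / 3 * (4 / 9) * be * Complex.exp ((t : ℂ) * (-Complex.I)) +
      (2 / 9 * al + 4 / 9 * ga) +
      ((r : ℂ) / 9 * X + (r : ℂ) / 3 * (2 / 3) * y) * Complex.exp ((t : ℂ) * Complex.I) := by
      rw [hbC, hb4]
      push_cast
      linear_combination (2 / 27 * al + (r : ℂ) / 27 * X * Complex.exp ((t : ℂ) * Complex.I)) * hrC
    rw [e2] at key
    have hcos := Real.one_sub_sq_div_two_le_cos (x := t)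
    linarith
  have hd1 : HasDerivAt (fun t : ℝ => (r : ℂ) / 3 * (4 / 9) * be *
      Complex.exp ((t : ℂ) * (-Complex.I)) + (2 / 9 * al + 4 / 9 * ga) +
      ((r : ℂ) / 9 * X + (r : ℂ) / 3 * (2 / 3) * y) * Complex.exp ((t : ℂ) * Complex.I))
      ((r : ℂ) / 3 * (4 / 9) * be * (Complex.exp (((0 : ℝ) : ℂ) * (-Complex.I)) * (-Complex.I)) +
        ((r : ℂ) / 9 * X + (r : ℂ) / 3 * (2 / 3) * y) *
          (Complex.exp (((0 : ℝ) : ℂ) * Complex.I) * Complex.I)) 0 :=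
    (((hasDerivAt_cexp_mul (-Complex.I) 0).const_mul _).add_const _).add
      ((hasDerivAt_cexp_mul Complex.I 0).const_mul _)
  obtain ⟨z1, z2⟩ := deriv_zero_of_quad hd1 (Eventually.of_forall h1)
  simp only [Complex.ofReal_zero, zero_mul, Complex.exp_zero, mul_one, one_mul] at z1 z2
  have z2' : (r : ℂ) / 3 * (4 / 9) * be = (r : ℂ) / 9 * X + (r : ℂ) / 3 * (2 / 3) * y := by
    have h6 : Complex.I * ((r : ℂ) / 3 * (4 / 9) * be -
        ((r : ℂ) / 9 * X + (r : ℂ) / 3 * (2 / 3) * y)) = 0 := by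
      linear_combination -z2
    linear_combination (mul_eq_zero.1 h6).resolve_left Complex.I_ne_zero
  -- second path
  have h2 : ∀ᶠ t : ℝ in 𝓝 0, ‖((r : ℂ) / 3 + (t : ℂ)) * (1 - ((r : ℂ) / 3 + (t : ℂ)) ^ 2) ^ 2 * be +
      (((r : ℂ) / 3 + (t : ℂ)) ^ 2 * (1 - ((r : ℂ) / 3 + (t : ℂ)) ^ 2) * al +
        (1 - ((r : ℂ) / 3 + (t : ℂ)) ^ 2) ^ 2 * ga) +
      (((r : ℂ) / 3 + (t : ℂ)) ^ 3 * X +
        ((r : ℂ) / 3 + (t : ℂ)) * (1 - ((r : ℂ) / 3 + (t : ℂ)) ^ 2) * y)‖ ≤ 50 * t ^ 2 := by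
    have hev : ∀ᶠ t : ℝ in 𝓝 0, |t| < 1 / 100 := by
      have h0 : Tendsto (fun t : ℝ => |t|) (𝓝 0) (𝓝 0) := by
        have := (continuous_abs : Continuous (fun t : ℝ => |t|)).tendsto 0
        rwa [abs_zero] at this
      exact h0.eventually (gt_mem_nhds (by norm_num))
    filter_upwards [hev] with t ht
    obtain ⟨ht1, ht2⟩ := abs_lt.1 ht
    have hr17 : r < 1.8 := by nlinarith
    have hr16 : 1.7 < r := by nlinarith
    set a := r / 3 + t with ha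
    have ha1 : a ^ 2 < 3 / 4 := by nlinarith
    set b' := Real.sqrt (1 - a ^ 2) with hb'
    have hb'2 : b' ^ 2 = 1 - a ^ 2 := Real.sq_sqrt (by linarith)
    have hb'C : ((b' : ℂ)) ^ 2 = 1 - (a : ℂ) ^ 2 := by
      rw [← Complex.ofReal_pow, hb'2]; push_cast; ring
    have key := (hX a b' 1 (by simp) (by linarith)).2
    rw [hb'2] at key
    have e2 : (a : ℂ) * (b' : ℂ) ^ 4 * be * (starRingEnd ℂ) 1 +
        ((a : ℂ) ^ 2 * (b' : ℂ) ^ 2 * al + (b' : ℂ) ^ 4 * ga) +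
        ((a : ℂ) ^ 3 * X + (a : ℂ) * (b' : ℂ) ^ 2 * y) * 1 =
        ((r : ℂ) / 3 + (t : ℂ)) * (1 - ((r : ℂ) / 3 + (t : ℂ)) ^ 2) ^ 2 * be +
      (((r : ℂ) / 3 + (t : ℂ)) ^ 2 * (1 - ((r : ℂ) / 3 + (t : ℂ)) ^ 2) * al +
        (1 - ((r : ℂ) / 3 + (t : ℂ)) ^ 2) ^ 2 * ga) +
      (((r : ℂ) / 3 + (t : ℂ)) ^ 3 * X +
        ((r : ℂ) / 3 + (t : ℂ)) * (1 - ((r : ℂ) / 3 + (t : ℂ)) ^ 2) * y) := by
      have hb4' : (b' : ℂ) ^ 4 = (1 - (a : ℂ) ^ 2) ^ 2 := by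
        have : (b' : ℂ) ^ 4 = ((b' : ℂ) ^ 2) ^ 2 := by ring
        rw [this, hb'C]
      rw [hb'C, hb4', ha, map_one]; push_cast; ring
    have e3 : 2 * (1 - 3 * r / 2 * (a * (1 - a ^ 2)) * (1 : ℂ).re) = 3 * r * t ^ 2 * (t + r) := by
      rw [ha, Complex.one_re]
      linear_combination (r ^ 2 / 9 - 2 / 3 + r * t) * hr2
    rw [e2, e3] at key
    have h9 : 3 * r * t ^ 2 * (t + r) ≤ 50 * t ^ 2 := by
      have : 3 * r * (t + r) ≤ 50 := by nlinarith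
      nlinarith [sq_nonneg t]
    linarith
  have hd2 : HasDerivAt (fun t : ℝ => ((r : ℂ) / 3 + (t : ℂ)) *
      (1 - ((r : ℂ) / 3 + (t : ℂ)) ^ 2) ^ 2 * be +
      (((r : ℂ) / 3 + (t : ℂ)) ^ 2 * (1 - ((r : ℂ) / 3 + (t : ℂ)) ^ 2) * al +
        (1 - ((r : ℂ) / 3 + (t : ℂ)) ^ 2) ^ 2 * ga) +
      (((r : ℂ) / 3 + (t : ℂ)) ^ 3 * X +
        ((r : ℂ) / 3 + (t : ℂ)) * (1 - ((r : ℂ) / 3 + (t : ℂ)) ^ 2) * y))
      (X + 2 / 3 * ((r : ℂ) / 3) * al - 8 / 3 * ((r : ℂ) / 3) * ga - 4 / 9 * be) 0 := by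
    have g1 : HasDerivAt (fun t : ℝ => (r : ℂ) / 3 + (t : ℂ)) 1 0 :=
      (Complex.ofRealCLM.hasDerivAt (x := (0 : ℝ))).const_add _
    have g2 : HasDerivAt (fun t : ℝ => 1 - ((r : ℂ) / 3 + (t : ℂ)) ^ 2)
        (-((2 : ℕ) * ((r : ℂ) / 3 + ((0 : ℝ) : ℂ)) ^ (2 - 1) * 1)) 0 := (g1.pow 2).const_sub 1
    have g3 := ((g1.mul (g2.pow 2)).mul_const be).add
      ((((g1.pow 2).mul g2).mul_const al).add ((g2.pow 2).mul_const ga))
    have g4 := g3.add (((g1.pow 3).mul_const X).add ((g1.mul g2).mul_const y))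
    refine HasDerivAt.congr_deriv (f := fun t : ℝ => ((r : ℂ) / 3 + (t : ℂ)) *
      (1 - ((r : ℂ) / 3 + (t : ℂ)) ^ 2) ^ 2 * be +
      (((r : ℂ) / 3 + (t : ℂ)) ^ 2 * (1 - ((r : ℂ) / 3 + (t : ℂ)) ^ 2) * al +
        (1 - ((r : ℂ) / 3 + (t : ℂ)) ^ 2) ^ 2 * ga) +
      (((r : ℂ) / 3 + (t : ℂ)) ^ 3 * X +
        ((r : ℂ) / 3 + (t : ℂ)) * (1 - ((r : ℂ) / 3 + (t : ℂ)) ^ 2) * y)) g4 ?_
    simp only [Complex.ofReal_zero, add_zero, Pi.pow_apply]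
    push_cast
    have hr4 : (r : ℂ) ^ 4 = 9 := by
      have : (r : ℂ) ^ 4 = ((r : ℂ) ^ 2) ^ 2 := by ring
      rw [this, hrC]; norm_num
    ring_nf
    rw [show (r : ℂ) ^ 3 = (r : ℂ) ^ 2 * r by ring, hr4, hrC]
    ring
  obtain ⟨_, z4⟩ := deriv_zero_of_quad hd2 h2
  exact face_alg hrC z1 z2' z4

end Pool.Agent.H840R2.LJ
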