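import Mathlib
import Pool.Agent.H840R2.LJE

set_option autoImplicit false

namespace Pool.Agent.H840R2.LJ

open Metric Set Filter Topology Pool.Agent.Helper540

/-- The extremal face. -/
structure Face (h : E2 → E2) : Prop where
  cara : Cara h
  q : aco (cmp h 0) 2 = ((-(3 * Real.sqrt 3 / 2) : ℝ) : ℂ)

/-- The coefficient `y`. -/
noncomputable def yc (h : E2 → E2) : ℂ := bco (cmp h 1) 1

/-! ### An explicit element of the face -/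

/-- The explicit element. -/
noncomputable def hst (z : E2) : E2 :=
  pt (z 0 - 3 * Real.sqrt 3 / 2 * z 1 ^ 2 + 1 / 4 * ((z 0 - Real.sqrt 3 / 2 * z 1 ^ 2) * (-2 * z 0)))
    (z 1 + 1 / 4 * ((z 0 - Real.sqrt 3 / 2 * z 1 ^ 2) * z 1))

theorem sphere_ineq {a b x r R : ℝ} {N : ℝ} (hab : a ^ 2 + b ^ 2 = 1)
    (hr : 0 < r) (hr2 : r ^ 2 = 3) (hx : x ≤ a * b ^ 2) (hR : R = b ^ 2 - 2 * a ^ 2)
    (hN : N = a ^ 2 - r * x + 3 / 4 * b ^ 4) :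
    R ^ 2 ≤ 4 * N ∧ 1 - 3 * r / 2 * x = 3 / 2 * N - 1 / 8 * R ^ 2 := by
  have hb2 : b ^ 2 = 1 - a ^ 2 := by linarith
  have hb4 : b ^ 4 = (1 - a ^ 2) ^ 2 := by
    have : b ^ 4 = (b ^ 2) ^ 2 := by ring
    rw [this, hb2]
  rw [hb2] at hx hR
  rw [hb4] at hN
  constructor
  · have h1 : 0 ≤ (r * (a - r / 3)) ^ 2 * (1 - a ^ 2) := by
      apply mul_nonneg (sq_nonneg _)
      have := sq_nonneg b
      linarith
    have h2 : 4 * (a ^ 2 - r * (a * (1 - a ^ 2)) + 3 / 4 * (1 - a ^ 2) ^ 2) - (1 - 3 * a ^ 2) ^ 2 =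
        2 * ((r * (a - r / 3)) ^ 2 * (1 - a ^ 2)) := by
      have e : r * (a - r / 3) = r * a - 1 := by linarith
      rw [e]
      linear_combination (-2 * a ^ 2 * (1 - a ^ 2)) * hr2
    have h3 : r * x ≤ r * (a * (1 - a ^ 2)) := mul_le_mul_of_nonneg_left hx hr.le
    rw [hN, hR]
    nlinarith
  · rw [hN, hR]
    ring

theorem hst_re (z : E2) : (inner ℂ z (hst z) : ℂ).re =
    ‖z 0‖ ^ 2 + ‖z 1‖ ^ 2 - 3 * Real.sqrt 3 / 2 * ((starRingEnd ℂ) (z 0) * z 1 ^ 2).re +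
      1 / 4 * Complex.re (z 0 - Real.sqrt 3 / 2 * z 1 ^ 2) * (‖z 1‖ ^ 2 - 2 * ‖z 0‖ ^ 2) := by
  have h1 : inner ℂ z (hst z) = (starRingEnd ℂ) (z 0) * (hst z) 0 +
      (starRingEnd ℂ) (z 1) * (hst z) 1 := by
    conv_lhs => rw [← pt_eta z]
    rw [inner_pt, pt_eta]
  have e0 : (starRingEnd ℂ) (z 0) * z 0 = ((‖z 0‖ ^ 2 : ℝ) : ℂ) := by
    rw [mul_comm, Complex.mul_conj, Complex.normSq_eq_norm_sq]
  have e1 : (starRingEnd ℂ) (z 1) * z 1 = ((‖z 1‖ ^ 2 : ℝ) : ℂ) := by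
    rw [mul_comm, Complex.mul_conj, Complex.normSq_eq_norm_sq]
  have h2 : inner ℂ z (hst z) = ((‖z 0‖ ^ 2 : ℝ) : ℂ) + ((‖z 1‖ ^ 2 : ℝ) : ℂ) -
      ((3 * Real.sqrt 3 / 2 : ℝ) : ℂ) * ((starRingEnd ℂ) (z 0) * z 1 ^ 2) +
      ((1 / 4 * (‖z 1‖ ^ 2 - 2 * ‖z 0‖ ^ 2) : ℝ) : ℂ) * (z 0 - Real.sqrt 3 / 2 * z 1 ^ 2) := by
    rw [h1]
    simp only [hst, pt_zero_apply, pt_one_apply]
    push_cast
    rw [Complex.ofReal_pow] at e0 e1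
    linear_combination (1 - 1 / 2 * (z 0 - Real.sqrt 3 / 2 * z 1 ^ 2)) * e0 +
      (1 + 1 / 4 * (z 0 - Real.sqrt 3 / 2 * z 1 ^ 2)) * e1
  rw [h2, Complex.add_re, Complex.sub_re, Complex.re_ofReal_mul, Complex.re_ofReal_mul,
    Complex.add_re, Complex.ofReal_re, Complex.ofReal_re]
  ring

theorem hst_pos {z : E2} (hz : z ∈ ball (0 : E2) 1) : 0 ≤ (inner ℂ z (hst z) : ℂ).re := by
  by_cases hz0 : z = 0
  · rw [hz0]; simp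
  set ρ := ‖z‖ with hρ
  have hρ0 : 0 < ρ := norm_pos_iff.2 hz0
  have hρ1 : ρ < 1 := mem_ball_zero_iff.1 hz
  have hρC : (ρ : ℂ) ≠ 0 := by exact_mod_cast hρ0.ne'
  set r := Real.sqrt 3 with hr
  have hr2 : r ^ 2 = 3 := Real.sq_sqrt (by norm_num)
  have hr0 : 0 < r := Real.sqrt_pos.2 (by norm_num)
  set u0 : ℂ := (ρ : ℂ)⁻¹ * z 0 with hu0
  set u1 : ℂ := (ρ : ℂ)⁻¹ * z 1 with hu1
  have hz0' : z 0 = (ρ : ℂ) * u0 := by rw [hu0]; field_simp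
  have hz1' : z 1 = (ρ : ℂ) * u1 := by rw [hu1]; field_simp
  have hn0 : ‖z 0‖ = ρ * ‖u0‖ := by
    rw [hz0', norm_mul, Complex.norm_real, Real.norm_of_nonneg hρ0.le]
  have hn1 : ‖z 1‖ = ρ * ‖u1‖ := by
    rw [hz1', norm_mul, Complex.norm_real, Real.norm_of_nonneg hρ0.le]
  have hsum : ‖u0‖ ^ 2 + ‖u1‖ ^ 2 = 1 := by
    have h1 := norm_sq_two z
    rw [hn0, hn1] at h1
    have h2 : ρ ^ 2 * (‖u0‖ ^ 2 + ‖u1‖ ^ 2) = ρ ^ 2 * 1 := by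
      rw [mul_one]
      calc ρ ^ 2 * (‖u0‖ ^ 2 + ‖u1‖ ^ 2) = (ρ * ‖u0‖) ^ 2 + (ρ * ‖u1‖) ^ 2 := by ring
        _ = ‖z‖ ^ 2 := h1.symm
    exact mul_left_cancel₀ (by positivity) h2
  set x := ((starRingEnd ℂ) u0 * u1 ^ 2).re with hx
  set Z := u0 - r / 2 * u1 ^ 2 with hZ
  set R := ‖u1‖ ^ 2 - 2 * ‖u0‖ ^ 2 with hR
  have hxle : x ≤ ‖u0‖ * ‖u1‖ ^ 2 := by
    calc x ≤ ‖(starRingEnd ℂ) u0 * u1 ^ 2‖ := Complex.re_le_norm _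
      _ = _ := by rw [norm_mul, RCLike.norm_conj, norm_pow]
  have hZn : ‖Z‖ ^ 2 = ‖u0‖ ^ 2 - r * x + 3 / 4 * ‖u1‖ ^ 4 := by
    have h1 : ‖Z‖ ^ 2 = ‖u0‖ ^ 2 - 2 * ((starRingEnd ℂ) u0 * ((r : ℂ) / 2 * u1 ^ 2)).re +
        ‖(r : ℂ) / 2 * u1 ^ 2‖ ^ 2 := by
      have := @norm_sub_sq ℂ ℂ _ _ _ u0 ((r : ℂ) / 2 * u1 ^ 2)
      rw [hZ, this]
      simp only [RCLike.inner_apply]
      rw [mul_comm ((r : ℂ) / 2 * u1 ^ 2)]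
      rfl
    have h2 : ((starRingEnd ℂ) u0 * ((r : ℂ) / 2 * u1 ^ 2)).re = r / 2 * x := by
      have : (starRingEnd ℂ) u0 * ((r : ℂ) / 2 * u1 ^ 2) = ((r / 2 : ℝ) : ℂ) *
          ((starRingEnd ℂ) u0 * u1 ^ 2) := by push_cast; ring
      rw [this, Complex.re_ofReal_mul]
    have h3 : ‖(r : ℂ) / 2 * u1 ^ 2‖ ^ 2 = 3 / 4 * ‖u1‖ ^ 4 := by
      have : (r : ℂ) / 2 = ((r / 2 : ℝ) : ℂ) := by push_cast; ring
      rw [this, norm_mul, Complex.norm_real, Real.norm_of_nonneg (by positivity), norm_pow]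
      linear_combination (‖u1‖ ^ 4 / 4) * hr2
    rw [h1, h2, h3]
    ring
  obtain ⟨i1, i2⟩ := sphere_ineq hsum hr0 hr2 hxle hR hZn
  have hN1 : ‖Z‖ ^ 2 ≤ 1 - 3 * r / 2 * x := by rw [i2]; linarith
  have hRa : |R| ≤ 2 * ‖Z‖ := by
    apply abs_le_of_sq_le_sq _ (by positivity)
    calc R ^ 2 ≤ 4 * ‖Z‖ ^ 2 := i1
      _ = (2 * ‖Z‖) ^ 2 := by ring
  have hR2 : |R| ≤ 2 := by
    rw [abs_le]
    constructor <;> nlinarith [sq_nonneg ‖u0‖, sq_nonneg ‖u1‖]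
  have hu01 : ‖u0‖ ≤ 1 := by nlinarith [norm_nonneg u0, sq_nonneg ‖u1‖]
  -- the value
  have hval : (inner ℂ z (hst z) : ℂ).re = ρ ^ 2 * (1 - ρ * (3 * r / 2 * x) +
      1 / 4 * ρ * (u0 - r / 2 * ρ * u1 ^ 2).re * R) := by
    rw [hst_re, hn0, hn1]
    have e1 : ((starRingEnd ℂ) (z 0) * z 1 ^ 2).re = ρ ^ 3 * x := by
      have : (starRingEnd ℂ) (z 0) * z 1 ^ 2 = ((ρ ^ 3 : ℝ) : ℂ) * ((starRingEnd ℂ) u0 * u1 ^ 2) := by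
        rw [hz0', hz1', map_mul, Complex.conj_ofReal]; push_cast; ring
      rw [this, Complex.re_ofReal_mul]
    have e2 : Complex.re (z 0 - Real.sqrt 3 / 2 * z 1 ^ 2) = ρ * (u0 - r / 2 * ρ * u1 ^ 2).re := by
      have : z 0 - Real.sqrt 3 / 2 * z 1 ^ 2 = (ρ : ℂ) * (u0 - r / 2 * ρ * u1 ^ 2) := by
        rw [hz0', hz1']; ring
      rw [this, Complex.re_ofReal_mul]
    rw [e1, e2, hR]
    linear_combination ρ ^ 2 * hsum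
  rw [hval]
  apply mul_nonneg (sq_nonneg _)
  have h1 : |(u0 - r / 2 * ρ * u1 ^ 2).re| ≤ ρ * ‖Z‖ + (1 - ρ) := by
    have e : u0 - r / 2 * ρ * u1 ^ 2 = (ρ : ℂ) * Z + ((1 - ρ : ℝ) : ℂ) * u0 := by
      rw [hZ]; push_cast; ring
    calc |(u0 - r / 2 * ρ * u1 ^ 2).re| ≤ ‖u0 - r / 2 * ρ * u1 ^ 2‖ := Complex.abs_re_le_norm _
      _ = ‖(ρ : ℂ) * Z + ((1 - ρ : ℝ) : ℂ) * u0‖ := by rw [e]
      _ ≤ ‖(ρ : ℂ) * Z‖ + ‖((1 - ρ : ℝ) : ℂ) * u0‖ := norm_add_le _ _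
      _ = ρ * ‖Z‖ + (1 - ρ) * ‖u0‖ := by
          rw [norm_mul, norm_mul, Complex.norm_real, Complex.norm_real,
            Real.norm_of_nonneg hρ0.le, Real.norm_of_nonneg (by linarith)]
      _ ≤ _ := by nlinarith
  have h2 : |(u0 - r / 2 * ρ * u1 ^ 2).re * R| ≤ ρ * (2 * ‖Z‖ ^ 2) + (1 - ρ) * 2 := by
    rw [abs_mul]
    have hZ0 := norm_nonneg Z
    calc |(u0 - r / 2 * ρ * u1 ^ 2).re| * |R| ≤ (ρ * ‖Z‖ + (1 - ρ)) * |R| := by gcongr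
      _ = ρ * (‖Z‖ * |R|) + (1 - ρ) * |R| := by ring
      _ ≤ ρ * (‖Z‖ * (2 * ‖Z‖)) + (1 - ρ) * 2 := by
          have : 0 ≤ 1 - ρ := by linarith
          gcongr
      _ = _ := by ring
  have h3 := (abs_le.1 h2).1
  have h4 : 0 ≤ ‖Z‖ ^ 2 := sq_nonneg _
  have h5 : -(1 / 4 * ρ * (ρ * (2 * ‖Z‖ ^ 2) + (1 - ρ) * 2)) ≤
      1 / 4 * ρ * ((u0 - r / 2 * ρ * u1 ^ 2).re * R) := by
    have := mul_le_mul_of_nonneg_left h3 (show 0 ≤ 1 / 4 * ρ by positivity)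
    linarith
  have h6 : 1 / 4 * ρ * (ρ * (2 * ‖Z‖ ^ 2) + (1 - ρ) * 2) ≤ 1 / 2 * ρ * ‖Z‖ ^ 2 + 1 / 2 * (1 - ρ) := by
    have i : ρ * (ρ * ‖Z‖ ^ 2) ≤ 1 * (ρ * ‖Z‖ ^ 2) := by gcongr
    have j : ρ * (1 - ρ) ≤ 1 * (1 - ρ) := by
      apply mul_le_mul_of_nonneg_right hρ1.le; linarith
    nlinarith
  have h7 : ρ * ‖Z‖ ^ 2 ≤ ρ * (1 - 3 * r / 2 * x) := mul_le_mul_of_nonneg_left hN1 hρ0.le
  have h8 : 0 ≤ ρ * ‖Z‖ ^ 2 := by positivity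
  nlinarith

theorem hst_diff : Differentiable ℂ hst := by
  intro z
  apply differentiableAt_pt
  · have h0 : DifferentiableAt ℂ (fun z : E2 => z 0) z := (co 0).differentiableAt
    have h1 : DifferentiableAt ℂ (fun z : E2 => z 1) z := (co 1).differentiableAt
    fun_prop
  · have h0 : DifferentiableAt ℂ (fun z : E2 => z 0) z := (co 0).differentiableAt
    have h1 : DifferentiableAt ℂ (fun z : E2 => z 1) z := (co 1).differentiableAt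
    fun_prop

end Pool.Agent.H840R2.LJ
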