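import Mathlib
import Pool.Agent.H840R2.LJA
import Pool.Agent.Helper197.Ode
import Pool.Agent.Helper540.Ode

set_option autoImplicit false

namespace Pool.Agent.H840R2.LJ

open Metric Set Filter Topology Pool.Agent.Helper540

/-- `h` is Lipschitz on smaller balls. -/
theorem cara_lip {h : E2 → E2} (hh : Cara h) {r : ℝ} (hr : r < 1) :
    ∃ L : ℝ, 0 ≤ L ∧ ∀ z w : E2, ‖z‖ ≤ r → ‖w‖ ≤ r → ‖h z - h w‖ ≤ L * ‖z - w‖ := by
  obtain ⟨C, hC0, hC⟩ := exists_cara_bound (E := E2) (r := (1 + r) / 2) (by linarith)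
  have hR : 0 < (1 - r) / 2 := by linarith
  refine ⟨4 * C / ((1 - r) / 2), by positivity, fun z w hz hw => ?_⟩
  have hb : ∀ x ∈ closedBall (0 : E2) r, ‖fderiv ℂ h x‖ ≤ 4 * C / ((1 - r) / 2) := by
    intro x hx
    have hxr : ‖x‖ ≤ r := by simpa using hx
    have hsub : ∀ y ∈ ball x ((1 - r) / 2), ‖y‖ ≤ (1 + r) / 2 := by
      intro y hy
      rw [mem_ball, dist_eq_norm] at hy
      calc ‖y‖ = ‖x + (y - x)‖ := by simp
        _ ≤ ‖x‖ + ‖y - x‖ := norm_add_le _ _
        _ ≤ _ := by linarith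
    apply norm_fderiv_le_half (c := x) (R := (1 - r) / 2) (M := C)
    · apply hh.diff.mono
      intro y hy
      rw [mem_ball_zero_iff]
      linarith [hsub y hy]
    · intro y hy
      exact hC h hh y (hsub y hy)
    · exact mem_ball_self (by linarith)
  have hd : ∀ x ∈ closedBall (0 : E2) r, HasFDerivWithinAt h (fderiv ℂ h x) (closedBall 0 r) x := by
    intro x hx
    have hx1 : x ∈ ball (0 : E2) 1 := by
      rw [mem_ball_zero_iff]
      have : ‖x‖ ≤ r := by simpa using hx
      linarith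
    exact ((hh.diff.differentiableAt (isOpen_ball.mem_nhds hx1)).hasFDerivAt).hasFDerivWithinAt
  exact (convex_closedBall (0 : E2) r).norm_image_sub_le_of_norm_hasFDerivWithin_le hd hb
    (by simpa using hw) (by simpa using hz)

/-- A global flow which agrees with the flow of `-h` on a smaller ball. -/
theorem exists_flow {h : E2 → E2} (hh : Cara h) {r : ℝ} (hr0 : 0 < r) (hr : r < 1) :
    ∃ φ : ℝ → E2 → E2, (∀ z, φ 0 z = z) ∧ (∀ s t z, φ (s + t) z = φ s (φ t z)) ∧
      (∀ z t, 0 ≤ t → ‖φ t z‖ ≤ ‖z‖) ∧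
      (∀ z, ‖z‖ < r → ∀ t, 0 ≤ t → HasDerivAt (fun s => φ s z) (-(h (φ t z))) t) := by
  let χ : ContDiffBump (0 : E2) := ⟨r, (1 + r) / 2, hr0, by linarith⟩
  set X : E2 → E2 := fun z => -((χ z : ℝ) • h z) with hX
  have hzero : ∀ z : E2, (1 + r) / 2 < ‖z‖ → X =ᶠ[𝓝 z] fun _ => 0 := by
    intro z hz
    have h1 : {w : E2 | (1 + r) / 2 < ‖w‖} ∈ 𝓝 z :=
      (isOpen_lt continuous_const continuous_norm).mem_nhds hz
    filter_upwards [h1] with w hw
    have hw' : (1 + r) / 2 < ‖w‖ := hw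
    have h2 : χ w = 0 := by
      apply χ.zero_of_le_dist
      rw [dist_zero_right]
      exact hw'.le
    simp only [hX, h2, zero_smul, neg_zero]
  have hsm : ContDiff ℝ 2 X := by
    rw [contDiff_iff_contDiffAt]
    intro z
    by_cases hz : ‖z‖ < 1
    · have hz1 : z ∈ ball (0 : E2) 1 := by simpa using hz
      have h1 : ContDiffAt ℂ (2 : ℕ) h z :=
        (contDiffOn_of_differentiableOn isOpen_ball hh.diff 2).contDiffAt
          (isOpen_ball.mem_nhds hz1)
      have h2 : ContDiffAt ℝ 2 h z := by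
        have := h1.restrict_scalars ℝ
        exact_mod_cast this
      have h3 : ContDiffAt ℝ 2 (fun z => χ z) z := χ.contDiffAt
      exact (h3.smul h2).neg
    · have h1 : (1 + r) / 2 < ‖z‖ := by
        push Not at hz
        linarith
      exact contDiffAt_const.congr_of_eventuallyEq (hzero z h1)
  have hcs : HasCompactSupport X := by
    apply HasCompactSupport.of_support_subset_isCompact (isCompact_closedBall (0 : E2) ((1 + r) / 2))
    intro z hz
    by_contra hzc
    apply hz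
    have h1 : (1 + r) / 2 < ‖z‖ := by
      simpa using hzc
    exact (hzero z h1).self_of_nhds
  obtain ⟨φ, h0, hφ, hadd, -, hcont, -⟩ := Pool.Agent.Helper197.SI.exists_global_flow X hsm hcs
  have hXle : ∀ z : E2, (inner ℂ z (X z) : ℂ).re ≤ 0 := by
    intro z
    by_cases hz : ‖z‖ < 1
    · have h1 := hh.re_inner_nonneg hz
      have h2 : inner ℂ z (X z) = -(((χ z : ℝ) : ℂ) * inner ℂ z (h z)) := by
        simp only [hX]
        rw [inner_neg_right, ← Complex.coe_smul, inner_smul_right]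
      rw [h2, Complex.neg_re, Complex.re_ofReal_mul]
      have h3 : 0 ≤ χ z := χ.nonneg
      nlinarith [mul_nonneg h3 h1]
    · have h1 : (1 + r) / 2 < ‖z‖ := by
        push Not at hz
        linarith
      rw [(hzero z h1).self_of_nhds]
      simp
  have hnorm : ∀ z t, 0 ≤ t → ‖φ t z‖ ≤ ‖z‖ := by
    intro z t ht
    have hder : ∀ s, HasDerivAt (fun s => ‖φ s z‖ ^ 2) (2 * (inner ℂ (φ s z) (X (φ s z)) : ℂ).re) s := by
      intro s
      have h2 := HasDerivAt.inner ℂ (hφ z s) (hφ z s)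
      have h3 := Complex.reCLM.hasFDerivAt.comp_hasDerivAt s h2
      have e1 : (Complex.reCLM ∘ fun t => inner ℂ (φ t z) (φ t z)) = fun t => ‖φ t z‖ ^ 2 := by
        ext t
        simp only [Function.comp_apply, Complex.reCLM_apply]
        rw [inner_self_eq_norm_sq_to_K]
        norm_cast
      rw [e1] at h3
      refine h3.congr_deriv ?_
      simp only [Complex.reCLM_apply, Complex.add_re]
      have : (inner ℂ (X (φ s z)) (φ s z)).re = (inner ℂ (φ s z) (X (φ s z))).re := by
        rw [← inner_conj_symm, Complex.conj_re]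
      rw [this]
      ring
    have hanti : Antitone (fun s => ‖φ s z‖ ^ 2) := by
      apply antitone_of_deriv_nonpos
      · intro s
        exact (hder s).differentiableAt
      · intro s
        rw [(hder s).deriv]
        have := hXle (φ s z)
        linarith
    have h1 := hanti ht
    simp only [h0] at h1
    exact (pow_le_pow_iff_left₀ (norm_nonneg _) (norm_nonneg _) two_ne_zero).1 h1
  refine ⟨φ, h0, hadd, hnorm, fun z hz t ht => ?_⟩
  have h1 := hφ z t
  have h2 : X (φ t z) = -(h (φ t z)) := by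
    have h3 : χ (φ t z) = 1 := by
      apply χ.one_of_mem_closedBall
      rw [mem_closedBall_zero_iff]
      exact (hnorm z t ht).trans hz.le
    simp only [hX, h3, one_smul]
  rwa [h2] at h1

/-- The semigroup generated by `-h`. -/
structure Semi (h : E2 → E2) (v : ℝ → E2 → E2) : Prop where
  start : ∀ z ∈ ball (0 : E2) 1, v 0 z = z
  norm_le : ∀ t, 0 ≤ t → ∀ z ∈ ball (0 : E2) 1, ‖v t z‖ ≤ ‖z‖
  add : ∀ s t, 0 ≤ s → 0 ≤ t → ∀ z ∈ ball (0 : E2) 1, v (s + t) z = v s (v t z)
  deriv : ∀ t, 0 ≤ t → ∀ z ∈ ball (0 : E2) 1, HasDerivAt (fun s => v s z) (-(h (v t z))) t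

/-- Uniqueness of trajectories. -/
theorem traj_unique {h : E2 → E2} (hh : Cara h) {r : ℝ} (hr : r < 1) {f g : ℝ → E2}
    (hf : ∀ t, 0 ≤ t → HasDerivAt f (-(h (f t))) t) (hg : ∀ t, 0 ≤ t → HasDerivAt g (-(h (g t))) t)
    (hfr : ∀ t, 0 ≤ t → ‖f t‖ ≤ r) (hgr : ∀ t, 0 ≤ t → ‖g t‖ ≤ r) (h0 : f 0 = g 0) {t : ℝ}
    (ht : 0 ≤ t) : f t = g t := by
  obtain ⟨L, hL0, hL⟩ := cara_lip hh hr
  have key := ODE_solution_unique_of_mem_Icc_right (v := fun _ z => -(h z))
    (s := fun _ => closedBall (0 : E2) r) (K := L.toNNReal) (f := f) (g := g) (a := 0) (b := t)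
    (fun s _ => by
      rw [lipschitzOnWith_iff_norm_sub_le]
      intro x hx y hy
      rw [Real.coe_toNNReal _ hL0]
      have := hL x y (by simpa using hx) (by simpa using hy)
      calc ‖-h x - -h y‖ = ‖h x - h y‖ := by rw [← norm_neg]; congr 1; abel
        _ ≤ _ := this)
    (fun s hs => (hf s hs.1).continuousAt.continuousWithinAt)
    (fun s hs => (hf s hs.1).hasDerivWithinAt) (fun s hs => by simpa using hfr s hs.1)
    (fun s hs => (hg s hs.1).continuousAt.continuousWithinAt)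
    (fun s hs => (hg s hs.1).hasDerivWithinAt) (fun s hs => by simpa using hgr s hs.1) h0
  exact key ⟨ht, le_rfl⟩

theorem exists_semi {h : E2 → E2} (hh : Cara h) : ∃ v : ℝ → E2 → E2, Semi h v := by
  have hex : ∀ z : E2, ∃ φ : ℝ → E2, ‖z‖ < 1 → (φ 0 = z ∧ (∀ t, 0 ≤ t → ‖φ t‖ ≤ ‖z‖) ∧
      ∀ t, 0 ≤ t → HasDerivAt φ (-(h (φ t))) t) := by
    intro z
    by_cases hz : ‖z‖ < 1
    · obtain ⟨φ, h0, hadd, hn, hd⟩ := exists_flow hh (r := (1 + ‖z‖) / 2)
        (by have := norm_nonneg z; linarith) (by linarith)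
      exact ⟨fun t => φ t z, fun _ => ⟨h0 z, fun t ht => hn z t ht,
        fun t ht => hd z (by linarith) t ht⟩⟩
    · exact ⟨fun _ => 0, fun h => absurd h hz⟩
  choose v hv using hex
  refine ⟨fun t z => v z t, ?_, ?_, ?_, ?_⟩
  · intro z hz
    exact (hv z (by simpa using hz)).1
  · intro t ht z hz
    exact (hv z (by simpa using hz)).2.1 t ht
  · intro s t hs ht z hz
    have hz1 : ‖z‖ < 1 := by simpa using hz
    obtain ⟨a1, a2, a3⟩ := hv z hz1
    have hw : ‖v z t‖ ≤ ‖z‖ := a2 t ht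
    have hw1 : ‖v z t‖ < 1 := hw.trans_lt hz1
    obtain ⟨b1, b2, b3⟩ := hv (v z t) hw1
    apply traj_unique hh (r := ‖z‖) hz1 (f := fun s => v z (s + t)) (g := fun s => v (v z t) s)
      _ _ _ _ _ hs
    · intro s hs
      have := (a3 (s + t) (by linarith)).comp_add_const s t
      exact this
    · intro s hs
      exact b3 s hs
    · intro s hs
      exact a2 _ (by linarith)
    · intro s hs
      exact (b2 s hs).trans hw
    · show v z (0 + t) = v (v z t) 0
      rw [zero_add, b1]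
  · intro t ht z hz
    exact (hv z (by simpa using hz)).2.2 t ht

end Pool.Agent.H840R2.LJ
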