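import Mathlib
import Pool.Agent.H840R2.LJI

set_option autoImplicit false

namespace Pool.Agent.H840R2.LJ

open Metric Set Filter Topology MeasureTheory Pool.Agent.Helper540

/-- The growth function. -/
noncomputable def Kf (z : E2) : ℝ := ‖z‖ / (1 - ‖z‖) ^ 2

theorem Kf_nonneg (z : E2) : 0 ≤ Kf z := by rw [Kf]; positivity

theorem Semi.growth {h : E2 → E2} (hh : Cara h) {v : ℝ → E2 → E2} (hv : Semi h v) {t : ℝ}
    (ht : 0 ≤ t) {z : E2} (hz : z ∈ ball (0 : E2) 1) : ‖v t z‖ ≤ Real.exp (-t) * Kf z := by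
  have hc : ∀ T, 0 ≤ T → ContinuousOn (fun s => h (v s z)) (Icc 0 T) := by
    intro T hT s hs
    have h1 : ContinuousAt h (v s z) := (hh.diff.differentiableAt
      (isOpen_ball.mem_nhds (hv.mapsTo hs.1 hz))).continuousAt
    have h2 : ContinuousAt (fun s => v s z) s := (hv.deriv s hs.1 z hz).continuousAt
    exact (ContinuousAt.comp (f := fun s => v s z) h1 h2).continuousWithinAt
  have hint : ∀ T, 0 ≤ T → IntervalIntegrable (fun s => h (v s z)) volume 0 T := by
    intro T hT
    apply ContinuousOn.intervalIntegrable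
    rw [uIcc_of_le hT]
    exact hc T hT
  have hsol : Sol (fun w _ => h w) z (fun s => v s z) := by
    refine ⟨fun s hs => by simpa using hv.mapsTo hs hz, fun T hT => hint T hT, fun T hT => ?_⟩
    have h1 := intervalIntegral.integral_eq_sub_of_hasDerivAt (a := 0) (b := T)
      (f := fun s => v s z) (f' := fun s => -(h (v s z)))
      (fun s hs => hv.deriv s (by rw [uIcc_of_le hT] at hs; exact hs.1) z hz) (hint T hT).neg
    rw [intervalIntegral.integral_neg, hv.start z hz] at h1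
    have h2 : v T z = z + (v T z - z) := by abel
    rw [h2, ← h1]
    abel
  have h1 := hsol.growth (fun _ => hh) ht
  have h2 : ‖v t z‖ < 1 := by simpa using hv.mapsTo ht hz
  have h3 : ‖v t z‖ ≤ ‖v t z‖ / (1 - ‖v t z‖) ^ 2 := by
    rw [le_div_iff₀ (by have : 0 < 1 - ‖v t z‖ := by linarith
                        positivity)]
    have h4 := norm_nonneg (v t z)
    have h5 : (1 - ‖v t z‖) ^ 2 ≤ 1 := by nlinarith
    nlinarith
  have h4 : Real.exp t * ‖v t z‖ ≤ Kf z := by
    rw [Kf]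
    exact (mul_le_mul_of_nonneg_left h3 (Real.exp_pos t).le).trans h1
  have h5 : Real.exp (-t) * Real.exp t = 1 := by rw [← Real.exp_add]; simp
  calc ‖v t z‖ = (Real.exp (-t) * Real.exp t) * ‖v t z‖ := by rw [h5, one_mul]
    _ = Real.exp (-t) * (Real.exp t * ‖v t z‖) := by ring
    _ ≤ _ := by gcongr

/-- Second order bound of `h` on smaller balls. -/
theorem cara_second {h : E2 → E2} (hh : Cara h) {r : ℝ} (hr : r < 1) :
    ∃ C : ℝ, 0 ≤ C ∧ ∀ z : E2, ‖z‖ ≤ r → ‖h z - z‖ ≤ C * ‖z‖ ^ 2 := by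
  obtain ⟨C, hC0, hC⟩ := exists_cara_bound (E := E2) hr
  refine ⟨800 + 16 * (C + 1), by positivity, fun z hz => ?_⟩
  by_cases h4 : ‖z‖ < 1 / 4
  · refine (hh.second_order h4).trans ?_
    have := sq_nonneg ‖z‖
    nlinarith
  · push Not at h4
    have h1 : ‖h z - z‖ ≤ C + 1 := by
      refine (norm_sub_le _ _).trans ?_
      have := hC h hh z hz
      linarith
    have h2 : 1 ≤ 16 * ‖z‖ ^ 2 := by nlinarith
    nlinarith

theorem Kf_le {z : E2} {r : ℝ} (hr : r < 1) (hz : ‖z‖ ≤ r) : Kf z ≤ r / (1 - r) ^ 2 := by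
  rw [Kf]
  have h0 := norm_nonneg z
  have h1 : 0 < 1 - r := by linarith
  have h2 : 1 - r ≤ 1 - ‖z‖ := by linarith
  have h3 : 0 ≤ r := h0.trans hz
  gcongr

/-- The rescaled trajectories converge quickly. -/
theorem Semi.cauchy {h : E2 → E2} (hh : Cara h) {v : ℝ → E2 → E2} (hv : Semi h v) {r : ℝ}
    (hr : r < 1) : ∃ C : ℝ, 0 ≤ C ∧ ∀ z : E2, ‖z‖ ≤ r → ∀ s t, 0 ≤ s → s ≤ t →
      ‖Real.exp t • v t z - Real.exp s • v s z‖ ≤ C * Kf z ^ 2 * (Real.exp (-s) - Real.exp (-t)) := by
  obtain ⟨C, hC0, hC⟩ := cara_second hh hr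
  refine ⟨C, hC0, fun z hz s t hs hst => ?_⟩
  have hzb : z ∈ ball (0 : E2) 1 := by rw [mem_ball_zero_iff]; exact hz.trans_lt hr
  have hd : ∀ x, 0 ≤ x → HasDerivAt (fun x => Real.exp x • v x z)
      (Real.exp x • (-(h (v x z))) + Real.exp x • v x z) x := by
    intro x hx
    exact (Real.hasDerivAt_exp x).smul (hv.deriv x hx z hzb)
  have key := image_norm_le_of_norm_deriv_right_le_deriv_boundary'
    (f := fun x => Real.exp x • v x z - Real.exp s • v s z)
    (f' := fun x => Real.exp x • (-(h (v x z))) + Real.exp x • v x z) (a := s) (b := t)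
    (B := fun x => C * Kf z ^ 2 * (Real.exp (-s) - Real.exp (-x)))
    (B' := fun x => C * Kf z ^ 2 * Real.exp (-x))
    (fun x hx => ((hd x (hs.trans hx.1)).sub_const _).continuousAt.continuousWithinAt)
    (fun x hx => ((hd x (hs.trans hx.1)).sub_const _).hasDerivWithinAt)
    (by simp)
    (by fun_prop)
    (fun x hx => by
      have h1 : HasDerivAt (fun x => Real.exp (-x)) (-Real.exp (-x)) x := by
        have := (hasDerivAt_neg x).exp
        simpa using this
      have h2 := (h1.const_sub (Real.exp (-s))).const_mul (C * Kf z ^ 2)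
      rw [neg_neg] at h2
      exact h2.hasDerivWithinAt)
    (fun x hx => by
      have hx0 : 0 ≤ x := hs.trans hx.1
      have e : Real.exp x • (-(h (v x z))) + Real.exp x • v x z =
          -(Real.exp x • (h (v x z) - v x z)) := by
        rw [smul_sub, smul_neg]; abel
      rw [e, norm_neg, norm_smul, Real.norm_of_nonneg (Real.exp_pos x).le]
      have h1 := hC (v x z) ((hv.norm_le x hx0 z hzb).trans hz)
      have h2 := hv.growth hh hx0 hzb
      have h3 := Kf_nonneg z
      have h4 : ‖v x z‖ ^ 2 ≤ (Real.exp (-x) * Kf z) ^ 2 := by gcongr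
      have h5 : Real.exp x * Real.exp (-x) = 1 := by rw [← Real.exp_add]; simp
      calc Real.exp x * ‖h (v x z) - v x z‖ ≤ Real.exp x * (C * ‖v x z‖ ^ 2) := by gcongr
        _ ≤ Real.exp x * (C * (Real.exp (-x) * Kf z) ^ 2) := by gcongr
        _ = C * Kf z ^ 2 * Real.exp (-x) * (Real.exp x * Real.exp (-x)) := by ring
        _ = _ := by rw [h5, mul_one])
  exact key ⟨hst, le_rfl⟩

/-- Properties of the linearizing map. -/
structure Lin (h : E2 → E2) (v : ℝ → E2 → E2) (F : E2 → E2) : Prop where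
  holo : DifferentiableOn ℂ F (ball 0 1)
  inj : InjOn F (ball 0 1)
  zero : F 0 = 0
  fder : fderiv ℂ F 0 = ContinuousLinearMap.id ℂ E2
  bound : ∀ z ∈ ball (0 : E2) 1, ‖F z‖ ≤ Kf z
  conj : ∀ t, 0 ≤ t → ∀ z ∈ ball (0 : E2) 1, F (v t z) = Real.exp (-t) • F z
  gen : ∀ z ∈ ball (0 : E2) 1, fderiv ℂ F z (h z) = F z

theorem exists_lin {h : E2 → E2} (hh : Cara h) {v : ℝ → E2 → E2} (hv : Semi h v) :
    ∃ F : E2 → E2, Lin h v F := by
  -- pointwise limit
  have hcau : ∀ z ∈ ball (0 : E2) 1, ∃ w : E2, Tendsto (fun t : ℝ => Real.exp t • v t z) atTop (𝓝 w) := by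
    intro z hz
    have hz1 : ‖z‖ < 1 := by simpa using hz
    obtain ⟨C, hC0, hC⟩ := hv.cauchy hh hz1
    apply cauchy_map_iff_exists_tendsto.1
    rw [Metric.cauchy_iff]
    refine ⟨map_neBot, fun ε hε => ?_⟩
    have hlim : Tendsto (fun s : ℝ => C * Kf z ^ 2 * Real.exp (-s)) atTop (𝓝 0) := by
      have := (Real.tendsto_exp_neg_atTop_nhds_zero).const_mul (C * Kf z ^ 2)
      simpa using this
    obtain ⟨s, hs0, hs⟩ := ((eventually_ge_atTop 0).and
      (hlim.eventually (gt_mem_nhds (half_pos hε)))).exists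
    refine ⟨(fun t : ℝ => Real.exp t • v t z) '' Ici s, image_mem_map (Ici_mem_atTop s), ?_⟩
    have hb : ∀ t, s ≤ t → ‖Real.exp t • v t z - Real.exp s • v s z‖ < ε / 2 := by
      intro t ht
      have h1 := hC z le_rfl s t hs0 ht
      have h2 : C * Kf z ^ 2 * (Real.exp (-s) - Real.exp (-t)) ≤ C * Kf z ^ 2 * Real.exp (-s) := by
        have := Real.exp_pos (-t)
        have h3 : 0 ≤ C * Kf z ^ 2 := by positivity
        nlinarith
      linarith
    rintro _ ⟨t, ht, rfl⟩ _ ⟨t', ht', rfl⟩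
    rw [dist_eq_norm]
    calc _ = ‖(Real.exp t • v t z - Real.exp s • v s z) - (Real.exp t' • v t' z - Real.exp s • v s z)‖ := by
          congr 1; abel
      _ ≤ _ := norm_sub_le _ _
      _ < ε := by
          have h1 := hb t ht
          have h2 := hb t' ht'
          linarith
  have hex : ∀ z : E2, ∃ w : E2, z ∈ ball (0 : E2) 1 →
      Tendsto (fun t : ℝ => Real.exp t • v t z) atTop (𝓝 w) := by
    intro z
    by_cases hz : z ∈ ball (0 : E2) 1
    · obtain ⟨w, hw⟩ := hcau z hz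
      exact ⟨w, fun _ => hw⟩
    · exact ⟨0, fun h => absurd h hz⟩
  choose F hF using hex
  -- quantitative convergence
  have hq : ∀ r : ℝ, r < 1 → ∃ C : ℝ, 0 ≤ C ∧ ∀ z : E2, ‖z‖ ≤ r → ∀ s, 0 ≤ s →
      ‖F z - Real.exp s • v s z‖ ≤ C * Kf z ^ 2 * Real.exp (-s) := by
    intro r hr
    obtain ⟨C, hC0, hC⟩ := hv.cauchy hh hr
    refine ⟨C, hC0, fun z hz s hs => ?_⟩
    have hzb : z ∈ ball (0 : E2) 1 := by rw [mem_ball_zero_iff]; exact hz.trans_lt hr
    have h1 : Tendsto (fun t : ℝ => ‖Real.exp t • v t z - Real.exp s • v s z‖) atTop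
        (𝓝 ‖F z - Real.exp s • v s z‖) := ((hF z hzb).sub_const _).norm
    apply le_of_tendsto h1
    filter_upwards [eventually_ge_atTop s] with t ht
    refine (hC z hz s t hs ht).trans ?_
    have := Real.exp_pos (-t)
    have h3 : 0 ≤ C * Kf z ^ 2 := by positivity
    nlinarith
  -- holomorphy
  have hholo : DifferentiableOn ℂ F (ball 0 1) := by
    intro z hz
    have hz1 : ‖z‖ < 1 := by simpa using hz
    set R := (1 - ‖z‖) / 2 with hR
    have hR0 : 0 < R := by simp only [hR]; linarith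
    have hsub : ∀ w ∈ ball z R, ‖w‖ ≤ (1 + ‖z‖) / 2 := by
      intro w hw
      rw [mem_ball, dist_eq_norm] at hw
      calc ‖w‖ = ‖z + (w - z)‖ := by simp
        _ ≤ ‖z‖ + ‖w - z‖ := norm_add_le _ _
        _ ≤ (1 + ‖z‖) / 2 := by simp only [hR] at hw; linarith
    have hr1 : (1 + ‖z‖) / 2 < 1 := by linarith
    obtain ⟨C, hC0, hC⟩ := hq _ hr1
    have hsub1 : ball z R ⊆ ball 0 1 := by
      intro w hw
      rw [mem_ball_zero_iff]
      exact (hsub w hw).trans_lt hr1
    set B := ((1 + ‖z‖) / 2) / (1 - (1 + ‖z‖) / 2) ^ 2 with hB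
    have hlim : TendstoUniformlyOn (fun n : ℕ => fun w => Real.exp (n : ℝ) • v (n : ℝ) w) F atTop
        (ball z R) := by
      rw [Metric.tendstoUniformlyOn_iff]
      intro ε hε
      have h1 : Tendsto (fun n : ℕ => C * B ^ 2 * Real.exp (-(n : ℝ))) atTop (𝓝 0) := by
        have := ((Real.tendsto_exp_neg_atTop_nhds_zero).comp
          tendsto_natCast_atTop_atTop).const_mul (C * B ^ 2)
        simpa using this
      filter_upwards [h1.eventually (gt_mem_nhds hε)] with n hn w hw
      rw [dist_eq_norm]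
      refine (hC w (hsub w hw) n (Nat.cast_nonneg n)).trans_lt (lt_of_le_of_lt ?_ hn)
      have h2 := Kf_le hr1 (hsub w hw)
      have h3 := Kf_nonneg w
      gcongr
    have h2 := differentiableOn_of_uniform_limit (fun n => by
      have e : (fun w => Real.exp (n : ℝ) • v (n : ℝ) w) =
          fun w => ((Real.exp (n : ℝ) : ℝ) : ℂ) • v (n : ℝ) w := by
        ext1 w
        rw [Complex.coe_smul]
      show DifferentiableOn ℂ (fun w => Real.exp (n : ℝ) • v (n : ℝ) w) (ball z R)
      rw [e]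
      have h3 : DifferentiableOn ℂ (v (n : ℝ)) (ball z R) :=
        (hv.holo hh (Nat.cast_nonneg n)).mono hsub1
      exact h3.const_smul ((Real.exp (n : ℝ) : ℝ) : ℂ)) hlim
    exact ((h2 z (mem_ball_self (by positivity))).differentiableAt
      (ball_mem_nhds _ (by positivity))).differentiableWithinAt
  have h0b : (0 : E2) ∈ ball (0 : E2) 1 := mem_ball_self one_pos
  have hv0 : ∀ t, 0 ≤ t → v t 0 = 0 := by
    intro t ht
    have := hv.norm_le t ht 0 h0b
    rw [norm_zero] at this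
    exact norm_le_zero_iff.1 this
  have hF0 : F 0 = 0 := by
    have h1 : Tendsto (fun t : ℝ => Real.exp t • v t 0) atTop (𝓝 0) := by
      apply tendsto_const_nhds.congr'
      filter_upwards [eventually_ge_atTop 0] with t ht
      rw [hv0 t ht, smul_zero]
    exact tendsto_nhds_unique (hF 0 h0b) h1
  have hF1 : fderiv ℂ F 0 = ContinuousLinearMap.id ℂ E2 := by
    obtain ⟨C, hC0, hC⟩ := hq (1 / 2) (by norm_num)
    apply HasFDerivAt.fderiv
    rw [hasFDerivAt_iff_isLittleO_nhds_zero]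
    have h1 : (fun z : E2 => F (0 + z) - F 0 - (ContinuousLinearMap.id ℂ E2) z) =O[𝓝 0]
        fun z : E2 => ‖z‖ ^ 2 := by
      apply Asymptotics.IsBigO.of_bound (C * 16)
      filter_upwards [ball_mem_nhds (0 : E2) (show (0 : ℝ) < 1 / 2 by norm_num)] with z hz
      have hz2 : ‖z‖ < 1 / 2 := by simpa using hz
      have hzb : z ∈ ball (0 : E2) 1 := by rw [mem_ball_zero_iff]; linarith
      have h2 := hC z hz2.le 0 le_rfl
      rw [hv.start z hzb, Real.exp_zero, neg_zero, Real.exp_zero, one_smul, mul_one] at h2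
      rw [zero_add, hF0, sub_zero, Real.norm_of_nonneg (sq_nonneg _)]
      refine h2.trans ?_
      have h3 : Kf z ≤ 4 * ‖z‖ := by
        rw [Kf, div_le_iff₀ (by have : 0 < 1 - ‖z‖ := by linarith
                                positivity)]
        have := norm_nonneg z
        have h4 : 1 / 4 ≤ (1 - ‖z‖) ^ 2 := by nlinarith
        nlinarith
      have h4 := Kf_nonneg z
      calc C * Kf z ^ 2 ≤ C * (4 * ‖z‖) ^ 2 := by gcongr
        _ = _ := by ring
    refine h1.trans_isLittleO ?_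
    have := Asymptotics.isLittleO_norm_pow_id (E' := E2) one_lt_two
    exact this
  have hconj : ∀ t, 0 ≤ t → ∀ z ∈ ball (0 : E2) 1, F (v t z) = Real.exp (-t) • F z := by
    intro t ht z hz
    have h1 : Tendsto (fun s : ℝ => Real.exp s • v s (v t z)) atTop (𝓝 (F (v t z))) :=
      hF _ (hv.mapsTo ht hz)
    have h2 : Tendsto (fun s : ℝ => Real.exp (-t) • (Real.exp (s + t) • v (s + t) z)) atTop
        (𝓝 (Real.exp (-t) • F z)) :=
      ((hF z hz).comp (tendsto_atTop_add_const_right _ t tendsto_id)).const_smul _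
    refine tendsto_nhds_unique h1 (h2.congr' ?_)
    filter_upwards [eventually_ge_atTop 0] with s hs
    rw [smul_smul, hv.add s t hs ht z hz]
    congr 1
    rw [← Real.exp_add]
    congr 1
    ring
  refine ⟨F, hholo, ?_, hF0, hF1, ?_, hconj, ?_⟩
  · -- injectivity
    intro z hz w hw hzw
    obtain ⟨δ, hδ, C, hC0, hδ1, hC⟩ := near_zero one_pos hholo hF0 hF1
    have hδ' : 0 < min δ (1 / (C + 1)) := by positivity
    have hlim : ∀ x ∈ ball (0 : E2) 1, ∀ᶠ t : ℝ in atTop, ‖v t x‖ < min δ (1 / (C + 1)) := by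
      intro x hx
      have h1 : Tendsto (fun t : ℝ => Real.exp (-t) * Kf x) atTop (𝓝 0) := by
        have := (Real.tendsto_exp_neg_atTop_nhds_zero).mul_const (Kf x)
        simpa using this
      filter_upwards [h1.eventually (gt_mem_nhds hδ'), eventually_ge_atTop 0] with t ht ht0
      exact (hv.growth hh ht0 hx).trans_lt ht
    obtain ⟨t, ⟨h1, h2⟩, ht⟩ := (((hlim z hz).and (hlim w hw)).and (eventually_ge_atTop 0)).exists
    have h3 : F (v t z) = F (v t w) := by rw [hconj t ht z hz, hconj t ht w hw, hzw]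
    have h4 := hC (v t z) (v t w) (h1.trans_le (min_le_left _ _)) (h2.trans_le (min_le_left _ _))
    rw [h3, sub_self, zero_sub, norm_neg] at h4
    have h5 : C * max ‖v t z‖ ‖v t w‖ < 1 := by
      have h6 : max ‖v t z‖ ‖v t w‖ < 1 / (C + 1) :=
        max_lt (h1.trans_le (min_le_right _ _)) (h2.trans_le (min_le_right _ _))
      rw [lt_div_iff₀ (by positivity)] at h6
      have h7 : 0 ≤ max ‖v t z‖ ‖v t w‖ := le_max_of_le_left (norm_nonneg _)
      nlinarith
    have h6 : v t z = v t w := by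
      by_contra hne
      have h7 : 0 < ‖v t z - v t w‖ := norm_pos_iff.2 (sub_ne_zero.2 hne)
      nlinarith
    exact hv.inj hh ht hz hw h6
  · -- bound
    intro z hz
    have h1 : Tendsto (fun t : ℝ => ‖Real.exp t • v t z‖) atTop (𝓝 ‖F z‖) := (hF z hz).norm
    apply le_of_tendsto h1
    filter_upwards [eventually_ge_atTop 0] with t ht
    rw [norm_smul, Real.norm_of_nonneg (Real.exp_pos t).le]
    have h2 := hv.growth hh ht hz
    have h5 : Real.exp t * Real.exp (-t) = 1 := by rw [← Real.exp_add]; simp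
    calc Real.exp t * ‖v t z‖ ≤ Real.exp t * (Real.exp (-t) * Kf z) := by gcongr
      _ = Kf z := by rw [← mul_assoc, h5, one_mul]
  · -- generator
    intro z hz
    have h1 : HasDerivAt (fun s => v s z) (-(h z)) 0 := by
      have := hv.deriv 0 le_rfl z hz
      rwa [hv.start z hz] at this
    have h2 : HasFDerivAt F (fderiv ℂ F z) (v 0 z) := by
      rw [hv.start z hz]
      exact (hholo.differentiableAt (isOpen_ball.mem_nhds hz)).hasFDerivAt
    have h3 : HasDerivAt (fun s => F (v s z)) ((fderiv ℂ F z).restrictScalars ℝ (-(h z))) 0 :=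
      (h2.restrictScalars ℝ).comp_hasDerivAt (0 : ℝ) h1
    have h4 : HasDerivAt (fun s : ℝ => Real.exp (-s) • F z) ((-1 : ℝ) • F z) 0 := by
      have h5 : HasDerivAt (fun x : ℝ => Real.exp (-x)) (-1) 0 := by
        have := (hasDerivAt_neg (0 : ℝ)).exp
        simpa using this
      exact h5.smul_const (F z)
    have h5 : (fderiv ℂ F z).restrictScalars ℝ (-(h z)) = (-1 : ℝ) • F z := by
      have h6 : HasDerivWithinAt (fun s => F (v s z)) ((-1 : ℝ) • F z) (Ici 0) 0 := by
        apply h4.hasDerivWithinAt.congr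
        · intro s hs
          exact hconj s hs z hz
        · exact hconj 0 le_rfl z hz
      exact UniqueDiffWithinAt.eq_deriv (Ici (0 : ℝ)) (uniqueDiffOn_Ici (0 : ℝ) 0 (mem_Ici.2 le_rfl))
        h3.hasDerivWithinAt h6
    rw [ContinuousLinearMap.coe_restrictScalars', map_neg, neg_smul, one_smul, neg_inj] at h5
    exact h5

/-- The differential of the semigroup maps the generator to itself. -/
theorem Semi.fderiv_gen {h : E2 → E2} (hh : Cara h) {v : ℝ → E2 → E2} (hv : Semi h v) {t : ℝ}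
    (ht : 0 ≤ t) {z : E2} (hz : z ∈ ball (0 : E2) 1) : fderiv ℂ (v t) z (h z) = h (v t z) := by
  have h1 : HasDerivAt (fun s => v s z) (-(h z)) 0 := by
    have := hv.deriv 0 le_rfl z hz
    rwa [hv.start z hz] at this
  have h2 : HasFDerivAt (v t) (fderiv ℂ (v t) z) (v 0 z) := by
    rw [hv.start z hz]
    exact ((hv.holo hh ht).differentiableAt (isOpen_ball.mem_nhds hz)).hasFDerivAt
  have h3 : HasDerivAt (fun s => v t (v s z)) ((fderiv ℂ (v t) z).restrictScalars ℝ (-(h z))) 0 :=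
    (h2.restrictScalars ℝ).comp_hasDerivAt (0 : ℝ) h1
  have h4 : HasDerivAt (fun s : ℝ => v s (v t z)) (-(h (v t z))) 0 := by
    have := hv.deriv 0 le_rfl _ (hv.mapsTo ht hz)
    rwa [hv.start _ (hv.mapsTo ht hz)] at this
  have h5 : (fderiv ℂ (v t) z).restrictScalars ℝ (-(h z)) = -(h (v t z)) := by
    have hs : ∀ s, 0 ≤ s → v t (v s z) = v s (v t z) := by
      intro s hs
      rw [← hv.add t s ht hs z hz, add_comm, hv.add s t hs ht z hz]
    have h6 : HasDerivWithinAt (fun s => v t (v s z)) (-(h (v t z))) (Ici 0) 0 := by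
      apply h4.hasDerivWithinAt.congr
      · intro s hs'
        exact hs s hs'
      · exact hs 0 le_rfl
    exact UniqueDiffWithinAt.eq_deriv (Ici (0 : ℝ)) (uniqueDiffOn_Ici (0 : ℝ) 0 (mem_Ici.2 le_rfl))
      h3.hasDerivWithinAt h6
  rw [ContinuousLinearMap.coe_restrictScalars', map_neg, neg_inj] at h5
  exact h5

/-- The differential at the origin. -/
theorem Semi.fderiv_zero {h : E2 → E2} (hh : Cara h) {v : ℝ → E2 → E2} (hv : Semi h v)
    {F : E2 → E2} (hF : Lin h v F) {t : ℝ} (ht : 0 ≤ t) :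
    fderiv ℂ (v t) 0 = ((Real.exp (-t) : ℝ) : ℂ) • ContinuousLinearMap.id ℂ E2 := by
  have h0b : (0 : E2) ∈ ball (0 : E2) 1 := mem_ball_self one_pos
  have hv0 : v t 0 = 0 := by
    have := hv.norm_le t ht 0 h0b
    rw [norm_zero] at this
    exact norm_le_zero_iff.1 this
  have h1 : HasFDerivAt (v t) (fderiv ℂ (v t) 0) 0 :=
    ((hv.holo hh ht).differentiableAt (isOpen_ball.mem_nhds h0b)).hasFDerivAt
  have h2 : HasFDerivAt F (ContinuousLinearMap.id ℂ E2) (v t 0) := by
    rw [hv0, ← hF.fder]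
    exact (hF.holo.differentiableAt (isOpen_ball.mem_nhds h0b)).hasFDerivAt
  have h3 : HasFDerivAt (fun z => F (v t z)) ((ContinuousLinearMap.id ℂ E2).comp (fderiv ℂ (v t) 0)) 0 :=
    h2.comp (0 : E2) h1
  have h4 : HasFDerivAt (fun z => ((Real.exp (-t) : ℝ) : ℂ) • F z)
      (((Real.exp (-t) : ℝ) : ℂ) • ContinuousLinearMap.id ℂ E2) 0 := by
    have : HasFDerivAt F (ContinuousLinearMap.id ℂ E2) 0 := by
      rw [← hF.fder]
      exact (hF.holo.differentiableAt (isOpen_ball.mem_nhds h0b)).hasFDerivAt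
    exact this.const_smul ((Real.exp (-t) : ℝ) : ℂ)
  have h5 : (fun z => F (v t z)) =ᶠ[𝓝 0] fun z => ((Real.exp (-t) : ℝ) : ℂ) • F z := by
    filter_upwards [isOpen_ball.mem_nhds h0b] with z hz
    rw [hF.conj t ht z hz, Complex.coe_smul]
  have h6 := (h4.congr_of_eventuallyEq h5).unique h3
  rw [ContinuousLinearMap.id_comp] at h6
  exact h6.symm

end Pool.Agent.H840R2.LJ
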