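import Mathlib
import Pool.Agent.H840R2.LJN
import Pool.Agent.H840R2.LJG
import Pool.Agent.Helper540.Ode

set_option autoImplicit false

namespace Pool.Agent.H840R2.LJ

open Metric Set Filter Topology MeasureTheory Pool.Agent.Helper540

theorem mono_ae {f f' : ℝ → ℝ} {a b : ℝ} (hab : a ≤ b)
    (hf : AbsolutelyContinuousOnInterval f a b)
    (h : ∀ᵐ x, x ∈ Ioo a b → HasDerivAt f (f' x) x ∧ 0 ≤ f' x) : f a ≤ f b := by
  have h1 := ac_le_of_deriv_nonpos (f := fun x => -f x) (f' := fun x => -f' x) hab hf.neg (by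
    filter_upwards [h] with x hx hxm
    obtain ⟨k1, k2⟩ := hx hxm
    exact ⟨k1.neg, by linarith⟩)
  linarith

theorem zero_ae {f f' : ℝ → ℝ} {a b : ℝ} (hab : a ≤ b)
    (hf : AbsolutelyContinuousOnInterval f a b)
    (h : ∀ᵐ x, x ∈ Ioo a b → HasDerivAt f (f' x) x ∧ 0 ≤ f' x) (hle : f b ≤ f a) :
    ∀ᵐ x, x ∈ Ioo a b → f' x = 0 := by
  have hconst : ∀ x ∈ Icc a b, f x = f a := by
    intro x hx
    have h1 : f a ≤ f x := by
      apply mono_ae (f' := f') hx.1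
      · apply hf.mono
        rw [uIcc_of_le hx.1, uIcc_of_le hab]
        exact Icc_subset_Icc le_rfl hx.2
      · filter_upwards [h] with y hy hym
        exact hy ⟨hym.1, hym.2.trans_le hx.2⟩
    have h2 : f x ≤ f b := by
      apply mono_ae (f' := f') hx.2
      · apply hf.mono
        rw [uIcc_of_le hx.2, uIcc_of_le hab]
        exact Icc_subset_Icc hx.1 le_rfl
      · filter_upwards [h] with y hy hym
        exact hy ⟨hx.1.trans_lt hym.1, hym.2⟩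
    linarith
  filter_upwards [h] with x hx hxm
  have h1 := (hx hxm).1
  have h2 : HasDerivAt f 0 x := by
    apply (hasDerivAt_const x (f a)).congr_of_eventuallyEq
    filter_upwards [Ioo_mem_nhds hxm.1 hxm.2] with y hy
    exact hconst y ⟨hy.1.le, hy.2.le⟩
  exact h1.unique h2

theorem B_eq {f : E2 → E2} (hf : DifferentiableOn ℂ f (ball 0 1)) :
    fderiv ℂ (fderiv ℂ f) 0 (pt 0 1) (pt 1 0) = mf f := by
  have hb : ball (0 : E2) 1 ∈ 𝓝 (0 : E2) := ball_mem_nhds _ one_pos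
  set B := fderiv ℂ (fderiv ℂ f) 0 with hB
  have hfd : DifferentiableAt ℂ (fderiv ℂ f) 0 := (fderiv_diffOn hf).differentiableAt hb
  have hsym : ∀ v w, B v w = B w v := by
    intro v w
    apply second_derivative_symmetric_of_eventually (𝕜 := ℂ) (f := f) (f' := fderiv ℂ f) (x := 0)
    · filter_upwards [hb] with z hz
      exact (hf.differentiableAt (isOpen_ball.mem_nhds hz)).hasFDerivAt
    · exact hfd.hasFDerivAt
  rw [hsym, mf]
  symm
  apply tc_one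
  have h1 : HasDerivAt (fun ζ : ℂ => pt ζ 0) (pt 1 0) 0 :=
    hasDerivAt_pt (hasDerivAt_id 0) (hasDerivAt_const 0 0)
  have h2 : HasFDerivAt (fderiv ℂ f) B (pt 0 0) := by
    rw [pt_zero_zero]; exact hfd.hasFDerivAt
  have h3 : HasDerivAt (fun ζ : ℂ => fderiv ℂ f (pt ζ 0)) (B (pt 1 0)) 0 :=
    HasFDerivAt.comp_hasDerivAt (f := fun ζ : ℂ => pt ζ 0) (0 : ℂ) h2 h1
  exact h3.clm_apply (hasDerivAt_const (0 : ℂ) (pt 0 1)) |>.congr_deriv (by simp)

/-- The chain `F` is generated by `H` at time `t`. -/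
def GenAt (F : ℝ → E2 → E2) (h : E2 → E2) (t : ℝ) : Prop :=
  ∀ z ∈ ball (0 : E2) 1, HasDerivAt (fun s => F s z) (fderiv ℂ (F t) z (h z)) t

theorem qf_ode {F : ℝ → E2 → E2} (hF : LC F) {h : E2 → E2} (hh : Cara h) {t : ℝ} (ht : 0 < t)
    (hg : GenAt F h t) {u : E2} (hu : ‖u‖ ≤ 1) :
    HasDerivAt (fun s => qf (F s) u)
      ((2 : ℂ) • qf (F t) u + ((Real.exp t : ℝ) : ℂ) • qf h u) t := by
  have h1 := tc_hasDerivAt hF ht (gen_diff (hF.holo t ht.le) hh.diff) hg hu 2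
  have h2 := (tc_gen (hF.holo t ht.le) hh (hF.deriv t ht.le) hu).1
  rw [h2] at h1
  exact h1

theorem mf_ode {F : ℝ → E2 → E2} (hF : LC F) {h : E2 → E2} (hh : Cara h) {t : ℝ} (ht : 0 < t)
    (hg : GenAt F h t) :
    HasDerivAt (fun s => mf (F s))
      ((2 : ℂ) • mf (F t) + ((Real.exp t : ℝ) : ℂ) • mf h) t := by
  have h1 := qf_ode hF hh ht hg norm_pt_half
  have h2 := qf_ode hF hh ht hg norm_pt_one_zero.le
  have h3 := qf_ode hF hh ht hg norm_pt_zero_one.le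
  have h4 := ((h1.const_smul (4 : ℂ)).sub h2).sub h3
  have h5 := h4.congr_of_eventuallyEq (f₁ := fun s => mf (F s)) (by
    filter_upwards [lt_mem_nhds ht] with s hs
    exact mf_eq (hF.holo s (le_of_lt hs)))
  refine h5.congr_deriv ?_
  rw [mf_eq (hF.holo t ht.le), mf_eq hh.diff]
  module

theorem tc3_ode {F : ℝ → E2 → E2} (hF : LC F) {h : E2 → E2} (hh : Face h) {t : ℝ} (ht : 0 < t)
    (hg : GenAt F h t) :
    HasDerivAt (fun s => tc 3 (fun ζ : ℂ => F s (ζ • pt 0 1)))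
      ((3 : ℂ) • tc 3 (fun ζ : ℂ => F t (ζ • pt 0 1)) +
        (((-(3 * Real.sqrt 3 / 2) : ℝ) : ℂ) • mf (F t) +
          ((Real.exp t : ℝ) : ℂ) • tc 3 (fun ζ : ℂ => h (ζ • pt 0 1)))) t := by
  have h1 := tc_hasDerivAt hF ht (gen_diff (hF.holo t ht.le) hh.cara.diff) hg
    norm_pt_zero_one.le 3
  have h2 := (tc_gen (hF.holo t ht.le) hh.cara (hF.deriv t ht.le) norm_pt_zero_one.le).2
  rw [h2] at h1
  have h3 : tc 2 (fun ζ : ℂ => h (ζ • pt 0 1)) = ((-(3 * Real.sqrt 3 / 2) : ℝ) : ℂ) • pt 1 0 := by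
    have e0 := aco_two_eq hh.cara.diff 0
    have e1 := aco_two_eq hh.cara.diff 1
    rw [hh.q] at e0
    rw [face_one hh.cara hh.q] at e1
    have e2 : tc 2 (fun ζ : ℂ => h (ζ • pt 0 1)) = qf h (pt 0 1) := rfl
    rw [e2, ← pt_eta (qf h (pt 0 1)), ← e0, ← e1, smul_pt, mul_one, mul_zero]
  rw [h3, map_smul, B_eq (hF.holo t ht.le)] at h1
  exact h1

/-! ### Real coefficient functions -/

/-- `Re a`. -/
noncomputable def ar (F : ℝ → E2 → E2) (t : ℝ) : ℝ := ((qf (F t) (pt 0 1)) 0).re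

/-- `Re Y`. -/
noncomputable def yr (F : ℝ → E2 → E2) (t : ℝ) : ℝ := ((mf (F t)) 1).re

/-- `Re Γ`. -/
noncomputable def gr (F : ℝ → E2 → E2) (t : ℝ) : ℝ :=
  ((tc 3 (fun ζ : ℂ => F t (ζ • pt 0 1))) 1).re

theorem hasDerivAt_re_co {f : ℝ → E2} {f' : E2} {t : ℝ} (hf : HasDerivAt f f' t) (i : Fin 2) :
    HasDerivAt (fun s => ((f s) i).re) ((f' i).re) t := by
  have h1 : HasDerivAt (fun s => co i (f s)) (co i f') t :=
    ((co i).restrictScalars ℝ).hasFDerivAt.comp_hasDerivAt t hf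
  exact Complex.reCLM.hasFDerivAt.comp_hasDerivAt t h1

theorem ar_ode {F : ℝ → E2 → E2} (hF : LC F) {h : E2 → E2} (hh : Cara h) {t : ℝ} (ht : 0 < t)
    (hg : GenAt F h t) :
    HasDerivAt (ar F) (2 * ar F t + Real.exp t * (aco (cmp h 0) 2).re) t := by
  have h1 := hasDerivAt_re_co (qf_ode hF hh ht hg norm_pt_zero_one.le) 0
  refine HasDerivAt.congr_deriv (f := ar F) h1 ?_
  rw [aco_two_eq hh.diff]
  have e : ((2 : ℂ) • qf (F t) (pt 0 1) + ((Real.exp t : ℝ) : ℂ) • qf h (pt 0 1)) 0 =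
      ((2 : ℝ) : ℂ) * (qf (F t) (pt 0 1)) 0 + ((Real.exp t : ℝ) : ℂ) * (qf h (pt 0 1)) 0 := by
    simp [smul_eq_mul]
  rw [e, Complex.add_re, Complex.re_ofReal_mul, Complex.re_ofReal_mul]
  rfl

theorem yr_ode {F : ℝ → E2 → E2} (hF : LC F) {h : E2 → E2} (hh : Cara h) {t : ℝ} (ht : 0 < t)
    (hg : GenAt F h t) :
    HasDerivAt (yr F) (2 * yr F t + Real.exp t * (yc h).re) t := by
  have h1 := hasDerivAt_re_co (mf_ode hF hh ht hg) 1
  refine HasDerivAt.congr_deriv (f := yr F) h1 ?_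
  rw [yc, bco_one_eq hh.diff]
  have e : ((2 : ℂ) • mf (F t) + ((Real.exp t : ℝ) : ℂ) • mf h) 1 =
      ((2 : ℝ) : ℂ) * (mf (F t)) 1 + ((Real.exp t : ℝ) : ℂ) * (mf h) 1 := by
    simp [smul_eq_mul]
  rw [e, Complex.add_re, Complex.re_ofReal_mul, Complex.re_ofReal_mul]
  rfl

theorem gr_ode {F : ℝ → E2 → E2} (hF : LC F) {h : E2 → E2} (hh : Face h) {t : ℝ} (ht : 0 < t)
    (hg : GenAt F h t) :
    HasDerivAt (gr F) (3 * gr F t - 3 * Real.sqrt 3 / 2 * yr F t -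
      Real.sqrt 3 / 2 * Real.exp t * (yc h).re) t := by
  have h1 := hasDerivAt_re_co (tc3_ode hF hh ht hg) 1
  refine HasDerivAt.congr_deriv (f := gr F) h1 ?_
  have hγ : (tc 3 (fun ζ : ℂ => h (ζ • pt 0 1))) 1 = aco (cmp h 1) 3 := by
    rw [aco]
    have e1 : (fun ζ : ℂ => cmp h 1 (pt 0 ζ)) = fun ζ : ℂ => co 1 (h (ζ • pt 0 1)) := by
      ext1 ζ
      rw [smul_pt]
      simp [cmp]
    rw [e1, tc_clm (co 1) 3 (contDiffAt_of_ball one_pos
      (slice_diff hh.cara.diff norm_pt_zero_one.le) 3)]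
    rfl
  have hface := face_two hh.cara hh.q
  have e : ((3 : ℂ) • tc 3 (fun ζ : ℂ => F t (ζ • pt 0 1)) +
        (((-(3 * Real.sqrt 3 / 2) : ℝ) : ℂ) • mf (F t) +
          ((Real.exp t : ℝ) : ℂ) • tc 3 (fun ζ : ℂ => h (ζ • pt 0 1)))) 1 =
      ((3 : ℝ) : ℂ) * (tc 3 (fun ζ : ℂ => F t (ζ • pt 0 1))) 1 +
        (((-(3 * Real.sqrt 3 / 2) : ℝ) : ℂ) * (mf (F t)) 1 +
          ((Real.exp t * (-(Real.sqrt 3 / 2)) : ℝ) : ℂ) * yc h) := by
    have e2 : ((3 : ℂ) • tc 3 (fun ζ : ℂ => F t (ζ • pt 0 1)) +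
        (((-(3 * Real.sqrt 3 / 2) : ℝ) : ℂ) • mf (F t) +
          ((Real.exp t : ℝ) : ℂ) • tc 3 (fun ζ : ℂ => h (ζ • pt 0 1)))) 1 =
      (3 : ℂ) * (tc 3 (fun ζ : ℂ => F t (ζ • pt 0 1))) 1 +
        (((-(3 * Real.sqrt 3 / 2) : ℝ) : ℂ) * (mf (F t)) 1 +
          ((Real.exp t : ℝ) : ℂ) * (tc 3 (fun ζ : ℂ => h (ζ • pt 0 1))) 1) := rfl
    rw [e2, hγ, hface, yc]
    push_cast
    ring
  rw [e, Complex.add_re, Complex.add_re, Complex.re_ofReal_mul, Complex.re_ofReal_mul,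
    Complex.re_ofReal_mul, gr, yr]
  ring

/-! ### Lipschitz bounds and growth -/

theorem re_co_sub (x y : E2) (i : Fin 2) : |(x i).re - (y i).re| ≤ ‖x - y‖ := by
  have h1 : (x i).re - (y i).re = ((x - y) i).re := by simp
  rw [h1]
  exact (Complex.abs_re_le_norm _).trans (norm_apply_le_two _ _)

theorem tcn_lip {F : ℝ → E2 → E2} (hF : LC F) {u : E2} (hu : ‖u‖ ≤ 1) (n : ℕ) {T : ℝ}  :
    ∃ K : ℝ, 0 ≤ K ∧ ∀ s t, 0 ≤ s → s ≤ t → t ≤ T →
      ‖tc n (fun ζ : ℂ => F t (ζ • u)) - tc n (fun ζ : ℂ => F s (ζ • u))‖ ≤ K * (t - s) := by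
  obtain ⟨K, hK0, hK⟩ := hF.lip (r := 1 / 2) (by norm_num) T
  refine ⟨2 ^ n * K, by positivity, fun s t hs hst htT => ?_⟩
  have ht : 0 ≤ t := hs.trans hst
  have h1 := norm_tcn_le (f := fun z => F t z - F s z) ((hF.holo t ht).sub (hF.holo s hs)) hu
    (C := K * (t - s)) (fun z hz => hK s t hs hst htT z hz) n
  have h2 := tc_sub n (contDiffAt_of_ball one_pos (slice_diff (hF.holo t ht) hu) n)
    (contDiffAt_of_ball one_pos (slice_diff (hF.holo s hs) hu) n)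
  rw [h2] at h1
  calc _ ≤ _ := h1
    _ = _ := by ring

theorem lip_ac {f : ℝ → ℝ} {T K : ℝ} (hK : 0 ≤ K)
    (h : ∀ s t, 0 ≤ s → s ≤ t → t ≤ T → |f t - f s| ≤ K * (t - s)) {a b : ℝ} (ha : 0 ≤ a)
    (hab : a ≤ b) (hb : b ≤ T) : AbsolutelyContinuousOnInterval f a b := by
  apply LipschitzOnWith.absolutelyContinuousOnInterval (K := K.toNNReal)
  rw [uIcc_of_le hab, lipschitzOnWith_iff_norm_sub_le]
  intro x hx y hy
  rw [Real.coe_toNNReal _ hK, Real.norm_eq_abs, Real.norm_eq_abs]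
  rcases le_total x y with hxy | hxy
  · rw [abs_sub_comm, abs_sub_comm x y, abs_of_nonneg (by linarith : 0 ≤ y - x)]
    exact h x y (ha.trans hx.1) hxy (hy.2.trans hb)
  · rw [abs_of_nonneg (by linarith : 0 ≤ x - y)]
    exact h y x (ha.trans hy.1) hxy (hx.2.trans hb)

theorem ar_ac {F : ℝ → E2 → E2} (hF : LC F) {a b : ℝ} (ha : 0 ≤ a) (hab : a ≤ b) :
    AbsolutelyContinuousOnInterval (ar F) a b := by
  obtain ⟨K, hK0, hK⟩ := tcn_lip hF norm_pt_zero_one.le 2 (T := b)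
  exact lip_ac hK0 (fun s t hs hst ht => (re_co_sub _ _ 0).trans (hK s t hs hst ht)) ha hab le_rfl

theorem gr_ac {F : ℝ → E2 → E2} (hF : LC F) {a b : ℝ} (ha : 0 ≤ a) (hab : a ≤ b) :
    AbsolutelyContinuousOnInterval (gr F) a b := by
  obtain ⟨K, hK0, hK⟩ := tcn_lip hF norm_pt_zero_one.le 3 (T := b)
  exact lip_ac hK0 (fun s t hs hst ht => (re_co_sub _ _ 1).trans (hK s t hs hst ht)) ha hab le_rfl

theorem yr_ac {F : ℝ → E2 → E2} (hF : LC F) {a b : ℝ} (ha : 0 ≤ a) (hab : a ≤ b) :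
    AbsolutelyContinuousOnInterval (yr F) a b := by
  obtain ⟨K, hK0, hK⟩ := hF.lip (r := 1 / 2) (by norm_num) b
  refine lip_ac (K := 24 * K) (by positivity) (fun s t hs hst ht => ?_) ha hab le_rfl
  refine (re_co_sub _ _ 1).trans ?_
  have h1 := mf_close (hF.holo t (hs.trans hst)) (hF.holo s hs) (C := K * (t - s))
    (fun z hz => hK s t hs hst ht z hz)
  calc _ ≤ _ := h1
    _ = _ := by ring

theorem coef_growth {F : ℝ → E2 → E2} (hF : LC F) : ∃ M : ℝ, 0 ≤ M ∧ ∀ t, 0 ≤ t →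
    |ar F t| ≤ M * Real.exp t ∧ |yr F t| ≤ M * Real.exp t ∧ |gr F t| ≤ M * Real.exp t := by
  obtain ⟨M, hM⟩ := hF.bdd (1 / 2) (by norm_num)
  refine ⟨24 * |M|, by positivity, fun t ht => ?_⟩
  have hb : ∀ z : E2, ‖z‖ ≤ 1 / 2 → ‖F t z‖ ≤ |M| * Real.exp t := fun z hz =>
    (hM t ht z hz).trans (by gcongr; exact le_abs_self M)
  have hpos : 0 ≤ |M| * Real.exp t := by positivity
  have hre : ∀ (x : E2) (i : Fin 2), |(x i).re| ≤ ‖x‖ := fun x i =>
    (Complex.abs_re_le_norm _).trans (norm_apply_le_two _ _)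
  refine ⟨?_, ?_, ?_⟩
  · have h1 := norm_tcn_le (hF.holo t ht) norm_pt_zero_one.le hb 2
    refine (hre _ 0).trans (h1.trans ?_)
    nlinarith
  · have h1 := mf_close (hF.holo t ht) (g := fun _ => 0) (differentiableOn_const 0)
      (C := |M| * Real.exp t) (fun z hz => by rw [sub_zero]; exact hb z hz)
    have h2 : mf (fun _ : E2 => (0 : E2)) = 0 := by
      have hq : ∀ u : E2, qf (fun _ : E2 => (0 : E2)) u = 0 := by
        intro u
        rw [qf]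
        have := tc_pow_smul 2 0 (0 : E2)
        simp only [smul_zero, ite_self] at this
        exact this
      rw [mf_eq (differentiableOn_const 0), hq, hq, hq]
      simp
    rw [h2, sub_zero] at h1
    refine (hre _ 1).trans (h1.trans ?_)
    nlinarith
  · have h1 := norm_tcn_le (hF.holo t ht) norm_pt_zero_one.le hb 3
    refine (hre _ 1).trans (h1.trans ?_)
    nlinarith

end Pool.Agent.H840R2.LJ
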