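import Mathlib
import Pool.Agent.H840R2.LJP
import Pool.Agent.H840R2.LJL

set_option autoImplicit false

namespace Pool.Agent.H840R2.LJ

open Metric Set Filter Topology MeasureTheory Pool.Agent.Helper540

/-- The level two function. -/
noncomputable def Wf (F : ℝ → E2 → E2) (t : ℝ) : ℝ :=
  Real.exp (-3 * t) * gr F t - 3 * Real.sqrt 3 / 2 * (Real.exp (-3 * t) * yr F t) +
    Real.sqrt 3 * (Real.exp (-2 * t) * yr F t)

theorem Wf_ac {F : ℝ → E2 → E2} (hF : LC F) {a b : ℝ} (ha : 0 ≤ a) (hab : a ≤ b) :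
    AbsolutelyContinuousOnInterval (Wf F) a b :=
  (((exp_ac (-3) a b).mul (gr_ac hF ha hab)).sub
    (((exp_ac (-3) a b).mul (yr_ac hF ha hab)).const_mul _)).add
    (((exp_ac (-2) a b).mul (yr_ac hF ha hab)).const_mul _)

theorem Wf_lim {F : ℝ → E2 → E2} (hF : LC F) : Tendsto (Wf F) atTop (𝓝 0) := by
  obtain ⟨M, hM0, hM⟩ := coef_growth hF
  have h1 := tendsto_of_growth (g := gr F) (c := -3) (fun t ht => (hM t ht).2.2) (by norm_num)
  have h2 := tendsto_of_growth (g := yr F) (c := -3) (fun t ht => (hM t ht).2.1) (by norm_num)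
  have h3 := tendsto_of_growth (g := yr F) (c := -2) (fun t ht => (hM t ht).2.1) (by norm_num)
  have h4 := (h1.sub (h2.const_mul (3 * Real.sqrt 3 / 2))).add (h3.const_mul (Real.sqrt 3))
  rw [mul_zero, mul_zero, sub_zero, add_zero] at h4
  exact h4

theorem Wf_ode {F : ℝ → E2 → E2} (hF : LC F) {h : E2 → E2} (hh : Face h) {t : ℝ} (ht : 0 < t)
    (hg : GenAt F h t) : HasDerivAt (Wf F)
      (-(2 * Real.sqrt 3 * (Real.exp (-1 * t) * (Real.exp (-1 * t) - 1 / 2)) * (yc h).re)) t := by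
  have hy := yr_ode hF hh.cara ht hg
  have hgr := gr_ode hF hh ht hg
  have h1 := ((((hasDerivAt_exp_mul (-3) t).mul hgr)).sub
    (((hasDerivAt_exp_mul (-3) t).mul hy).const_mul (3 * Real.sqrt 3 / 2))).add
    (((hasDerivAt_exp_mul (-2) t).mul hy).const_mul (Real.sqrt 3))
  refine HasDerivAt.congr_deriv (f := Wf F) h1 ?_
  have e1 : Real.exp (-2 * t) * Real.exp t = Real.exp (-1 * t) := by
    rw [← Real.exp_add]; congr 1; ring
  have e2 : Real.exp (-3 * t) * Real.exp t = Real.exp (-1 * t) * Real.exp (-1 * t) := by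
    rw [← Real.exp_add, ← Real.exp_add]; congr 1; ring
  linear_combination (-(Real.sqrt 3 / 2) * (yc h).re - 3 * Real.sqrt 3 / 2 * (yc h).re) * e2 +
    Real.sqrt 3 * (yc h).re * e1

theorem sq_ode (t : ℝ) : HasDerivAt (fun t => (Real.exp (-1 * t) - 1 / 2) ^ 2)
    (-(2 * (Real.exp (-1 * t) * (Real.exp (-1 * t) - 1 / 2)))) t := by
  have h1 := ((hasDerivAt_exp_mul (-1) t).sub_const (1 / 2)).pow 2
  refine h1.congr_deriv ?_
  push_cast
  ring

theorem sq_ac (a b : ℝ) :
    AbsolutelyContinuousOnInterval (fun t => (Real.exp (-1 * t) - 1 / 2) ^ 2) a b := by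
  apply ContDiffOn.absolutelyContinuousOnInterval
  fun_prop

theorem sq_lim : Tendsto (fun t => (Real.exp (-1 * t) - 1 / 2) ^ 2) atTop (𝓝 (1 / 4)) := by
  have h1 := ((tendsto_exp_mul (c := -1) (by norm_num)).sub_const (1 / 2)).pow 2
  have e : ((0 : ℝ) - 1 / 2) ^ 2 = 1 / 4 := by norm_num
  rw [e] at h1
  exact h1

theorem exp_T : Real.exp (-1 * Real.log 2) = 1 / 2 := by
  rw [neg_one_mul, Real.exp_neg, Real.exp_log (by norm_num)]
  norm_num

theorem exp_gt {t : ℝ} (ht : t < Real.log 2) : 1 / 2 < Real.exp (-1 * t) := by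
  rw [← exp_T]
  apply Real.exp_lt_exp.2
  linarith

theorem exp_lt {t : ℝ} (ht : Real.log 2 < t) : Real.exp (-1 * t) < 1 / 2 := by
  rw [← exp_T]
  apply Real.exp_lt_exp.2
  linarith

theorem logT : 0 < Real.log 2 := Real.log_pos (by norm_num)

/-- The two pieces of the level two argument. -/
theorem level_two {F : ℝ → E2 → E2} (hF : LC F) {H : ℝ → E2 → E2}
    (hgen : ∀ᵐ t, 0 < t → Face (H t) ∧ GenAt F (H t) t) {M : ℝ}
    (hM : ∀ h, Face h → (yc h).re ≤ M ∧ -M ≤ (yc h).re) (h0 : Real.sqrt 3 / 2 * M ≤ Wf F 0) :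
    ∀ᵐ t, (0 < t → t < Real.log 2 → (yc (H t)).re = M) ∧
      (Real.log 2 < t → (yc (H t)).re = -M) := by
  have hT := logT
  have hs : 0 < Real.sqrt 3 := Real.sqrt_pos.2 (by norm_num)
  -- after the switching time
  have d2 : ∀ᵐ t, Real.log 2 < t → HasDerivAt
      (fun t => Wf F t + Real.sqrt 3 * M * (Real.exp (-1 * t) - 1 / 2) ^ 2)
      (2 * Real.sqrt 3 * (Real.exp (-1 * t) * (1 / 2 - Real.exp (-1 * t))) *
        (M + (yc (H t)).re)) t ∧
      0 ≤ 2 * Real.sqrt 3 * (Real.exp (-1 * t) * (1 / 2 - Real.exp (-1 * t))) *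
        (M + (yc (H t)).re) := by
    filter_upwards [hgen] with t ht ht0
    obtain ⟨k1, k2⟩ := ht (hT.trans ht0)
    constructor
    · refine ((Wf_ode hF k1 (hT.trans ht0) k2).add
        ((sq_ode t).const_mul (Real.sqrt 3 * M))).congr_deriv ?_
      ring
    · have h1 := exp_lt ht0
      have h2 := (hM _ k1).2
      have h3 := Real.exp_pos (-1 * t)
      have h4 : 0 ≤ 1 / 2 - Real.exp (-1 * t) := by linarith
      have h5 : 0 ≤ M + (yc (H t)).re := by linarith
      positivity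
  have ac2 : ∀ b, Real.log 2 ≤ b → AbsolutelyContinuousOnInterval
      (fun t => Wf F t + Real.sqrt 3 * M * (Real.exp (-1 * t) - 1 / 2) ^ 2) (Real.log 2) b :=
    fun b hb => (Wf_ac hF hT.le hb).add ((sq_ac _ _).const_mul _)
  have lim2 : Tendsto (fun t => Wf F t + Real.sqrt 3 * M * (Real.exp (-1 * t) - 1 / 2) ^ 2) atTop
      (𝓝 (Real.sqrt 3 * M / 4)) := by
    have := (Wf_lim hF).add (sq_lim.const_mul (Real.sqrt 3 * M))
    rw [zero_add] at this
    convert this using 2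
    ring
  have b2 := mono_lim ac2 d2 lim2 _ le_rfl
  rw [exp_T, sub_self, zero_pow two_ne_zero, mul_zero, add_zero] at b2
  -- before the switching time
  have d1 : ∀ᵐ t, t ∈ Ioo 0 (Real.log 2) → HasDerivAt
      (fun t => Wf F t - Real.sqrt 3 * M * (Real.exp (-1 * t) - 1 / 2) ^ 2)
      (2 * Real.sqrt 3 * (Real.exp (-1 * t) * (Real.exp (-1 * t) - 1 / 2)) *
        (M - (yc (H t)).re)) t ∧
      0 ≤ 2 * Real.sqrt 3 * (Real.exp (-1 * t) * (Real.exp (-1 * t) - 1 / 2)) *
        (M - (yc (H t)).re) := by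
    filter_upwards [hgen] with t ht ht0
    obtain ⟨k1, k2⟩ := ht ht0.1
    constructor
    · refine ((Wf_ode hF k1 ht0.1 k2).sub
        ((sq_ode t).const_mul (Real.sqrt 3 * M))).congr_deriv ?_
      ring
    · have h1 := exp_gt ht0.2
      have h2 := (hM _ k1).1
      have h3 := Real.exp_pos (-1 * t)
      have h4 : 0 ≤ Real.exp (-1 * t) - 1 / 2 := by linarith
      have h5 : 0 ≤ M - (yc (H t)).re := by linarith
      positivity
  have ac1 : AbsolutelyContinuousOnInterval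
      (fun t => Wf F t - Real.sqrt 3 * M * (Real.exp (-1 * t) - 1 / 2) ^ 2) 0 (Real.log 2) :=
    (Wf_ac hF le_rfl hT.le).sub ((sq_ac _ _).const_mul _)
  have b1 := mono_ae hT.le ac1 d1
  simp only [mul_zero, Real.exp_zero] at b1
  rw [exp_T, sub_self, zero_pow two_ne_zero, mul_zero, sub_zero] at b1
  -- equality
  have e1 : Wf F 0 - Real.sqrt 3 * M * (1 - 1 / 2) ^ 2 = Wf F 0 - Real.sqrt 3 * M / 4 := by ring
  rw [e1] at b1
  have hWT : Wf F (Real.log 2) = Real.sqrt 3 * M / 4 := by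
    apply le_antisymm b2
    linarith
  have z2 := zero_lim ac2 d2 lim2 (by
    rw [exp_T, sub_self, zero_pow two_ne_zero, mul_zero, add_zero, hWT])
  have z1 := zero_ae hT.le ac1 d1 (by
    simp only [mul_zero, Real.exp_zero]
    rw [exp_T, sub_self, zero_pow two_ne_zero, mul_zero, sub_zero, hWT, e1]
    linarith)
  filter_upwards [z1, z2] with t k1 k2
  constructor
  · intro ht0 htT
    have h1 := k1 ⟨ht0, htT⟩
    have h2 := exp_gt htT
    have h3 := Real.exp_pos (-1 * t)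
    have h4 : 2 * Real.sqrt 3 * (Real.exp (-1 * t) * (Real.exp (-1 * t) - 1 / 2)) ≠ 0 := by
      have : 0 < Real.exp (-1 * t) - 1 / 2 := by linarith
      positivity
    have h5 := (mul_eq_zero.1 h1).resolve_left h4
    linarith
  · intro ht
    have h1 := k2 ht
    have h2 := exp_lt ht
    have h3 := Real.exp_pos (-1 * t)
    have h4 : 2 * Real.sqrt 3 * (Real.exp (-1 * t) * (1 / 2 - Real.exp (-1 * t))) ≠ 0 := by
      have : 0 < 1 / 2 - Real.exp (-1 * t) := by linarith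
      positivity
    have h5 := (mul_eq_zero.1 h1).resolve_left h4
    linarith

/-- The value of the level two functional on the switching chain. -/
theorem level_two_ge {F : ℝ → E2 → E2} (hF : LC F) {hp hm : E2 → E2} {M : ℝ}
    (fp : Face hp) (fm : Face hm) (yp : (yc hp).re = M) (ym : (yc hm).re = -M)
    (g1 : ∀ t, 0 < t → t < Real.log 2 → GenAt F hp t)
    (g2 : ∀ t, Real.log 2 < t → GenAt F hm t) : Real.sqrt 3 / 2 * M ≤ Wf F 0 := by
  have hT := logT
  have d2 : ∀ t, Real.log 2 < t → HasDerivAt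
      (fun t => -(Wf F t + Real.sqrt 3 * M * (Real.exp (-1 * t) - 1 / 2) ^ 2)) 0 t := by
    intro t ht
    have := ((Wf_ode hF fm (hT.trans ht) (g2 t ht)).add
        ((sq_ode t).const_mul (Real.sqrt 3 * M))).neg
    refine this.congr_deriv ?_
    rw [ym]
    ring
  have ac2 : ∀ b, Real.log 2 ≤ b → AbsolutelyContinuousOnInterval
      (fun t => -(Wf F t + Real.sqrt 3 * M * (Real.exp (-1 * t) - 1 / 2) ^ 2)) (Real.log 2) b :=
    fun b hb => ((Wf_ac hF hT.le hb).add ((sq_ac _ _).const_mul _)).neg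
  have lim2 : Tendsto (fun t => -(Wf F t + Real.sqrt 3 * M * (Real.exp (-1 * t) - 1 / 2) ^ 2)) atTop
      (𝓝 (-(Real.sqrt 3 * M / 4))) := by
    have := ((Wf_lim hF).add (sq_lim.const_mul (Real.sqrt 3 * M))).neg
    rw [zero_add] at this
    convert this using 2
    ring
  have b2 := mono_lim (f' := fun _ => 0) ac2 (Eventually.of_forall fun t ht => ⟨d2 t ht, le_rfl⟩)
    lim2 _ le_rfl
  rw [exp_T, sub_self, zero_pow two_ne_zero, mul_zero, add_zero] at b2
  have d1 : ∀ t, t ∈ Ioo 0 (Real.log 2) → HasDerivAt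
      (fun t => -(Wf F t - Real.sqrt 3 * M * (Real.exp (-1 * t) - 1 / 2) ^ 2)) 0 t := by
    intro t ht
    have := ((Wf_ode hF fp ht.1 (g1 t ht.1 ht.2)).sub
        ((sq_ode t).const_mul (Real.sqrt 3 * M))).neg
    refine this.congr_deriv ?_
    rw [yp]
    ring
  have ac1 : AbsolutelyContinuousOnInterval
      (fun t => -(Wf F t - Real.sqrt 3 * M * (Real.exp (-1 * t) - 1 / 2) ^ 2)) 0 (Real.log 2) :=
    ((Wf_ac hF le_rfl hT.le).sub ((sq_ac _ _).const_mul _)).neg
  have b1 := mono_ae (f' := fun _ => 0) hT.le ac1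
    (Eventually.of_forall fun t ht => ⟨d1 t ht, le_rfl⟩)
  simp only [mul_zero, Real.exp_zero] at b1
  rw [exp_T, sub_self, zero_pow two_ne_zero, mul_zero, sub_zero] at b1
  have e1 : Wf F 0 - Real.sqrt 3 * M * (1 - 1 / 2) ^ 2 = Wf F 0 - Real.sqrt 3 * M / 4 := by ring
  rw [e1] at b1
  linarith

end Pool.Agent.H840R2.LJ
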