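import Mathlib

/-!
A Banach-Steinhaus lemma for infinite matrices with nonnegative combinations of the rows.
-/

open Filter Topology
open scoped ENNReal

namespace Pool.Agent.H840R2

/-- the space of absolutely summable real sequences -/
abbrev L1 := lp (fun _ : ℕ => ℝ) 1

lemma L1.summable (x : L1) : Summable (fun j => |x j|) := by
  have h := lp.memℓp x
  have h2 := (memℓp_gen_iff (p := 1) (by simp)).mp h
  simpa using h2

lemma L1.norm_eq (x : L1) : ‖x‖ = ∑' j, |x j| := by
  have := lp.norm_eq_tsum_rpow (p := 1) (by simp) x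
  simpa using this

/-- the functional with bounded coefficients -/
noncomputable def fun1 (a : ℕ → ℂ) (B : ℝ) (ha : ∀ j, ‖a j‖ ≤ B) : L1 →L[ℝ] ℂ :=
  LinearMap.mkContinuous
    { toFun := fun x => ∑' j, (x j : ℂ) * a j
      map_add' := by
        intro x y
        have hx : Summable (fun j => (x j : ℂ) * a j) := by
          refine Summable.of_norm_bounded ((L1.summable x).mul_right B) (fun j => ?_)
          rw [norm_mul, Complex.norm_real, Real.norm_eq_abs]
          exact mul_le_mul_of_nonneg_left (ha j) (abs_nonneg _)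
        have hy : Summable (fun j => (y j : ℂ) * a j) := by
          refine Summable.of_norm_bounded ((L1.summable y).mul_right B) (fun j => ?_)
          rw [norm_mul, Complex.norm_real, Real.norm_eq_abs]
          exact mul_le_mul_of_nonneg_left (ha j) (abs_nonneg _)
        rw [← hx.tsum_add hy]
        congr 1
        ext j
        simp [add_mul]
      map_smul' := by
        intro c x
        simp only [RingHom.id_apply, Complex.real_smul]
        rw [← tsum_mul_left]
        congr 1
        ext j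
        simp [mul_assoc] } B (by
    intro x
    simp only [LinearMap.coe_mk, AddHom.coe_mk]
    have hx : Summable (fun j => ‖(x j : ℂ) * a j‖) := by
      refine Summable.of_nonneg_of_le (fun _ => norm_nonneg _) (fun j => ?_) ((L1.summable x).mul_right B)
      rw [norm_mul, Complex.norm_real, Real.norm_eq_abs]
      exact mul_le_mul_of_nonneg_left (ha j) (abs_nonneg _)
    refine (norm_tsum_le_tsum_norm hx).trans ?_
    rw [L1.norm_eq, ← tsum_mul_left]
    refine hx.tsum_le_tsum (fun j => ?_) ((L1.summable x).mul_left B)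
    rw [norm_mul, Complex.norm_real, Real.norm_eq_abs, mul_comm]
    exact mul_le_mul_of_nonneg_right (ha j) (abs_nonneg _))

lemma fun1_apply (a : ℕ → ℂ) (B : ℝ) (ha : ∀ j, ‖a j‖ ≤ B) (x : L1) :
    fun1 a B ha x = ∑' j, (x j : ℂ) * a j := rfl

/-- Let d be a bounded matrix whose rows have unbounded sums of moduli. Then some nonnegative summable
combination of the rows is not absolutely summable. -/
theorem bs_rows (d : ℕ → ℕ → ℂ) (B : ℝ) (hB : ∀ j n, ‖d j n‖ ≤ B)
    (hunb : ∀ C : ℝ, ∃ j N, C < ∑ n ∈ Finset.range N, ‖d j n‖) :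
    ∃ η : ℕ → ℝ, (∀ j, 0 ≤ η j) ∧ Summable η ∧ ∑' j, η j ≤ 1 ∧
      ¬ Summable (fun n => ‖∑' j, (η j : ℂ) * d j n‖) := by
  by_contra hcon
  push Not at hcon
  have hB0 : 0 ≤ B := (norm_nonneg _).trans (hB 0 0)
  -- every nonnegative summable sequence is fine
  have hpos : ∀ η : ℕ → ℝ, (∀ j, 0 ≤ η j) → Summable η →
      Summable (fun n => ‖∑' j, (η j : ℂ) * d j n‖) := by
    intro η h0 hs
    set T := ∑' j, η j with hT
    have hT0 : 0 ≤ T := tsum_nonneg h0
    have h1 := hcon (fun j => (T + 1)⁻¹ * η j) (fun j => by have := h0 j; positivity)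
      (hs.mul_left _) (by
        rw [tsum_mul_left, ← hT, inv_mul_le_iff₀ (by positivity)]
        linarith)
    have h2 : (fun n => ‖∑' j, (((T + 1)⁻¹ * η j : ℝ) : ℂ) * d j n‖) =
        fun n => (T + 1)⁻¹ * ‖∑' j, (η j : ℂ) * d j n‖ := by
      ext n
      have : ∑' j, (((T + 1)⁻¹ * η j : ℝ) : ℂ) * d j n = (((T + 1)⁻¹ : ℝ) : ℂ) * ∑' j, (η j : ℂ) * d j n := by
        rw [← tsum_mul_left]
        congr 1
        ext j
        push_cast
        ring
      rw [this, norm_mul, Complex.norm_real, Real.norm_eq_abs, abs_of_nonneg (by positivity)]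
    rw [h2] at h1
    have h3 : (T + 1)⁻¹ ≠ 0 := by positivity
    exact (summable_mul_left_iff h3).mp h1
  -- hence every element of L1
  have hsum : ∀ x : L1, ∀ n, Summable (fun j => (x j : ℂ) * d j n) := by
    intro x n
    refine Summable.of_norm_bounded ((L1.summable x).mul_right B) (fun j => ?_)
    rw [norm_mul, Complex.norm_real, Real.norm_eq_abs]
    exact mul_le_mul_of_nonneg_left (hB j n) (abs_nonneg _)
  have hall : ∀ x : L1, Summable (fun n => ‖∑' j, (x j : ℂ) * d j n‖) := by
    intro x
    have hp := hpos (fun j => max (x j) 0) (fun j => le_max_right _ _)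
      (Summable.of_nonneg_of_le (fun j => le_max_right _ _)
        (fun j => max_le (le_abs_self _) (abs_nonneg _)) (L1.summable x))
    have hm := hpos (fun j => max (-x j) 0) (fun j => le_max_right _ _)
      (Summable.of_nonneg_of_le (fun j => le_max_right _ _)
        (fun j => max_le (neg_le_abs _) (abs_nonneg _)) (L1.summable x))
    refine Summable.of_nonneg_of_le (fun n => norm_nonneg _) (fun n => ?_) (hp.add hm)
    have s1 : Summable (fun j => ((max (x j) 0 : ℝ) : ℂ) * d j n) := by
      refine Summable.of_norm_bounded ((L1.summable x).mul_right B) (fun j => ?_)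
      rw [norm_mul, Complex.norm_real, Real.norm_eq_abs, abs_of_nonneg (le_max_right _ _)]
      exact mul_le_mul (max_le (le_abs_self _) (abs_nonneg _)) (hB j n) (norm_nonneg _) (abs_nonneg _)
    have s2 : Summable (fun j => ((max (-x j) 0 : ℝ) : ℂ) * d j n) := by
      refine Summable.of_norm_bounded ((L1.summable x).mul_right B) (fun j => ?_)
      rw [norm_mul, Complex.norm_real, Real.norm_eq_abs, abs_of_nonneg (le_max_right _ _)]
      exact mul_le_mul (max_le (neg_le_abs _) (abs_nonneg _)) (hB j n) (norm_nonneg _) (abs_nonneg _)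
    have e : ∑' j, (x j : ℂ) * d j n =
        ∑' j, ((max (x j) 0 : ℝ) : ℂ) * d j n - ∑' j, ((max (-x j) 0 : ℝ) : ℂ) * d j n := by
      rw [← s1.tsum_sub s2]
      congr 1
      ext j
      rw [← sub_mul, ← Complex.ofReal_sub]
      congr 2
      rcases le_total 0 (x j) with h | h
      · rw [max_eq_left h, max_eq_right (by linarith)]; ring
      · rw [max_eq_right h, max_eq_left (by linarith)]; ring
    rw [e]
    exact norm_sub_le _ _
  -- the family of functionals
  let U : ℂ → ℂ := fun z => if z = 0 then 0 else (starRingEnd ℂ) z / (‖z‖ : ℂ)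
  have hU1 : ∀ z, ‖U z‖ ≤ 1 := by
    intro z
    simp only [U]
    split_ifs with h
    · simp
    · rw [norm_div, RCLike.norm_conj, Complex.norm_real, norm_norm, div_self (norm_ne_zero_iff.mpr h)]
  have hU2 : ∀ z, U z * z = (‖z‖ : ℂ) := by
    intro z
    simp only [U]
    split_ifs with h
    · simp [h]
    · have hz : (‖z‖ : ℂ) ≠ 0 := by simpa using h
      rw [div_mul_eq_mul_div, mul_comm, Complex.mul_conj, Complex.normSq_eq_norm_sq, div_eq_iff hz]
      push_cast
      ring
  have hb : ∀ (i : ℕ × ℕ) (j : ℕ), ‖∑ n ∈ Finset.range i.2, U (d i.1 n) * d j n‖ ≤ i.2 * B := by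
    intro i j
    refine (norm_sum_le _ _).trans ?_
    calc ∑ n ∈ Finset.range i.2, ‖U (d i.1 n) * d j n‖ ≤ ∑ n ∈ Finset.range i.2, B := by
          apply Finset.sum_le_sum
          intro n _
          rw [norm_mul]
          calc ‖U (d i.1 n)‖ * ‖d j n‖ ≤ 1 * B := mul_le_mul (hU1 _) (hB _ _) (norm_nonneg _) zero_le_one
            _ = B := one_mul _
      _ = i.2 * B := by simp
  let g : ℕ × ℕ → (L1 →L[ℝ] ℂ) := fun i =>
    fun1 (fun j => ∑ n ∈ Finset.range i.2, U (d i.1 n) * d j n) (i.2 * B) (hb i)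
  obtain ⟨C, hC⟩ := banach_steinhaus (g := g) (by
    intro x
    refine ⟨∑' n, ‖∑' j, (x j : ℂ) * d j n‖, fun i => ?_⟩
    have e : g i x = ∑ n ∈ Finset.range i.2, U (d i.1 n) * ∑' j, (x j : ℂ) * d j n := by
      simp only [g, fun1_apply]
      have : ∀ n ∈ Finset.range i.2, U (d i.1 n) * ∑' j, (x j : ℂ) * d j n =
          ∑' j, U (d i.1 n) * ((x j : ℂ) * d j n) := fun n _ => tsum_mul_left.symm
      rw [Finset.sum_congr rfl this, ← Summable.tsum_finsetSum (fun n _ => (hsum x n).mul_left _)]
      congr 1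
      ext j
      rw [Finset.mul_sum]
      apply Finset.sum_congr rfl
      intro n _
      ring
    rw [e]
    refine (norm_sum_le _ _).trans ?_
    calc ∑ n ∈ Finset.range i.2, ‖U (d i.1 n) * ∑' j, (x j : ℂ) * d j n‖
        ≤ ∑ n ∈ Finset.range i.2, ‖∑' j, (x j : ℂ) * d j n‖ := by
          apply Finset.sum_le_sum
          intro n _
          rw [norm_mul]
          calc ‖U (d i.1 n)‖ * ‖∑' j, (x j : ℂ) * d j n‖ ≤ 1 * ‖∑' j, (x j : ℂ) * d j n‖ :=
                mul_le_mul_of_nonneg_right (hU1 _) (norm_nonneg _)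
            _ = _ := one_mul _
      _ ≤ _ := (hall x).sum_le_tsum _ (fun _ _ => norm_nonneg _))
  obtain ⟨j, N, hjN⟩ := hunb C
  have h1 := hC (j, N)
  have h2 := (g (j, N)).le_opNorm (lp.single 1 j (1:ℝ))
  have h3 : ‖(lp.single 1 j (1:ℝ) : L1)‖ = 1 := by
    have := lp.norm_single (p := 1) (E := fun _ : ℕ => ℝ) (by simp) j (1:ℝ)
    rw [this]; simp
  rw [h3, mul_one] at h2
  have h4 : g (j, N) (lp.single 1 j (1:ℝ)) = ((∑ n ∈ Finset.range N, ‖d j n‖ : ℝ) : ℂ) := by
    simp only [g, fun1_apply]
    rw [tsum_eq_single j]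
    · simp [hU2]
    · intro k hk
      simp [hk]
  rw [h4, Complex.norm_real, Real.norm_eq_abs,
    abs_of_nonneg (Finset.sum_nonneg (fun _ _ => norm_nonneg _))] at h2
  linarith

end Pool.Agent.H840R2
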