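import Pool.Agent.H840R2.MoebMean

/-!
Roots of unity, their images under a disc automorphism, multiplicative energy for generic parameters.
-/

open Filter Topology
open scoped ComplexConjugate

namespace Pool.Agent.H840R2

/-- the k-th power of the standard primitive K-th root of unity -/
noncomputable def zt (K k : ℕ) : ℂ := Complex.exp (2 * Real.pi * Complex.I / K) ^ k

lemma zt_prim {K : ℕ} (hK : K ≠ 0) : IsPrimitiveRoot (Complex.exp (2 * Real.pi * Complex.I / K)) K :=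
  Complex.isPrimitiveRoot_exp K hK

lemma zt_norm {K : ℕ} (hK : K ≠ 0) (k : ℕ) : ‖zt K k‖ = 1 := by
  unfold zt
  rw [norm_pow, (zt_prim hK).norm'_eq_one hK, one_pow]

lemma zt_ne {K : ℕ} (hK : K ≠ 0) (k : ℕ) : zt K k ≠ 0 := by
  intro h
  have := zt_norm hK k
  rw [h] at this
  simp at this

lemma zt_inj {K : ℕ} (hK : K ≠ 0) : Function.Injective (fun k : Fin K => zt K k) := by
  intro a b h
  exact Fin.ext ((zt_prim hK).pow_inj a.2 b.2 h)

lemma zt_sum {K : ℕ} (hK : K ≠ 0) (n : ℕ) : ∑ k : Fin K, zt K k ^ n = if K ∣ n then (K:ℂ) else 0 := by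
  have h1 : ∀ k : ℕ, zt K k ^ n = (Complex.exp (2 * Real.pi * Complex.I / K) ^ n) ^ k := by
    intro k; unfold zt; rw [← pow_mul, ← pow_mul, mul_comm k n]
  rw [Fin.sum_univ_eq_sum_range (fun k => zt K k ^ n) K]
  simp only [h1]
  split_ifs with h
  · rw [((zt_prim hK).pow_eq_one_iff_dvd n).mpr h]
    simp
  · have hne : Complex.exp (2 * Real.pi * Complex.I / K) ^ n ≠ 1 := fun h2 =>
      h (((zt_prim hK).pow_eq_one_iff_dvd n).mp h2)
    rw [geom_sum_eq hne, ← pow_mul, mul_comm n K, pow_mul, (zt_prim hK).pow_eq_one]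
    simp

lemma zt_sum_inv {K : ℕ} (hK : 2 ≤ K) : ∑ k : Fin K, (zt K k)⁻¹ = 0 := by
  have hK0 : K ≠ 0 := by omega
  have h1 : ∀ k : ℕ, (zt K k)⁻¹ = ((Complex.exp (2 * Real.pi * Complex.I / K))⁻¹) ^ k := by
    intro k; unfold zt; rw [inv_pow]
  rw [Fin.sum_univ_eq_sum_range (fun k => (zt K k)⁻¹) K]
  simp only [h1]
  have hne : (Complex.exp (2 * Real.pi * Complex.I / K))⁻¹ ≠ 1 := by
    intro h2
    rw [inv_eq_one] at h2
    have := ((zt_prim hK0).pow_eq_one_iff_dvd 1).mp (by rw [pow_one]; exact h2)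
    have := Nat.le_of_dvd one_pos this
    omega
  rw [geom_sum_eq hne, inv_pow, (zt_prim hK0).pow_eq_one]
  simp

/-- the image of r ζ under the automorphism z ↦ (z + w) / (1 + w z), w real -/
noncomputable def xi (w r : ℝ) (ζ : ℂ) : ℂ := (w + ζ * r) / (1 + ζ * r * w)

lemma xi_den {w r : ℝ} (hw0 : 0 < w) (hw1 : w < 1) (hr0 : 0 < r) (hr1 : r ≤ 1) {ζ : ℂ} (hζ : ‖ζ‖ = 1) :
    1 - w ≤ ‖1 + ζ * r * w‖ := by
  have h1 : ‖ζ * r * w‖ ≤ w := by
    rw [norm_mul, norm_mul, hζ, Complex.norm_real, Complex.norm_real, Real.norm_eq_abs, Real.norm_eq_abs,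
      abs_of_pos hr0, abs_of_pos hw0]
    nlinarith
  have h2 : ‖(1:ℂ)‖ ≤ ‖1 + ζ * r * w‖ + ‖ζ * r * w‖ := by
    calc ‖(1:ℂ)‖ = ‖(1 + ζ * r * w) - ζ * r * w‖ := by congr 1; ring
      _ ≤ _ := norm_sub_le _ _
  rw [norm_one] at h2
  linarith

lemma xi_den_ne {w r : ℝ} (hw0 : 0 < w) (hw1 : w < 1) (hr0 : 0 < r) (hr1 : r ≤ 1) {ζ : ℂ} (hζ : ‖ζ‖ = 1) :
    1 + ζ * r * w ≠ 0 := by
  have := xi_den hw0 hw1 hr0 hr1 hζ
  intro h
  rw [h, norm_zero] at this
  linarith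

lemma xi_norm_le {w r : ℝ} (hw0 : 0 < w) (hw1 : w < 1) (hr0 : 0 < r) (hr1 : r ≤ 1) {ζ : ℂ} (hζ : ‖ζ‖ = 1) :
    ‖xi w r ζ‖ ≤ 1 := by
  have hd := xi_den hw0 hw1 hr0 hr1 hζ
  have hd0 : 0 < ‖1 + ζ * r * w‖ := by linarith
  unfold xi
  rw [norm_div, div_le_one hd0]
  have h1 : Complex.normSq (1 + ζ * r * w) - Complex.normSq (w + ζ * r) = (1 - w ^ 2) * (1 - r ^ 2 * Complex.normSq ζ) := by
    simp [Complex.normSq_apply]; ring
  have h2 : 0 ≤ (1 - w ^ 2) * (1 - r ^ 2 * Complex.normSq ζ) := by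
    rw [Complex.normSq_eq_norm_sq, hζ]
    apply mul_nonneg <;> nlinarith
  rw [Complex.normSq_eq_norm_sq, Complex.normSq_eq_norm_sq] at h1
  exact le_of_sq_le_sq (by linarith) (norm_nonneg _)

lemma xi_norm_one {w : ℝ} (hw0 : 0 < w) (hw1 : w < 1) {ζ : ℂ} (hζ : ‖ζ‖ = 1) :
    ‖xi w 1 ζ‖ = 1 := by
  have hd := xi_den hw0 hw1 one_pos le_rfl hζ
  have hd0 : 0 < ‖1 + ζ * (1:ℝ) * w‖ := by linarith
  unfold xi
  rw [norm_div, div_eq_one_iff_eq hd0.ne']
  have h1 : Complex.normSq (1 + ζ * (1:ℝ) * w) - Complex.normSq (w + ζ * (1:ℝ)) = (1 - w ^ 2) * (1 - Complex.normSq ζ) := by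
    simp [Complex.normSq_apply]; ring
  rw [Complex.normSq_eq_norm_sq, Complex.normSq_eq_norm_sq, Complex.normSq_eq_norm_sq, hζ] at h1
  have h2 : ‖w + ζ * (1:ℝ)‖ ^ 2 = ‖1 + ζ * (1:ℝ) * w‖ ^ 2 := by linarith
  exact (sq_eq_sq₀ (norm_nonneg _) (norm_nonneg _)).mp h2

lemma xi_inj {w : ℝ} (hw0 : 0 < w) (hw1 : w < 1) {ζ η : ℂ} (hζ : ‖ζ‖ = 1) (hη : ‖η‖ = 1)
    (h : xi w 1 ζ = xi w 1 η) : ζ = η := by
  have h1 := xi_den_ne hw0 hw1 one_pos le_rfl hζ
  have h2 := xi_den_ne hw0 hw1 one_pos le_rfl hη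
  unfold xi at h
  rw [div_eq_div_iff h1 h2] at h
  have h3 : (1 - (w:ℂ) ^ 2) * (ζ - η) = 0 := by
    push_cast at h
    linear_combination h
  have h4 : (1 - (w:ℂ) ^ 2) ≠ 0 := by
    have : (1 - w ^ 2 : ℝ) ≠ 0 := by nlinarith
    exact_mod_cast this
  exact sub_eq_zero.mp ((mul_eq_zero.mp h3).resolve_left h4)

lemma xi_diff {w r : ℝ} (hw0 : 0 < w) (hw1 : w < 1) (hr0 : 0 < r) (hr1 : r ≤ 1) {ζ : ℂ} (hζ : ‖ζ‖ = 1) :
    ‖xi w r ζ - xi w 1 ζ‖ ≤ (1 - r) * ((1 + w) / (1 - w)) := by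
  have h1 := xi_den_ne hw0 hw1 hr0 hr1 hζ
  have h2 := xi_den_ne hw0 hw1 one_pos le_rfl hζ
  have e : xi w r ζ - xi w 1 ζ = -(ζ * ((1 - r : ℝ) : ℂ) * ((1 - w ^ 2 : ℝ) : ℂ)) / ((1 + ζ * r * w) * (1 + ζ * (1:ℝ) * w)) := by
    unfold xi
    rw [div_sub_div _ _ h1 h2]
    congr 1
    push_cast
    ring
  rw [e, norm_div, norm_neg, norm_mul, norm_mul, hζ, norm_mul, Complex.norm_real, Complex.norm_real,
    Real.norm_eq_abs, Real.norm_eq_abs, abs_of_nonneg (by linarith : 0 ≤ 1 - r),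
    abs_of_nonneg (by nlinarith : 0 ≤ 1 - w ^ 2), one_mul]
  have d1 := xi_den hw0 hw1 hr0 hr1 hζ
  have d2 := xi_den hw0 hw1 one_pos le_rfl hζ
  have hw : 0 < 1 - w := by linarith
  have d3 : (1 - w) * (1 - w) ≤ ‖1 + ζ * r * w‖ * ‖1 + ζ * (1:ℝ) * w‖ :=
    mul_le_mul d1 d2 hw.le (by linarith)
  have hr : 0 ≤ 1 - r := by linarith
  rw [div_le_iff₀ (by nlinarith)]
  have e2 : (1 - r) * (1 - w ^ 2) = (1 - r) * ((1 + w) / (1 - w)) * ((1 - w) * (1 - w)) := by
    field_simp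
    ring
  rw [e2]
  have : 0 ≤ (1 - r) * ((1 + w) / (1 - w)) := by positivity
  exact mul_le_mul_of_nonneg_left d3 this

/-- generic parameters: a multiplicative relation between the images forces the obvious ones -/
def Good (w : ℝ) : Prop := ∀ K k l m p : ℕ, K ≠ 0 →
  xi w 1 (zt K k) * xi w 1 (zt K l) = xi w 1 (zt K m) * xi w 1 (zt K p) →
  zt K k * zt K l = zt K m * zt K p ∧ (zt K k * zt K l = 1 ∨ zt K k + zt K l = zt K m + zt K p)

lemma exists_good : ∃ w : ℝ, 0 < w ∧ w < 1 ∧ Good w := by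
  let V : ℕ × ℕ × ℕ × ℕ × ℕ → ℂ := fun q =>
    -((zt q.1 q.2.1 + zt q.1 q.2.2.1 - (zt q.1 q.2.2.2.1 + zt q.1 q.2.2.2.2)) +
      (zt q.1 q.2.1 * zt q.1 q.2.2.1 * (zt q.1 q.2.2.2.1 + zt q.1 q.2.2.2.2) -
      zt q.1 q.2.2.2.1 * zt q.1 q.2.2.2.2 * (zt q.1 q.2.1 + zt q.1 q.2.2.1))) /
      (zt q.1 q.2.1 * zt q.1 q.2.2.1 - zt q.1 q.2.2.2.1 * zt q.1 q.2.2.2.2)
  have hV : (Set.range V).Countable := Set.countable_range V
  have hV2 : ((fun x : ℝ => (x : ℂ)) ⁻¹' Set.range V).Countable := hV.preimage Complex.ofReal_injective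
  have hU : ¬ (Set.Ioo (2:ℝ) 3).Countable := by
    intro h
    have := Cardinal.mk_Ioo_real (show (2:ℝ) < 3 by norm_num)
    have h2 := Cardinal.le_aleph0_iff_set_countable.mpr h
    rw [this] at h2
    exact absurd h2 (not_le.mpr Cardinal.aleph0_lt_continuum)
  obtain ⟨v, hv, hvV⟩ : ∃ v ∈ Set.Ioo (2:ℝ) 3, v ∉ (fun x : ℝ => (x : ℂ)) ⁻¹' Set.range V := by
    by_contra hcon
    push Not at hcon
    exact hU (hV2.mono hcon)
  have hv2 : 2 < v := hv.1
  have hsq : 0 ≤ v ^ 2 - 4 := by nlinarith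
  set t := Real.sqrt (v ^ 2 - 4) with ht
  have ht2 : t ^ 2 = v ^ 2 - 4 := Real.sq_sqrt hsq
  have ht0 : 0 ≤ t := Real.sqrt_nonneg _
  have htv : t < v := by nlinarith
  have htv2 : v - 2 < t := by nlinarith
  refine ⟨(v - t) / 2, by linarith, by linarith, ?_⟩
  set w := (v - t) / 2 with hw
  have hw0 : 0 < w := by rw [hw]; linarith
  have hw1 : w < 1 := by rw [hw]; linarith
  have hwv : w ^ 2 + 1 = v * w := by rw [hw]; nlinarith
  intro K k l m p hK h
  have n1 := xi_den_ne hw0 hw1 one_pos le_rfl (zt_norm hK k)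
  have n2 := xi_den_ne hw0 hw1 one_pos le_rfl (zt_norm hK l)
  have n3 := xi_den_ne hw0 hw1 one_pos le_rfl (zt_norm hK m)
  have n4 := xi_den_ne hw0 hw1 one_pos le_rfl (zt_norm hK p)
  unfold xi at h
  rw [div_mul_div_comm, div_mul_div_comm, div_eq_div_iff (mul_ne_zero n1 n2) (mul_ne_zero n3 n4)] at h
  have hVq : V (K, k, l, m, p) ≠ (v : ℂ) := fun h2 => hvV ⟨(K, k, l, m, p), h2⟩
  simp only [V] at hVq
  generalize zt K k = a at *
  generalize zt K l = b at *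
  generalize zt K m = c at *
  generalize zt K p = d at *
  have hwvC : (w:ℂ) ^ 2 + 1 = v * w := by exact_mod_cast hwv
  have hwC : (w:ℂ) ≠ 0 := by exact_mod_cast hw0.ne'
  have h4 : (1 - (w:ℂ) ^ 2) ≠ 0 := by
    have : (1 - w ^ 2 : ℝ) ≠ 0 := by nlinarith
    exact_mod_cast this
  have e1 : (1 - (w:ℂ) ^ 2) * w * ((a * b - c * d) * v + ((a + b - (c + d)) + (a * b * (c + d) - c * d * (a + b)))) = 0 := by
    push_cast at h
    have e0 : (1 - (w:ℂ) ^ 2) * ((a * b - c * d) * (w ^ 2 + 1) + ((a + b - (c + d)) + (a * b * (c + d) - c * d * (a + b))) * w) = 0 := by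
      linear_combination h
    rw [hwvC] at e0
    linear_combination e0
  have e2 := (mul_eq_zero.mp e1).resolve_left (mul_ne_zero h4 hwC)
  have hc0 : a * b - c * d = 0 := by
    by_contra hne
    apply hVq
    rw [div_eq_iff hne]
    linear_combination -e2
  have hc1 : (a + b - (c + d)) + (a * b * (c + d) - c * d * (a + b)) = 0 := by
    rw [hc0] at e2; simpa using e2
  have habcd : a * b = c * d := sub_eq_zero.mp hc0
  refine ⟨habcd, ?_⟩
  have e3 : (a + b - (c + d)) * (1 - a * b) = 0 := by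
    linear_combination hc1 + (a + b) * (-1 : ℂ) * habcd
  rcases mul_eq_zero.mp e3 with h5 | h5
  · right; exact sub_eq_zero.mp h5
  · left; exact (sub_eq_zero.mp h5).symm

lemma energy {w : ℝ} (hgood : Good w) {K : ℕ} (hK : K ≠ 0) :
    ((Finset.univ.filter (fun q : (Fin K × Fin K) × (Fin K × Fin K) =>
      xi w 1 (zt K q.1.1) * xi w 1 (zt K q.1.2) = xi w 1 (zt K q.2.1) * xi w 1 (zt K q.2.2))).card : ℝ)
      ≤ 3 * (Fintype.card (Fin K) : ℝ) ^ 2 := by
  classical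
  have hinj := zt_inj hK
  let A : Finset ((Fin K × Fin K) × (Fin K × Fin K)) := Finset.univ.image (fun x : Fin K × Fin K => (x, x))
  let B : Finset ((Fin K × Fin K) × (Fin K × Fin K)) := Finset.univ.image (fun x : Fin K × Fin K => (x, x.swap))
  let C : Finset ((Fin K × Fin K) × (Fin K × Fin K)) := Finset.univ.filter (fun q =>
    zt K q.1.1 * zt K q.1.2 = 1 ∧ zt K q.2.1 * zt K q.2.2 = 1)
  have hsub : (Finset.univ.filter (fun q : (Fin K × Fin K) × (Fin K × Fin K) =>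
      xi w 1 (zt K q.1.1) * xi w 1 (zt K q.1.2) = xi w 1 (zt K q.2.1) * xi w 1 (zt K q.2.2))) ⊆ A ∪ B ∪ C := by
    rintro ⟨⟨k, l⟩, ⟨m, p⟩⟩ hq
    simp only [Finset.mem_filter, Finset.mem_univ, true_and] at hq
    obtain ⟨h1, h2⟩ := hgood K k l m p hK hq
    simp only [Finset.mem_union]
    rcases h2 with h2 | h2
    · right
      simp only [C, Finset.mem_filter, Finset.mem_univ, true_and]
      exact ⟨h2, by rw [← h1]; exact h2⟩
    · left
      have h3 : (zt K k - zt K m) * (zt K k - zt K p) = 0 := by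
        linear_combination (-1:ℂ) * h1 + zt K k * h2
      rcases mul_eq_zero.mp h3 with h4 | h4
      · left
        have hk : k = m := hinj (sub_eq_zero.mp h4)
        have hl : l = p := by
          apply hinj
          simp only
          have h5 : zt K k = zt K m := sub_eq_zero.mp h4
          linear_combination h2 - h5
        simp only [A, Finset.mem_image, Finset.mem_univ, true_and]
        exact ⟨(k, l), by rw [hk, hl]⟩
      · right
        have hk : k = p := hinj (sub_eq_zero.mp h4)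
        have hl : l = m := by
          apply hinj
          simp only
          have h5 : zt K k = zt K p := sub_eq_zero.mp h4
          linear_combination h2 - h5
        simp only [B, Finset.mem_image, Finset.mem_univ, true_and]
        exact ⟨(k, l), by rw [hk, hl]; rfl⟩
  have hcard2 : (Finset.univ : Finset (Fin K × Fin K)).card = K ^ 2 := by
    rw [Finset.card_univ, Fintype.card_prod, Fintype.card_fin]; ring
  have hA : A.card ≤ K ^ 2 := hcard2 ▸ Finset.card_image_le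
  have hB : B.card ≤ K ^ 2 := hcard2 ▸ Finset.card_image_le
  have hC : C.card ≤ K ^ 2 := by
    rw [← hcard2]
    refine Finset.card_le_card_of_injOn (fun q => (q.1.1, q.2.1)) (fun _ _ => Finset.mem_coe.mpr (Finset.mem_univ _)) ?_
    rintro ⟨⟨k, l⟩, ⟨m, p⟩⟩ hq ⟨⟨k', l'⟩, ⟨m', p'⟩⟩ hq' h
    simp only [C, Finset.coe_filter, Finset.mem_univ, true_and, Set.mem_ofPred_eq] at hq hq'
    simp only [Prod.mk.injEq] at h
    obtain ⟨rfl, rfl⟩ := h
    have e1 : l = l' := by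
      apply hinj
      simp only
      exact mul_left_cancel₀ (zt_ne hK k) (hq.1.trans hq'.1.symm)
    have e2 : p = p' := by
      apply hinj
      simp only
      exact mul_left_cancel₀ (zt_ne hK m) (hq.2.trans hq'.2.symm)
    rw [e1, e2]
  have h1 := (Finset.card_le_card hsub).trans ((Finset.card_union_le _ _).trans (Nat.add_le_add_right (Finset.card_union_le _ _) _))
  have h2 : (Finset.univ.filter (fun q : (Fin K × Fin K) × (Fin K × Fin K) =>
      xi w 1 (zt K q.1.1) * xi w 1 (zt K q.1.2) = xi w 1 (zt K q.2.1) * xi w 1 (zt K q.2.2))).card ≤ 3 * K ^ 2 := by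
    omega
  rw [Fintype.card_fin]
  exact_mod_cast h2

end Pool.Agent.H840R2
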