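import Pool.Agent.H840R2.MoebEnergy

/-!
The coefficients of the composed building blocks and the lower bound for their weighted sum.
-/

open Filter Topology
open scoped ComplexConjugate

namespace Pool.Agent.H840R2

/-- the Taylor coefficients of H(φ(z)) φ'(z) -/
noncomputable def cf (w r : ℝ) (K n : ℕ) : ℂ :=
  (K:ℂ)⁻¹ * (∑ k : Fin K, (zt K k)⁻¹ * xi w r (zt K k) ^ (n + 1)) - ((r * (1 - w ^ 2) * (n + 1) * w ^ n : ℝ) : ℂ)

lemma wn_bound {w : ℝ} (hw0 : 0 < w) (hw1 : w < 1) (n : ℕ) : (n + 1) * w ^ n * (1 - w) ≤ 1 := by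
  have h1 : (n + 1 : ℝ) * w ^ n ≤ ∑ k ∈ Finset.range (n + 1), w ^ k := by
    calc (n + 1 : ℝ) * w ^ n = ∑ k ∈ Finset.range (n + 1), w ^ n := by simp
      _ ≤ _ := by
        apply Finset.sum_le_sum
        intro k hk
        exact pow_le_pow_of_le_one hw0.le hw1.le (by have := Finset.mem_range.mp hk; omega)
  have h2 : (∑ k ∈ Finset.range (n + 1), w ^ k) * (1 - w) = 1 - w ^ (n + 1) := by
    rw [geom_sum_mul_neg]
  have h3 : 0 ≤ w ^ (n + 1) := by positivity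
  have h4 : 0 < 1 - w := by linarith
  nlinarith

lemma cf_norm_le {w r : ℝ} (hw0 : 0 < w) (hw1 : w < 1) (hr0 : 0 < r) (hr1 : r ≤ 1) {K : ℕ} (hK : K ≠ 0) (n : ℕ) :
    ‖cf w r K n‖ ≤ 3 := by
  unfold cf
  have h1 : ‖(K:ℂ)⁻¹ * (∑ k : Fin K, (zt K k)⁻¹ * xi w r (zt K k) ^ (n + 1))‖ ≤ 1 := by
    rw [norm_mul, norm_inv, Complex.norm_natCast]
    have hKp : (0:ℝ) < K := by exact_mod_cast Nat.pos_of_ne_zero hK
    rw [inv_mul_le_iff₀ hKp, mul_one]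
    refine (norm_sum_le _ _).trans ?_
    calc ∑ k : Fin K, ‖(zt K k)⁻¹ * xi w r (zt K k) ^ (n + 1)‖ ≤ ∑ k : Fin K, (1:ℝ) := by
          apply Finset.sum_le_sum
          intro k _
          rw [norm_mul, norm_inv, zt_norm hK, inv_one, one_mul, norm_pow]
          exact pow_le_one₀ (norm_nonneg _) (xi_norm_le hw0 hw1 hr0 hr1 (zt_norm hK k))
      _ = K := by simp
  have h2 : ‖((r * (1 - w ^ 2) * (n + 1) * w ^ n : ℝ) : ℂ)‖ ≤ 2 := by
    have h0 : 0 ≤ (1 - w ^ 2) := by nlinarith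
    rw [Complex.norm_real, Real.norm_eq_abs, abs_of_nonneg (by positivity)]
    have h3 := wn_bound hw0 hw1 n
    have h4 : r * (1 - w ^ 2) * (n + 1) * w ^ n = r * (1 + w) * ((n + 1) * w ^ n * (1 - w)) := by ring
    rw [h4]
    have h5 : 0 ≤ (n + 1) * w ^ n * (1 - w) := by
      have : 0 < 1 - w := by linarith
      positivity
    have h6 : r * (1 + w) ≤ 2 := by nlinarith
    calc r * (1 + w) * ((n + 1) * w ^ n * (1 - w)) ≤ 2 * 1 := mul_le_mul h6 h3 h5 (by norm_num)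
      _ = 2 := by norm_num
  calc _ ≤ _ := norm_sub_le _ _
    _ ≤ 1 + 2 := add_le_add h1 h2
    _ = 3 := by norm_num

lemma pow_diff_le {x y : ℂ} (hx : ‖x‖ ≤ 1) (hy : ‖y‖ ≤ 1) (N : ℕ) : ‖x ^ N - y ^ N‖ ≤ N * ‖x - y‖ := by
  induction N with
  | zero => simp
  | succ N ih =>
    have e : x ^ (N + 1) - y ^ (N + 1) = x * (x ^ N - y ^ N) + (x - y) * y ^ N := by ring
    rw [e]
    calc _ ≤ ‖x * (x ^ N - y ^ N)‖ + ‖(x - y) * y ^ N‖ := norm_add_le _ _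
      _ ≤ N * ‖x - y‖ + ‖x - y‖ := by
        apply add_le_add
        · rw [norm_mul]
          calc ‖x‖ * ‖x ^ N - y ^ N‖ ≤ 1 * (N * ‖x - y‖) := mul_le_mul hx ih (norm_nonneg _) zero_le_one
            _ = _ := one_mul _
        · rw [norm_mul, norm_pow]
          calc ‖x - y‖ * ‖y‖ ^ N ≤ ‖x - y‖ * 1 := mul_le_mul_of_nonneg_left (pow_le_one₀ (norm_nonneg _) hy) (norm_nonneg _)
            _ = _ := mul_one _
      _ = _ := by push_cast; ring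

/-- the limiting sequence -/
noncomputable def bf (w : ℝ) (K N : ℕ) : ℂ := (K:ℂ)⁻¹ * ∑ k : Fin K, (zt K k)⁻¹ * xi w 1 (zt K k) ^ N

lemma cf_lower {w r : ℝ} (hw0 : 0 < w) (hw1 : w < 1) (hr0 : 0 < r) (hr1 : r ≤ 1) {K : ℕ} (hK : K ≠ 0) (n : ℕ) :
    ‖bf w K (n + 1)‖ - (n + 1) * ((1 - r) * ((1 + w) / (1 - w))) - (1 - w ^ 2) * (n + 1) * w ^ n ≤ ‖cf w r K n‖ := by
  have hKp : (0:ℝ) < K := by exact_mod_cast Nat.pos_of_ne_zero hK
  have h1 : ‖(K:ℂ)⁻¹ * (∑ k : Fin K, (zt K k)⁻¹ * xi w r (zt K k) ^ (n + 1)) - bf w K (n + 1)‖ ≤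
      (n + 1) * ((1 - r) * ((1 + w) / (1 - w))) := by
    unfold bf
    rw [← mul_sub, ← Finset.sum_sub_distrib, norm_mul, norm_inv, Complex.norm_natCast, inv_mul_le_iff₀ hKp]
    refine (norm_sum_le _ _).trans ?_
    calc ∑ k : Fin K, ‖(zt K k)⁻¹ * xi w r (zt K k) ^ (n + 1) - (zt K k)⁻¹ * xi w 1 (zt K k) ^ (n + 1)‖
        ≤ ∑ k : Fin K, (n + 1) * ((1 - r) * ((1 + w) / (1 - w))) := by
          apply Finset.sum_le_sum
          intro k _
          rw [← mul_sub, norm_mul, norm_inv, zt_norm hK, inv_one, one_mul]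
          have h2 := pow_diff_le (xi_norm_le hw0 hw1 hr0 hr1 (zt_norm hK k)) (xi_norm_le hw0 hw1 one_pos le_rfl (zt_norm hK k)) (n + 1)
          refine h2.trans ?_
          push_cast
          exact mul_le_mul_of_nonneg_left (xi_diff hw0 hw1 hr0 hr1 (zt_norm hK k)) (by positivity)
      _ = _ := by simp
  have h2 : ‖((r * (1 - w ^ 2) * (n + 1) * w ^ n : ℝ) : ℂ)‖ ≤ (1 - w ^ 2) * (n + 1) * w ^ n := by
    have h0 : 0 ≤ (1 - w ^ 2) := by nlinarith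
    rw [Complex.norm_real, Real.norm_eq_abs, abs_of_nonneg (by positivity)]
    have : 0 ≤ (1 - w ^ 2) * (n + 1) * w ^ n := by positivity
    nlinarith
  have e : bf w K (n + 1) = cf w r K n + (((r * (1 - w ^ 2) * (n + 1) * w ^ n : ℝ) : ℂ) -
      ((K:ℂ)⁻¹ * (∑ k : Fin K, (zt K k)⁻¹ * xi w r (zt K k) ^ (n + 1)) - bf w K (n + 1))) := by
    unfold cf; ring
  have h3 : ‖bf w K (n + 1)‖ ≤ ‖cf w r K n‖ + ((1 - w ^ 2) * (n + 1) * w ^ n + (n + 1) * ((1 - r) * ((1 + w) / (1 - w)))) := by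
    calc ‖bf w K (n + 1)‖ = _ := by rw [e]
      _ ≤ _ := norm_add_le _ _
      _ ≤ _ := by
        gcongr
        exact (norm_sub_le _ _).trans (add_le_add h2 h1)
  linarith

lemma bf_norm_le {w : ℝ} (hw0 : 0 < w) (hw1 : w < 1) {K : ℕ} (hK : K ≠ 0) (N : ℕ) : ‖bf w K N‖ ≤ 1 := by
  unfold bf
  rw [norm_mul, norm_inv, Complex.norm_natCast]
  have hKp : (0:ℝ) < K := by exact_mod_cast Nat.pos_of_ne_zero hK
  rw [inv_mul_le_iff₀ hKp, mul_one]
  refine (norm_sum_le _ _).trans ?_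
  calc ∑ k : Fin K, ‖(zt K k)⁻¹ * xi w 1 (zt K k) ^ N‖ ≤ ∑ k : Fin K, (1:ℝ) := by
        apply Finset.sum_le_sum
        intro k _
        rw [norm_mul, norm_inv, zt_norm hK, inv_one, one_mul, norm_pow]
        exact pow_le_one₀ (norm_nonneg _) (xi_norm_le hw0 hw1 one_pos le_rfl (zt_norm hK k))
    _ = K := by simp

/-- The lower bound. -/
theorem lower {w : ℝ} (hw0 : 0 < w) (hw1 : w < 1) (hgood : Good w) (C : ℝ) :
    ∃ (K : ℕ) (r : ℝ) (N : ℕ), 2 ≤ K ∧ 0 < r ∧ r < 1 ∧ (K:ℝ) ≤ Lam r ∧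
      C < ∑ n ∈ Finset.range N, ‖((K / Lam r : ℝ) : ℂ) * cf w r K n / ((n:ℂ) + 1)‖ := by
  obtain ⟨K, hK2, hKC⟩ : ∃ K : ℕ, 2 ≤ K ∧ 8 * (C + 2) < Real.sqrt K := by
    obtain ⟨K0, hK0⟩ := exists_nat_gt ((8 * (C + 2)) ^ 2)
    refine ⟨K0 + 2, by omega, ?_⟩
    have h1 : (8 * (C + 2)) ^ 2 < ((K0 + 2 : ℕ) : ℝ) := by push_cast; linarith
    calc 8 * (C + 2) ≤ |8 * (C + 2)| := le_abs_self _
      _ < Real.sqrt ((K0 + 2 : ℕ) : ℝ) := by
        rw [← Real.sqrt_sq_eq_abs]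
        exact Real.sqrt_lt_sqrt (sq_nonneg _) h1
  have hK0 : K ≠ 0 := by omega
  have hKp : (0:ℝ) < K := by exact_mod_cast Nat.pos_of_ne_zero hK0
  haveI : Nonempty (Fin K) := ⟨⟨0, by omega⟩⟩
  have hfm := first_mean (ι := Fin K) (fun k => (zt K k)⁻¹) (fun k => xi w 1 (zt K k))
    (fun k => by rw [norm_inv, zt_norm hK0, inv_one]) (fun k => xi_norm_one hw0 hw1 (zt_norm hK0 k))
    (fun a b h => zt_inj hK0 (xi_inj hw0 hw1 (zt_norm hK0 a) (zt_norm hK0 b) h)) (energy hgood hK0)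
  set D : ℝ := (1 + w) / (1 - w) with hD
  have hD0 : 0 < D := by rw [hD]; apply div_pos <;> linarith
  have hbig : ∀ᶠ ρ : ℝ in 𝓝[<] (1:ℝ), (D + 2) * K + K ≤ Lam ρ := Lam_tendsto.eventually_ge_atTop _
  obtain ⟨r, ⟨hr1, hr2⟩, hr3⟩ := ((hfm.and hbig).and ev_Ioo).exists
  rw [Fintype.card_fin] at hr1
  have hrL := Lam_pos hr3.1 hr3.2
  have hKL : (K:ℝ) ≤ Lam r := by
    have : 0 ≤ (D + 2) * K := by positivity
    linarith
  -- the series
  have hbb : ∀ N, |‖bf w K N‖| ≤ 1 := fun N => by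
    rw [abs_of_nonneg (norm_nonneg _)]; exact bf_norm_le hw0 hw1 hK0 N
  have hSb : Summable (fun N : ℕ => r ^ N * ‖bf w K N‖ / N) := S_summable hr3.1 hr3.2 hbb
  have hS : S r (fun N => ‖bf w K N‖) = ∑' n : ℕ, r ^ (n + 1) * ‖bf w K (n + 1)‖ / ((n + 1 : ℕ) : ℝ) := by
    unfold S
    rw [hSb.tsum_eq_zero_add]
    simp
  have hSb' : Summable (fun n : ℕ => r ^ (n + 1) * ‖bf w K (n + 1)‖ / ((n + 1 : ℕ) : ℝ)) :=
    (summable_nat_add_iff 1).mpr hSb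
  have hcs : Summable (fun n : ℕ => r ^ (n + 1) * ‖cf w r K n‖ / ((n + 1 : ℕ) : ℝ)) := by
    refine Summable.of_nonneg_of_le (fun n => by have := hr3.1; positivity) (fun n => ?_)
      ((summable_geometric_of_lt_one hr3.1.le hr3.2).mul_left 3)
    have h1 := cf_norm_le hw0 hw1 hr3.1 hr3.2.le hK0 n
    have hn : (1:ℝ) ≤ ((n + 1 : ℕ) : ℝ) := by push_cast; have : (0:ℝ) ≤ n := by positivity
                                              linarith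
    rw [div_le_iff₀ (by linarith)]
    have h2 : r ^ (n + 1) ≤ r ^ n := pow_le_pow_of_le_one hr3.1.le hr3.2.le (by omega)
    have h3 : 0 ≤ r ^ n := pow_nonneg hr3.1.le _
    calc r ^ (n + 1) * ‖cf w r K n‖ ≤ r ^ n * 3 := mul_le_mul h2 h1 (norm_nonneg _) h3
      _ = 3 * r ^ n * 1 := by ring
      _ ≤ 3 * r ^ n * ((n + 1 : ℕ) : ℝ) := mul_le_mul_of_nonneg_left hn (by positivity)
  have hgr := summable_geometric_of_lt_one hr3.1.le hr3.2
  have hgw := summable_geometric_of_lt_one hw0.le hw1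
  have hlow : S r (fun N => ‖bf w K N‖) - D - 2 ≤ ∑' n : ℕ, r ^ (n + 1) * ‖cf w r K n‖ / ((n + 1 : ℕ) : ℝ) := by
    have h1 : ∑' n : ℕ, (r ^ (n + 1) * ‖bf w K (n + 1)‖ / ((n + 1 : ℕ) : ℝ) - (1 - r) * D * r ^ n - (1 - w ^ 2) * w ^ n) ≤
        ∑' n : ℕ, r ^ (n + 1) * ‖cf w r K n‖ / ((n + 1 : ℕ) : ℝ) := by
      refine Summable.tsum_le_tsum (fun n => ?_) ((hSb'.sub (hgr.mul_left _)).sub (hgw.mul_left _)) hcs
      have h2 := cf_lower hw0 hw1 hr3.1 hr3.2.le hK0 n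
      rw [← hD] at h2
      have hn : (0:ℝ) < ((n + 1 : ℕ) : ℝ) := by positivity
      have h3 : 0 ≤ r ^ (n + 1) / ((n + 1 : ℕ) : ℝ) := div_nonneg (pow_nonneg hr3.1.le _) hn.le
      have h4 := mul_le_mul_of_nonneg_left h2 h3
      have e1 : r ^ (n + 1) / ((n + 1 : ℕ) : ℝ) * ‖cf w r K n‖ = r ^ (n + 1) * ‖cf w r K n‖ / ((n + 1 : ℕ) : ℝ) := by ring
      have e2 : r ^ (n + 1) / ((n + 1 : ℕ) : ℝ) * (‖bf w K (n + 1)‖ - (n + 1) * ((1 - r) * D) - (1 - w ^ 2) * (n + 1) * w ^ n) =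
        r ^ (n + 1) * ‖bf w K (n + 1)‖ / ((n + 1 : ℕ) : ℝ) - r ^ (n + 1) * ((1 - r) * D) - r ^ (n + 1) * ((1 - w ^ 2) * w ^ n) := by
        push_cast
        field_simp
      rw [e1, e2] at h4
      refine le_trans ?_ h4
      have h5 : r ^ (n + 1) ≤ r ^ n := pow_le_pow_of_le_one hr3.1.le hr3.2.le (by omega)
      have h6 : r ^ (n + 1) ≤ 1 := pow_le_one₀ hr3.1.le hr3.2.le
      have h7 : 0 ≤ (1 - r) * D := mul_nonneg (by linarith [hr3.2]) hD0.le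
      have h8 : 0 ≤ (1 - w ^ 2) * w ^ n := mul_nonneg (by nlinarith) (by positivity)
      have h9 := mul_le_mul_of_nonneg_right h5 h7
      have h10 := mul_le_mul_of_nonneg_right h6 h8
      linarith
    rw [((hSb'.sub (hgr.mul_left _)).tsum_sub (hgw.mul_left _)), hSb'.tsum_sub (hgr.mul_left _), tsum_mul_left, tsum_mul_left,
      tsum_geometric_of_lt_one hr3.1.le hr3.2, tsum_geometric_of_lt_one hw0.le hw1, ← hS] at h1
    have e1 : (1 - r) * D * (1 - r)⁻¹ = D := by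
      have : 1 - r ≠ 0 := by linarith [hr3.2]
      field_simp
    have e2 : (1 - w ^ 2) * (1 - w)⁻¹ = 1 + w := by
      have : 1 - w ≠ 0 := by linarith
      field_simp
      ring
    rw [e1, e2] at h1
    linarith
  -- conclusion
  have hs0 : 0 < K / Lam r := by positivity
  have hfin : C + 1 < (K / Lam r) * ∑' n : ℕ, r ^ (n + 1) * ‖cf w r K n‖ / ((n + 1 : ℕ) : ℝ) := by
    have h1 : (K / Lam r) * (Lam r / (8 * Real.sqrt K) - D - 2) ≤
        (K / Lam r) * ∑' n : ℕ, r ^ (n + 1) * ‖cf w r K n‖ / ((n + 1 : ℕ) : ℝ) := by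
      apply mul_le_mul_of_nonneg_left _ hs0.le
      have hr1' : Lam r / (8 * Real.sqrt K) ≤ S r (fun N => ‖bf w K N‖) := hr1
      linarith
    refine lt_of_lt_of_le ?_ h1
    have hsq : 0 < Real.sqrt K := Real.sqrt_pos.mpr hKp
    have e1 : (K / Lam r) * (Lam r / (8 * Real.sqrt K) - D - 2) = Real.sqrt K / 8 - (D + 2) * K / Lam r := by
      have hss : (K:ℝ) = Real.sqrt K * Real.sqrt K := (Real.mul_self_sqrt hKp.le).symm
      have : (K:ℝ) / (8 * Real.sqrt K) = Real.sqrt K / 8 := by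
        rw [div_eq_div_iff (by positivity) (by norm_num)]
        nth_rewrite 1 [hss]
        ring
      rw [← this]
      field_simp
      ring
    rw [e1]
    have h2 : (D + 2) * K / Lam r ≤ 1 := by
      rw [div_le_one hrL]
      linarith
    linarith
  have hts := (hcs.mul_left (K / Lam r)).hasSum.tendsto_sum_nat
  rw [tsum_mul_left] at hts
  obtain ⟨N, hN⟩ := (hts.eventually (lt_mem_nhds hfin)).exists
  refine ⟨K, r, N, hK2, hr3.1, hr3.2, hKL, ?_⟩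
  refine lt_of_lt_of_le (by linarith : C < C + 1) (hN.le.trans ?_)
  apply Finset.sum_le_sum
  intro n _
  have hnn : ‖(n:ℂ) + 1‖ = ((n + 1 : ℕ) : ℝ) := by
    rw [← Complex.norm_natCast (n + 1)]
    push_cast
    rfl
  rw [norm_div, norm_mul, hnn, Complex.norm_real, Real.norm_eq_abs, abs_of_pos hs0]
  have h1 : r ^ (n + 1) ≤ 1 := pow_le_one₀ hr3.1.le hr3.2.le
  have h2 : 0 ≤ (K / Lam r) * ‖cf w r K n‖ / ((n + 1 : ℕ) : ℝ) := by positivity
  calc (K / Lam r) * (r ^ (n + 1) * ‖cf w r K n‖ / ((n + 1 : ℕ) : ℝ))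
      = r ^ (n + 1) * ((K / Lam r) * ‖cf w r K n‖ / ((n + 1 : ℕ) : ℝ)) := by ring
    _ ≤ 1 * ((K / Lam r) * ‖cf w r K n‖ / ((n + 1 : ℕ) : ℝ)) := mul_le_mul_of_nonneg_right h1 h2
    _ = _ := one_mul _

end Pool.Agent.H840R2
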