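import Mathlib

/-!
Logarithmic Abel means of trigonometric sequences, and a lower bound for the first absolute mean
from the second and the fourth moment.
-/

open Filter Topology
open scoped ComplexConjugate

namespace Pool.Agent.H840R2

/-- the logarithmic weight -/
noncomputable def Lam (ρ : ℝ) : ℝ := -Real.log (1 - ρ)

lemma Lam_pos {ρ : ℝ} (h0 : 0 < ρ) (h1 : ρ < 1) : 0 < Lam ρ := by
  unfold Lam
  rw [neg_pos]
  exact Real.log_neg (by linarith) (by linarith)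

lemma Lam_tendsto : Tendsto Lam (𝓝[<] (1:ℝ)) atTop := by
  unfold Lam
  rw [tendsto_neg_atTop_iff]
  refine Real.tendsto_log_nhdsGT_zero.comp ?_
  refine tendsto_nhdsWithin_iff.mpr ⟨?_, ?_⟩
  · have : Tendsto (fun ρ : ℝ => 1 - ρ) (𝓝 1) (𝓝 (1 - 1)) := (continuous_const.sub continuous_id).tendsto 1
    rw [sub_self] at this
    exact this.mono_left nhdsWithin_le_nhds
  · filter_upwards [self_mem_nhdsWithin] with ρ hρ
    simpa using hρ

lemma ev_Ioo : ∀ᶠ ρ : ℝ in 𝓝[<] (1:ℝ), 0 < ρ ∧ ρ < 1 := by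
  have h1 : ∀ᶠ ρ : ℝ in 𝓝[<] (1:ℝ), 0 < ρ := nhdsWithin_le_nhds (lt_mem_nhds one_pos)
  filter_upwards [h1, self_mem_nhdsWithin] with ρ a b
  exact ⟨a, b⟩

lemma exp_mean {u : ℂ} (hu : ‖u‖ = 1) :
    Tendsto (fun ρ : ℝ => (∑' N : ℕ, (ρ:ℂ) ^ N * u ^ N / N) / (Lam ρ : ℂ)) (𝓝[<] (1:ℝ))
      (𝓝 (if u = 1 then 1 else 0)) := by
  have hsum : ∀ ρ : ℝ, 0 < ρ ∧ ρ < 1 → ∑' N : ℕ, (ρ:ℂ) ^ N * u ^ N / N = -Complex.log (1 - ρ * u) := by
    intro ρ hρ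
    have hn : ‖(ρ:ℂ) * u‖ < 1 := by
      rw [norm_mul, hu, mul_one, Complex.norm_real, Real.norm_eq_abs, abs_of_pos hρ.1]
      exact hρ.2
    have := (Complex.hasSum_taylorSeries_neg_log hn).tsum_eq
    rw [← this]
    congr 1
    ext N
    rw [mul_pow]
  split_ifs with h
  · refine tendsto_const_nhds.congr' ?_
    filter_upwards [ev_Ioo] with ρ hρ
    rw [hsum ρ hρ, h, mul_one]
    have h1 : -Complex.log (1 - (ρ:ℂ)) = (Lam ρ : ℂ) := by
      unfold Lam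
      rw [Complex.ofReal_neg, Complex.ofReal_log (by linarith)]
      push_cast
      rfl
    rw [h1, div_self]
    exact_mod_cast (Lam_pos hρ.1 hρ.2).ne'
  · have hre : u.re < 1 := by
      refine lt_of_le_of_ne ?_ ?_
      · rw [← hu]; exact Complex.re_le_norm u
      · intro hh
        apply h
        have h2 : u.re ^ 2 + u.im ^ 2 = 1 := by
          have := Complex.sq_norm u
          rw [hu, Complex.normSq_apply] at this
          nlinarith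
        rw [hh] at h2
        have h3 : u.im = 0 := by nlinarith
        exact Complex.ext (by simp [hh]) (by simp [h3])
    have h1 : Tendsto (fun ρ : ℝ => -Complex.log (1 - ρ * u)) (𝓝[<] (1:ℝ)) (𝓝 (-Complex.log (1 - (1:ℝ) * u))) := by
      have hc : ContinuousAt (fun ρ : ℝ => -Complex.log (1 - ρ * u)) 1 := by
        refine ContinuousAt.neg ?_
        refine ContinuousAt.clog (by fun_prop) ?_
        left
        simpa using hre
      exact hc.tendsto.mono_left nhdsWithin_le_nhds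
    have h2 : Tendsto (fun ρ : ℝ => ‖-Complex.log (1 - ρ * u)‖ / Lam ρ) (𝓝[<] (1:ℝ)) (𝓝 0) :=
      h1.norm.div_atTop Lam_tendsto
    rw [tendsto_zero_iff_norm_tendsto_zero]
    refine h2.congr' ?_
    filter_upwards [ev_Ioo] with ρ hρ
    rw [hsum ρ hρ, norm_div, Complex.norm_real, Real.norm_eq_abs, abs_of_pos (Lam_pos hρ.1 hρ.2)]

/-- the weighted sum -/
noncomputable def S (ρ : ℝ) (y : ℕ → ℝ) : ℝ := ∑' N : ℕ, ρ ^ N * y N / N

lemma S_summable {ρ : ℝ} (h0 : 0 < ρ) (h1 : ρ < 1) {y : ℕ → ℝ} {B : ℝ} (hy : ∀ N, |y N| ≤ B) :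
    Summable (fun N : ℕ => ρ ^ N * y N / N) := by
  refine Summable.of_norm_bounded ((summable_geometric_of_lt_one h0.le h1).mul_right B) (fun N => ?_)
  have hB : 0 ≤ B := (abs_nonneg _).trans (hy 0)
  rw [norm_div, norm_mul, Real.norm_eq_abs, Real.norm_eq_abs, abs_of_nonneg (by positivity : 0 ≤ ρ ^ N)]
  rcases Nat.eq_zero_or_pos N with h | h
  · subst h; simp [hB]
  · have hN : (1:ℝ) ≤ ‖(N:ℝ)‖ := by
      rw [Real.norm_eq_abs, abs_of_nonneg (by positivity)]; exact_mod_cast h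
    rw [div_le_iff₀ (by linarith)]
    have : ρ ^ N * |y N| ≤ ρ ^ N * B := mul_le_mul_of_nonneg_left (hy N) (by positivity)
    have h2 : 0 ≤ ρ ^ N * B := by positivity
    nlinarith

/-- the mean value of a finite combination of unimodular exponentials -/
lemma mean_tendsto {ι : Type*} [Fintype ι] (A u : ι → ℂ) (hu : ∀ i, ‖u i‖ = 1) (y : ℕ → ℝ)
    (hy : ∀ N, (y N : ℂ) = ∑ i, A i * u i ^ N) :
    Tendsto (fun ρ : ℝ => S ρ y / Lam ρ) (𝓝[<] (1:ℝ)) (𝓝 (∑ i, if u i = 1 then A i else 0).re) := by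
  have h1 : Tendsto (fun ρ : ℝ => ∑ i, A i * ((∑' N : ℕ, (ρ:ℂ) ^ N * u i ^ N / N) / (Lam ρ : ℂ))) (𝓝[<] (1:ℝ))
      (𝓝 (∑ i, A i * (if u i = 1 then 1 else 0))) :=
    tendsto_finsetSum _ (fun i _ => (exp_mean (hu i)).const_mul _)
  have h2 := (Complex.continuous_re.tendsto _).comp h1
  have e : (∑ i, A i * (if u i = 1 then 1 else 0)).re = (∑ i, if u i = 1 then A i else 0).re := by
    congr 1
    apply Finset.sum_congr rfl
    intro i _
    split_ifs <;> simp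
  rw [e] at h2
  refine h2.congr' ?_
  filter_upwards [ev_Ioo] with ρ hρ
  have hs : ∀ i, Summable (fun N : ℕ => A i * ((ρ:ℂ) ^ N * u i ^ N / N)) := by
    intro i
    refine Summable.mul_left _ ?_
    have hn : ‖(ρ:ℂ) * u i‖ < 1 := by
      rw [norm_mul, hu, mul_one, Complex.norm_real, Real.norm_eq_abs, abs_of_pos hρ.1]
      exact hρ.2
    refine (Complex.hasSum_taylorSeries_neg_log hn).summable.congr (fun N => ?_)
    rw [mul_pow]
  have h3 : ∑ i, A i * ((∑' N : ℕ, (ρ:ℂ) ^ N * u i ^ N / N) / (Lam ρ : ℂ)) =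
      ((S ρ y / Lam ρ : ℝ) : ℂ) := by
    have h4 : ((S ρ y : ℝ) : ℂ) = ∑' N : ℕ, ((ρ ^ N * y N / N : ℝ) : ℂ) := by
      unfold S; rw [Complex.ofReal_tsum]
    have h5 : ((S ρ y : ℝ) : ℂ) = ∑ i, A i * ∑' N : ℕ, (ρ:ℂ) ^ N * u i ^ N / N := by
      rw [h4]
      have : ∀ i ∈ Finset.univ, A i * ∑' N : ℕ, (ρ:ℂ) ^ N * u i ^ N / N =
          ∑' N : ℕ, A i * ((ρ:ℂ) ^ N * u i ^ N / N) := fun i _ => tsum_mul_left.symm
      rw [Finset.sum_congr rfl this, ← Summable.tsum_finsetSum (fun i _ => hs i)]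
      congr 1
      ext N
      push_cast
      rw [hy N, Finset.mul_sum, Finset.sum_div]
      apply Finset.sum_congr rfl
      intro i _
      ring
    push_cast
    rw [h5, Finset.sum_div]
    apply Finset.sum_congr rfl
    intro i _
    ring
  simp only [Function.comp_apply]
  rw [h3, Complex.ofReal_re]

/-- elementary inequality -/
lemma el_ineq {x l : ℝ} (hx : 0 ≤ x) (hl : 0 < l) : l * x ^ 2 - l ^ 3 / 4 * x ^ 4 ≤ x := by
  have h : 0 ≤ l * x := by positivity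
  set v := l * x with hv
  have h1 : v ^ 2 - v ^ 4 / 4 ≤ v := by
    have : 0 ≤ v * (v ^ 3 / 4 - v + 1) := by
      apply mul_nonneg h
      nlinarith [mul_nonneg h (sq_nonneg (v - 1)), sq_nonneg (v - 1), sq_nonneg (v - 3/2), mul_nonneg h (sq_nonneg (v - 3/2)),
        mul_nonneg h (sq_nonneg (v - 6/5))]
    nlinarith
  have h2 : l * (l * x ^ 2 - l ^ 3 / 4 * x ^ 4) ≤ l * x := by
    have : l * (l * x ^ 2 - l ^ 3 / 4 * x ^ 4) = v ^ 2 - v ^ 4 / 4 := by rw [hv]; ring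
    rw [this, ← hv]; exact h1
  exact le_of_mul_le_mul_left h2 hl

/-- The lower bound for the first absolute mean of b_N = K^{-1} Σ α_k ξ_k^N with distinct unimodular ξ_k of
small multiplicative energy. -/
theorem first_mean {ι : Type*} [Fintype ι] [DecidableEq ι] [Nonempty ι] (α ξ : ι → ℂ) (hα : ∀ k, ‖α k‖ = 1)
    (hξ : ∀ k, ‖ξ k‖ = 1) (hinj : Function.Injective ξ)
    (hE : ((Finset.univ.filter (fun q : (ι × ι) × (ι × ι) => ξ q.1.1 * ξ q.1.2 = ξ q.2.1 * ξ q.2.2)).card : ℝ)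
      ≤ 3 * (Fintype.card ι : ℝ) ^ 2) :
    ∀ᶠ ρ : ℝ in 𝓝[<] (1:ℝ), Lam ρ / (8 * Real.sqrt (Fintype.card ι)) ≤
      S ρ (fun N => ‖(Fintype.card ι : ℂ)⁻¹ * ∑ k, α k * ξ k ^ N‖) := by
  set K : ℝ := (Fintype.card ι : ℝ) with hK
  have hKpos : 0 < K := by
    rw [hK]; exact_mod_cast Fintype.card_pos
  set b : ℕ → ℂ := fun N => (Fintype.card ι : ℂ)⁻¹ * ∑ k, α k * ξ k ^ N with hb
  have hb1 : ∀ N, ‖b N‖ ≤ 1 := by
    intro N
    simp only [hb]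
    rw [norm_mul, norm_inv, Complex.norm_natCast]
    have : ‖∑ k, α k * ξ k ^ N‖ ≤ K := by
      refine (norm_sum_le _ _).trans ?_
      simp [hα, hξ, hK]
    rw [inv_mul_le_iff₀ hKpos, mul_one]
    exact this
  have hξc : ∀ k, ξ k * conj (ξ k) = 1 := by
    intro k; rw [Complex.mul_conj, Complex.normSq_eq_norm_sq, hξ]; simp
  have hαc : ∀ k, α k * conj (α k) = 1 := by
    intro k; rw [Complex.mul_conj, Complex.normSq_eq_norm_sq, hα]; simp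
  -- second moment
  have hb2 : ∀ N, ((‖b N‖ ^ 2 : ℝ) : ℂ) = ∑ q : ι × ι, ((K:ℂ)⁻¹ ^ 2 * (α q.1 * conj (α q.2))) * (ξ q.1 * conj (ξ q.2)) ^ N := by
    intro N
    have h1 : ((‖b N‖ ^ 2 : ℝ) : ℂ) = b N * conj (b N) := by
      rw [Complex.mul_conj, Complex.normSq_eq_norm_sq]
    rw [h1, Fintype.sum_prod_type]
    simp only [hb, map_mul, map_sum, map_inv₀, map_natCast, map_pow]
    rw [show ((Fintype.card ι : ℂ)⁻¹ * ∑ k, α k * ξ k ^ N) * ((Fintype.card ι : ℂ)⁻¹ * ∑ k, conj (α k) * conj (ξ k) ^ N) =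
      (Fintype.card ι : ℂ)⁻¹ ^ 2 * ((∑ k, α k * ξ k ^ N) * ∑ k, conj (α k) * conj (ξ k) ^ N) by ring]
    rw [Finset.sum_mul_sum, Finset.mul_sum]
    apply Finset.sum_congr rfl
    intro k _
    rw [Finset.mul_sum]
    apply Finset.sum_congr rfl
    intro l _
    rw [hK, Complex.ofReal_natCast, mul_pow]
    ring
  have m2 := mean_tendsto (fun q : ι × ι => ((K:ℂ)⁻¹ ^ 2 * (α q.1 * conj (α q.2)))) (fun q => ξ q.1 * conj (ξ q.2))
    (fun q => by rw [norm_mul, RCLike.norm_conj, hξ, hξ, one_mul]) (fun N => ‖b N‖ ^ 2) hb2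
  have v2 : (∑ q : ι × ι, if ξ q.1 * conj (ξ q.2) = 1 then ((K:ℂ)⁻¹ ^ 2 * (α q.1 * conj (α q.2))) else 0).re = K⁻¹ := by
    have hiff : ∀ k l : ι, ξ k * conj (ξ l) = 1 ↔ k = l := by
      intro k l
      constructor
      · intro h
        apply hinj
        calc ξ k = ξ k * (ξ l * conj (ξ l)) := by rw [hξc, mul_one]
          _ = (ξ k * conj (ξ l)) * ξ l := by ring
          _ = ξ l := by rw [h, one_mul]
      · rintro rfl; exact hξc k
    rw [Fintype.sum_prod_type]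
    simp only [hiff]
    have : ∀ k : ι, (∑ l : ι, if k = l then ((K:ℂ)⁻¹ ^ 2 * (α k * conj (α l))) else 0) = (K:ℂ)⁻¹ ^ 2 := by
      intro k
      rw [Finset.sum_ite_eq Finset.univ k (fun l => (K:ℂ)⁻¹ ^ 2 * (α k * conj (α l)))]
      simp [hαc]
    simp only [this]
    rw [Finset.sum_const, Finset.card_univ, nsmul_eq_mul]
    have hK' : (Fintype.card ι : ℂ) = (K:ℂ) := by rw [hK]; simp
    have hK0 : (K:ℂ) ≠ 0 := by exact_mod_cast hKpos.ne'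
    rw [hK', show (K:ℂ) * (K:ℂ)⁻¹ ^ 2 = ((K⁻¹ : ℝ) : ℂ) by push_cast; field_simp]
    exact Complex.ofReal_re _
  rw [v2] at m2
  -- fourth moment
  have hb4 : ∀ N, ((‖b N‖ ^ 4 : ℝ) : ℂ) = ∑ q : (ι × ι) × (ι × ι),
      ((K:ℂ)⁻¹ ^ 4 * ((α q.1.1 * α q.1.2) * conj (α q.2.1 * α q.2.2))) *
        ((ξ q.1.1 * ξ q.1.2) * conj (ξ q.2.1 * ξ q.2.2)) ^ N := by
    intro N
    have h1 : ((‖b N‖ ^ 4 : ℝ) : ℂ) = (b N * b N) * conj (b N * b N) := by
      rw [Complex.mul_conj, Complex.normSq_eq_norm_sq, norm_mul (b N) (b N)]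
      push_cast
      ring
    have h2 : b N * b N = (K:ℂ)⁻¹ ^ 2 * ∑ p : ι × ι, (α p.1 * α p.2) * (ξ p.1 * ξ p.2) ^ N := by
      rw [Fintype.sum_prod_type]
      simp only [hb]
      rw [show ((Fintype.card ι : ℂ)⁻¹ * ∑ k, α k * ξ k ^ N) * ((Fintype.card ι : ℂ)⁻¹ * ∑ k, α k * ξ k ^ N) =
        (Fintype.card ι : ℂ)⁻¹ ^ 2 * ((∑ k, α k * ξ k ^ N) * ∑ k, α k * ξ k ^ N) by ring]
      rw [Finset.sum_mul_sum, hK, Complex.ofReal_natCast]
      congr 1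
      apply Finset.sum_congr rfl
      intro k _
      apply Finset.sum_congr rfl
      intro l _
      rw [mul_pow]
      ring
    rw [h1, h2]
    simp only [map_mul, map_sum, map_inv₀, map_pow, Complex.conj_ofReal]
    symm
    rw [Fintype.sum_prod_type]
    symm
    rw [show ((K:ℂ)⁻¹ ^ 2 * ∑ p : ι × ι, (α p.1 * α p.2) * (ξ p.1 * ξ p.2) ^ N) *
      ((K:ℂ)⁻¹ ^ 2 * ∑ p : ι × ι, (conj (α p.1) * conj (α p.2)) * (conj (ξ p.1) * conj (ξ p.2)) ^ N) =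
      (K:ℂ)⁻¹ ^ 4 * ((∑ p : ι × ι, (α p.1 * α p.2) * (ξ p.1 * ξ p.2) ^ N) *
      ∑ p : ι × ι, (conj (α p.1) * conj (α p.2)) * (conj (ξ p.1) * conj (ξ p.2)) ^ N) by ring]
    rw [Finset.sum_mul_sum, Finset.mul_sum]
    apply Finset.sum_congr rfl
    intro k _
    rw [Finset.mul_sum]
    apply Finset.sum_congr rfl
    intro l _
    rw [mul_pow (ξ k.1 * ξ k.2)]
    ring
  have m4 := mean_tendsto (fun q : (ι × ι) × (ι × ι) => ((K:ℂ)⁻¹ ^ 4 * ((α q.1.1 * α q.1.2) * conj (α q.2.1 * α q.2.2))))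
    (fun q => ((ξ q.1.1 * ξ q.1.2) * conj (ξ q.2.1 * ξ q.2.2)))
    (fun q => by rw [norm_mul, RCLike.norm_conj, norm_mul, norm_mul, hξ, hξ, hξ, hξ]; norm_num) (fun N => ‖b N‖ ^ 4) hb4
  have v4 : (∑ q : (ι × ι) × (ι × ι), if ((ξ q.1.1 * ξ q.1.2) * conj (ξ q.2.1 * ξ q.2.2)) = 1 then
      ((K:ℂ)⁻¹ ^ 4 * ((α q.1.1 * α q.1.2) * conj (α q.2.1 * α q.2.2))) else 0).re ≤ 3 * K⁻¹ ^ 2 := by
    refine (Complex.re_le_norm _).trans ?_
    have h1 : ∀ q : (ι × ι) × (ι × ι), ‖(if ((ξ q.1.1 * ξ q.1.2) * conj (ξ q.2.1 * ξ q.2.2)) = 1 then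
      ((K:ℂ)⁻¹ ^ 4 * ((α q.1.1 * α q.1.2) * conj (α q.2.1 * α q.2.2))) else 0)‖ =
      K⁻¹ ^ 4 * (if ξ q.1.1 * ξ q.1.2 = ξ q.2.1 * ξ q.2.2 then 1 else 0) := by
      intro q
      have hiff : ((ξ q.1.1 * ξ q.1.2) * conj (ξ q.2.1 * ξ q.2.2)) = 1 ↔ ξ q.1.1 * ξ q.1.2 = ξ q.2.1 * ξ q.2.2 := by
        have hc : (ξ q.2.1 * ξ q.2.2) * conj (ξ q.2.1 * ξ q.2.2) = 1 := by
          rw [map_mul]
          calc _ = (ξ q.2.1 * conj (ξ q.2.1)) * (ξ q.2.2 * conj (ξ q.2.2)) := by ring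
            _ = 1 := by rw [hξc, hξc, one_mul]
        constructor
        · intro h
          calc ξ q.1.1 * ξ q.1.2 = (ξ q.1.1 * ξ q.1.2) * ((ξ q.2.1 * ξ q.2.2) * conj (ξ q.2.1 * ξ q.2.2)) := by rw [hc, mul_one]
            _ = ((ξ q.1.1 * ξ q.1.2) * conj (ξ q.2.1 * ξ q.2.2)) * (ξ q.2.1 * ξ q.2.2) := by ring
            _ = _ := by rw [h, one_mul]
        · intro h; rw [h, hc]
      by_cases hq : ξ q.1.1 * ξ q.1.2 = ξ q.2.1 * ξ q.2.2
      · rw [if_pos (hiff.mpr hq), if_pos hq, norm_mul, norm_mul, RCLike.norm_conj, norm_mul, norm_mul, hα, hα, hα, hα,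
          norm_pow, norm_inv, Complex.norm_real, Real.norm_eq_abs, abs_of_pos hKpos]
        ring
      · rw [if_neg (fun h => hq (hiff.mp h)), if_neg hq]; simp
    refine (norm_sum_le _ _).trans ?_
    rw [Finset.sum_congr rfl (fun q _ => h1 q), ← Finset.mul_sum, Finset.sum_boole]
    calc K⁻¹ ^ 4 * _ ≤ K⁻¹ ^ 4 * (3 * K ^ 2) := mul_le_mul_of_nonneg_left hE (by positivity)
      _ = 3 * K⁻¹ ^ 2 := by field_simp
  -- the combination
  have hs : 0 < Real.sqrt K := Real.sqrt_pos.mpr hKpos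
  have hss : Real.sqrt K ^ 2 = K := Real.sq_sqrt hKpos.le
  have m := (m2.const_mul (Real.sqrt K)).sub (m4.const_mul (Real.sqrt K ^ 3 / 4))
  have hlim : 1 / (8 * Real.sqrt K) < Real.sqrt K * K⁻¹ - Real.sqrt K ^ 3 / 4 *
      (∑ q : (ι × ι) × (ι × ι), if ((ξ q.1.1 * ξ q.1.2) * conj (ξ q.2.1 * ξ q.2.2)) = 1 then
      ((K:ℂ)⁻¹ ^ 4 * ((α q.1.1 * α q.1.2) * conj (α q.2.1 * α q.2.2))) else 0).re := by
    have h1 : Real.sqrt K ^ 3 / 4 * (∑ q : (ι × ι) × (ι × ι), if ((ξ q.1.1 * ξ q.1.2) * conj (ξ q.2.1 * ξ q.2.2)) = 1 then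
      ((K:ℂ)⁻¹ ^ 4 * ((α q.1.1 * α q.1.2) * conj (α q.2.1 * α q.2.2))) else 0).re ≤ Real.sqrt K ^ 3 / 4 * (3 * K⁻¹ ^ 2) :=
      mul_le_mul_of_nonneg_left v4 (by positivity)
    have h2 : 1 / (8 * Real.sqrt K) < Real.sqrt K * K⁻¹ - Real.sqrt K ^ 3 / 4 * (3 * K⁻¹ ^ 2) := by
      have e1 : Real.sqrt K * K⁻¹ = (Real.sqrt K)⁻¹ := by
        nth_rewrite 2 [← hss]; field_simp
      have e2 : Real.sqrt K ^ 3 / 4 * (3 * K⁻¹ ^ 2) = 3 / 4 * (Real.sqrt K)⁻¹ := by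
        nth_rewrite 2 [← hss]; field_simp
      rw [e1, e2]
      have e3 : 1 / (8 * Real.sqrt K) = 1 / 8 * (Real.sqrt K)⁻¹ := by field_simp
      rw [e3]
      have : 0 < (Real.sqrt K)⁻¹ := by positivity
      linarith
    linarith
  have hev := m.eventually (lt_mem_nhds hlim)
  filter_upwards [hev, ev_Ioo] with ρ hρ hρ1
  have hL := Lam_pos hρ1.1 hρ1.2
  have s1 : Summable (fun N : ℕ => ρ ^ N * ‖b N‖ / N) :=
    S_summable hρ1.1 hρ1.2 (B := 1) (fun N => by rw [abs_of_nonneg (norm_nonneg _)]; exact hb1 N)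
  have s2 : Summable (fun N : ℕ => ρ ^ N * ‖b N‖ ^ 2 / N) :=
    S_summable hρ1.1 hρ1.2 (B := 1) (fun N => by
      rw [abs_of_nonneg (by positivity)]; exact pow_le_one₀ (norm_nonneg _) (hb1 N))
  have s4 : Summable (fun N : ℕ => ρ ^ N * ‖b N‖ ^ 4 / N) :=
    S_summable hρ1.1 hρ1.2 (B := 1) (fun N => by
      rw [abs_of_nonneg (by positivity)]; exact pow_le_one₀ (norm_nonneg _) (hb1 N))
  have key : Real.sqrt K * S ρ (fun N => ‖b N‖ ^ 2) - Real.sqrt K ^ 3 / 4 * S ρ (fun N => ‖b N‖ ^ 4) ≤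
      S ρ (fun N => ‖b N‖) := by
    unfold S
    rw [← tsum_mul_left, ← tsum_mul_left, ← (s2.mul_left _).tsum_sub (s4.mul_left _)]
    refine ((s2.mul_left _).sub (s4.mul_left _)).tsum_le_tsum (fun N => ?_) s1
    have h1 := el_ineq (norm_nonneg (b N)) hs
    have h2 : 0 ≤ ρ ^ N / N := by have := hρ1.1; positivity
    calc Real.sqrt K * (ρ ^ N * ‖b N‖ ^ 2 / N) - Real.sqrt K ^ 3 / 4 * (ρ ^ N * ‖b N‖ ^ 4 / N)
        = (ρ ^ N / N) * (Real.sqrt K * ‖b N‖ ^ 2 - Real.sqrt K ^ 3 / 4 * ‖b N‖ ^ 4) := by ring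
      _ ≤ (ρ ^ N / N) * ‖b N‖ := mul_le_mul_of_nonneg_left h1 h2
      _ = ρ ^ N * ‖b N‖ / N := by ring
  have h5 : Lam ρ / (8 * Real.sqrt K) < Real.sqrt K * S ρ (fun N => ‖b N‖ ^ 2) - Real.sqrt K ^ 3 / 4 * S ρ (fun N => ‖b N‖ ^ 4) := by
    have := mul_lt_mul_of_pos_right hρ hL
    calc Lam ρ / (8 * Real.sqrt K) = 1 / (8 * Real.sqrt K) * Lam ρ := by ring
      _ < _ := this
      _ = _ := by field_simp
  linarith

end Pool.Agent.H840R2
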