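import Pool.Agent.H840R2.MoebLower

/-!
Power series on the unit disc, the building blocks and their compositions, univalence from positive real part.
-/

open Filter Topology Metric Set
open scoped ComplexConjugate ENNReal NNReal

namespace Pool.Agent.H840R2

lemma ps_hasFPowerSeries {P : ℂ → ℂ} {A : ℕ → ℂ} (h : ∀ z ∈ ball (0:ℂ) 1, HasSum (fun n => A n * z ^ n) (P z)) :
    HasFPowerSeriesOnBall P (FormalMultilinearSeries.ofScalars ℂ A) 0 1 := by
  refine ⟨?_, one_pos, ?_⟩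
  · refine ENNReal.le_of_forall_nnreal_lt (fun r hr => ?_)
    have hr1 : (r:ℝ) < 1 := by exact_mod_cast hr
    refine FormalMultilinearSeries.le_radius_of_tendsto (l := 0) _ ?_
    have h1 := (h (r:ℂ) (by simp [hr1])).summable.tendsto_atTop_zero.norm
    rw [norm_zero] at h1
    refine h1.congr (fun n => ?_)
    rw [FormalMultilinearSeries.ofScalars_norm, norm_mul, norm_pow]
    simp
  · intro y hy
    have hy' : y ∈ ball (0:ℂ) 1 := by
      have : Metric.eball (0:ℂ) 1 = ball 0 1 := by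
        rw [← ENNReal.ofReal_one, Metric.eball_ofReal]
      rw [← this]; exact hy
    have := h y hy'
    rw [zero_add, FormalMultilinearSeries.ofScalars_apply_eq']
    simpa [smul_eq_mul] using this

lemma ps_differentiableOn {P : ℂ → ℂ} {A : ℕ → ℂ} (h : ∀ z ∈ ball (0:ℂ) 1, HasSum (fun n => A n * z ^ n) (P z)) :
    DifferentiableOn ℂ P (ball 0 1) := by
  have h1 := (ps_hasFPowerSeries h).differentiableOn
  rwa [← ENNReal.ofReal_one, Metric.eball_ofReal] at h1

/-- uniqueness of the power series -/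
lemma ps_coeff {g : ℂ → ℂ} {C : ℕ → ℂ} (h : ∀ z ∈ ball (0:ℂ) 1, HasSum (fun m => C m * z ^ m) (g z)) (m : ℕ) :
    iteratedDeriv m g 0 / (m.factorial : ℂ) = C m := by
  have h1 : HasFPowerSeriesAt g (FormalMultilinearSeries.ofScalars ℂ C) 0 := (ps_hasFPowerSeries h).hasFPowerSeriesAt
  have h2 := h1.analyticAt.hasFPowerSeriesAt
  have h3 := h1.eq_formalMultilinearSeries h2
  have h4 := congrArg (fun p => FormalMultilinearSeries.coeff p m) h3
  simp only [FormalMultilinearSeries.coeff_ofScalars] at h4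
  exact h4.symm

/-- Taylor coefficients of a primitive -/
lemma prim_coeff {f P : ℂ → ℂ} {A : ℕ → ℂ} (hf : ∀ z ∈ ball (0:ℂ) 1, HasDerivAt f (P z) z)
    (h : ∀ z ∈ ball (0:ℂ) 1, HasSum (fun n => A n * z ^ n) (P z)) (n : ℕ) :
    iteratedDeriv (n + 1) f 0 / ((n + 1).factorial : ℂ) = A n / ((n:ℂ) + 1) := by
  rw [iteratedDeriv_succ']
  have h1 : deriv f =ᶠ[𝓝 0] P := by
    filter_upwards [ball_mem_nhds (0:ℂ) one_pos] with z hz
    exact (hf z hz).deriv
  rw [h1.iteratedDeriv_eq n, Nat.factorial_succ, ← ps_coeff h n]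
  have h2 : ((n:ℂ) + 1) ≠ 0 := by exact_mod_cast Nat.succ_ne_zero n
  have h3 : (n.factorial : ℂ) ≠ 0 := by exact_mod_cast n.factorial_ne_zero
  push_cast
  field_simp

/-- exchanging the order of summation -/
lemma fubini {η : ℕ → ℝ} (h0 : ∀ j, 0 ≤ η j) (hη : Summable η) {a : ℕ → ℕ → ℂ} {B : ℝ} (ha : ∀ j n, ‖a j n‖ ≤ B)
    {h : ℕ → ℂ} {z : ℂ} (hz : ‖z‖ < 1) (hs : ∀ j, HasSum (fun n => a j n * z ^ n) (h j)) :
    HasSum (fun n => (∑' j, (η j : ℂ) * a j n) * z ^ n) (∑' j, (η j : ℂ) * h j) ∧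
      Summable (fun j => (η j : ℂ) * h j) := by
  have hB : 0 ≤ B := (norm_nonneg _).trans (ha 0 0)
  have hsum : Summable (fun p : ℕ × ℕ => (η p.1 : ℂ) * (a p.1 p.2 * z ^ p.2)) := by
    have hg := (summable_geometric_of_lt_one (norm_nonneg z) hz).mul_left B
    have h1 : Summable (fun p : ℕ × ℕ => η p.1 * (B * ‖z‖ ^ p.2)) :=
      hη.mul_of_nonneg hg h0 (fun n => by positivity)
    refine Summable.of_norm_bounded h1 (fun p => ?_)
    rw [norm_mul, norm_mul, norm_pow, Complex.norm_real, Real.norm_eq_abs, abs_of_nonneg (h0 _)]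
    exact mul_le_mul_of_nonneg_left (mul_le_mul_of_nonneg_right (ha _ _) (by positivity)) (h0 _)
  have h1 : ∀ j, ∑' n, (η j : ℂ) * (a j n * z ^ n) = (η j : ℂ) * h j := fun j => by
    rw [tsum_mul_left, (hs j).tsum_eq]
  have h2 : ∀ n, ∑' j, (η j : ℂ) * (a j n * z ^ n) = (∑' j, (η j : ℂ) * a j n) * z ^ n := fun n => by
    rw [← tsum_mul_right]
    congr 1
    ext j
    ring
  have hswap : Summable (fun p : ℕ × ℕ => (η p.2 : ℂ) * (a p.2 p.1 * z ^ p.1)) := by
    have := (Equiv.prodComm ℕ ℕ).summable_iff.mpr hsum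
    exact this
  constructor
  · have h3 : Summable (fun n => ∑' j, (η j : ℂ) * (a j n * z ^ n)) := hswap.prod
    have h4 : ∑' n, ∑' j, (η j : ℂ) * (a j n * z ^ n) = ∑' j, ∑' n, (η j : ℂ) * (a j n * z ^ n) :=
      (Summable.tsum_comm (f := fun j n => (η j : ℂ) * (a j n * z ^ n)) hsum)
    have h5 := h3.hasSum
    rw [h4] at h5
    simp only [h1, h2] at h5
    exact h5
  · have h3 : Summable (fun j => ∑' n, (η j : ℂ) * (a j n * z ^ n)) := hsum.prod
    simpa only [h1] using h3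

/-- injectivity from positive real part of the derivative -/
lemma noshiro {f P : ℂ → ℂ} (hf : ∀ z ∈ ball (0:ℂ) 1, HasDerivAt f (P z) z) (hP : ∀ z ∈ ball (0:ℂ) 1, 0 < (P z).re) :
    InjOn f (ball 0 1) := by
  intro a ha b hb hab
  by_contra hne
  have hba : b - a ≠ 0 := sub_ne_zero.mpr (Ne.symm hne)
  have hseg : ∀ t ∈ Icc (0:ℝ) 1, a + (t:ℂ) * (b - a) ∈ ball (0:ℂ) 1 := by
    intro t ht
    have := (convex_ball (0:ℂ) 1) ha hb (a := 1 - t) (b := t) (by linarith [ht.2]) ht.1 (by ring)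
    have e : (1 - t) • a + t • b = a + (t:ℂ) * (b - a) := by
      simp only [Complex.real_smul]; push_cast; ring
    rwa [e] at this
  have hd : ∀ t ∈ Icc (0:ℝ) 1, HasDerivAt (fun t : ℝ => (f (a + (t:ℂ) * (b - a)) / (b - a)).re)
      ((P (a + (t:ℂ) * (b - a))).re) t := by
    intro t ht
    have h1 : HasDerivAt (fun s : ℝ => a + (s:ℂ) * (b - a)) (b - a) t := by
      have := ((Complex.ofRealCLM.hasDerivAt (x := t)).mul_const (b - a)).const_add a
      simpa using this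
    have h2 := HasDerivAt.scomp (𝕜 := ℝ) t (hf _ (hseg t ht)) h1
    have h3 : HasDerivAt (fun s : ℝ => f (a + (s:ℂ) * (b - a)) / (b - a)) (P (a + (t:ℂ) * (b - a))) t := by
      have h4 := h2.div_const (b - a)
      have e : (b - a) • P (a + (t:ℂ) * (b - a)) / (b - a) = P (a + (t:ℂ) * (b - a)) := by
        rw [smul_eq_mul]; field_simp
      rw [e] at h4
      exact h4
    have h5 := (Complex.reCLM.hasFDerivAt (x := f (a + (t:ℂ) * (b - a)) / (b - a))).comp_hasDerivAt t h3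
    exact h5
  obtain ⟨c, hc, hc0⟩ := exists_hasDerivAt_eq_zero (f := fun t : ℝ => (f (a + (t:ℂ) * (b - a)) / (b - a)).re)
    (f' := fun t => (P (a + (t:ℂ) * (b - a))).re) (a := 0) (b := 1) one_pos
    (fun t ht => (hd t ht).continuousAt.continuousWithinAt) (by
      simp only [Complex.ofReal_zero, zero_mul, add_zero, Complex.ofReal_one, one_mul, add_sub_cancel]
      rw [hab])
    (fun t ht => hd t (Ioo_subset_Icc_self ht))
  exact absurd hc0 (hP _ (hseg c (Ioo_subset_Icc_self hc))).ne'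

lemma re_inv_ge {u : ℂ} (hu : ‖u‖ < 1) : 1 / 2 ≤ ((1 - u)⁻¹).re := by
  have h1 : u.re < 1 := lt_of_le_of_lt (Complex.re_le_norm u) hu
  have h2 : Complex.normSq u < 1 := by
    rw [Complex.normSq_eq_norm_sq]; nlinarith [norm_nonneg u]
  rw [Complex.inv_re]
  have h3 : Complex.normSq (1 - u) = 1 - 2 * u.re + Complex.normSq u := by
    simp [Complex.normSq_apply]; ring
  have h4 : 0 < Complex.normSq (1 - u) := by
    rw [Complex.normSq_pos]
    intro h
    have : u.re = 1 := by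
      have := congrArg Complex.re h
      simp at this; linarith
    linarith
  rw [le_div_iff₀ h4, h3]
  simp only [Complex.sub_re, Complex.one_re]
  linarith

/-- the building block for the derivative -/
noncomputable def Hf (r : ℝ) (K : ℕ) (z : ℂ) : ℂ :=
  (r:ℂ) * ((K:ℂ)⁻¹ * ∑ k : Fin K, (1 - (r:ℂ) * zt K k * z)⁻¹) - r

/-- its Taylor coefficients -/
noncomputable def af (r : ℝ) (K n : ℕ) : ℂ := if n = 0 then 0 else if K ∣ n then (r:ℂ) ^ (n + 1) else 0

lemma arg_norm {r : ℝ} (hr0 : 0 < r) (hr1 : r ≤ 1) {ζ z : ℂ} (hζ : ‖ζ‖ = 1) (hz : ‖z‖ < 1) : ‖(r:ℂ) * ζ * z‖ < 1 := by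
  rw [norm_mul, norm_mul, hζ, Complex.norm_real, Real.norm_eq_abs, abs_of_pos hr0, mul_one]
  nlinarith [norm_nonneg z]

lemma Hf_hasSum {r : ℝ} (hr0 : 0 < r) (hr1 : r ≤ 1) {K : ℕ} (hK : K ≠ 0) {z : ℂ} (hz : ‖z‖ < 1) :
    HasSum (fun n => af r K n * z ^ n) (Hf r K z) := by
  have hKC : (K:ℂ) ≠ 0 := by exact_mod_cast hK
  have h1 : ∀ k ∈ (Finset.univ : Finset (Fin K)), HasSum (fun n : ℕ => ((r:ℂ) * zt K k * z) ^ n) (1 - (r:ℂ) * zt K k * z)⁻¹ :=
    fun k _ => hasSum_geometric_of_norm_lt_one (arg_norm hr0 hr1 (zt_norm hK k) hz)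
  have h2 := ((hasSum_sum h1).mul_left (K:ℂ)⁻¹).mul_left (r:ℂ)
  have h3 : HasSum (fun n : ℕ => if n = 0 then (r:ℂ) else 0) (r:ℂ) := hasSum_ite_eq 0 (r:ℂ)
  have h4 := h2.sub h3
  unfold Hf
  refine h4.congr_fun (fun n => ?_)
  have h5 : ∑ k : Fin K, ((r:ℂ) * zt K k * z) ^ n = (r:ℂ) ^ n * z ^ n * (if K ∣ n then (K:ℂ) else 0) := by
    rw [← zt_sum hK n, Finset.mul_sum]
    apply Finset.sum_congr rfl
    intro k _
    rw [mul_pow, mul_pow]
    ring
  rw [h5]
  unfold af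
  rcases Nat.eq_zero_or_pos n with h | h
  · subst h
    simp [hKC]
  · have h' : n ≠ 0 := by omega
    simp only [if_neg h']
    split_ifs with h6
    · rw [sub_zero]
      field_simp
      ring
    · simp

lemma Hf_re {r : ℝ} (hr0 : 0 < r) (hr1 : r ≤ 1) {K : ℕ} (hK : K ≠ 0) {z : ℂ} (hz : ‖z‖ < 1) :
    -(1 / 2) ≤ (Hf r K z).re := by
  have hKp : (0:ℝ) < K := by exact_mod_cast Nat.pos_of_ne_zero hK
  have h1 : (K:ℝ) / 2 ≤ (∑ k : Fin K, (1 - (r:ℂ) * zt K k * z)⁻¹).re := by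
    rw [Complex.re_sum]
    calc (K:ℝ) / 2 = ∑ k : Fin K, (1 / 2 : ℝ) := by simp; ring
      _ ≤ _ := Finset.sum_le_sum (fun k _ => re_inv_ge (arg_norm hr0 hr1 (zt_norm hK k) hz))
  have h2 : (Hf r K z).re = r * ((K:ℝ)⁻¹ * (∑ k : Fin K, (1 - (r:ℂ) * zt K k * z)⁻¹).re) - r := by
    unfold Hf
    rw [Complex.sub_re, Complex.re_ofReal_mul, Complex.ofReal_re]
    congr 2
    have : ((K:ℂ)⁻¹) = (((K:ℝ)⁻¹ : ℝ) : ℂ) := by push_cast; rfl
    rw [this, Complex.re_ofReal_mul]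
  rw [h2]
  have h3 : 1 / 2 ≤ (K:ℝ)⁻¹ * (∑ k : Fin K, (1 - (r:ℂ) * zt K k * z)⁻¹).re := by
    rw [le_inv_mul_iff₀ hKp]; linarith
  nlinarith

lemma af_norm_le {r : ℝ} (hr0 : 0 < r) (hr1 : r ≤ 1) (K n : ℕ) : ‖af r K n‖ ≤ 1 := by
  unfold af
  split_ifs
  · simp
  · rw [norm_pow, Complex.norm_real, Real.norm_eq_abs, abs_of_pos hr0]
    exact pow_le_one₀ hr0.le hr1
  · simp

/-- the weighted sum of the coefficients of a building block -/
lemma af_sum {r : ℝ} (hr0 : 0 < r) (hr1 : r < 1) {K : ℕ} (hK : K ≠ 0) (N : ℕ) :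
    ∑ n ∈ Finset.range N, ‖af r K n‖ / ((n:ℝ) + 1) ≤ Lam r / K := by
  have hKp : (0:ℝ) < K := by exact_mod_cast Nat.pos_of_ne_zero hK
  have hls : HasSum (fun m : ℕ => (r ^ K) ^ (m + 1) / ((m:ℝ) + 1)) (-Real.log (1 - r ^ K)) :=
    Real.hasSum_pow_div_log_of_abs_lt_one (by
      rw [abs_of_nonneg (by positivity)]
      exact pow_lt_one₀ hr0.le hr1 hK)
  have hlog : -Real.log (1 - r ^ K) ≤ Lam r := by
    unfold Lam
    have h1 : r ^ K ≤ r := by
      calc r ^ K ≤ r ^ 1 := pow_le_pow_of_le_one hr0.le hr1.le (Nat.pos_of_ne_zero hK)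
        _ = r := pow_one r
    have := Real.log_le_log (by linarith : 0 < 1 - r) (by linarith : 1 - r ≤ 1 - r ^ K)
    linarith
  -- compare the finite sum with the image of multiples of K
  have h1 : ∑ n ∈ Finset.range N, ‖af r K n‖ / ((n:ℝ) + 1) ≤
      ∑ m ∈ Finset.range N, (r ^ K) ^ (m + 1) / ((m:ℝ) + 1) / K := by
    have h2 : ∑ n ∈ Finset.range N, ‖af r K n‖ / ((n:ℝ) + 1) =
        ∑ n ∈ (Finset.range N).filter (fun n => n ≠ 0 ∧ K ∣ n), ‖af r K n‖ / ((n:ℝ) + 1) := by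
      rw [Finset.sum_filter]
      apply Finset.sum_congr rfl
      intro n _
      split_ifs with h
      · rfl
      · unfold af
        by_cases h0 : n = 0
        · simp [h0]
        · have : ¬ K ∣ n := fun hd => h ⟨h0, hd⟩
          simp [h0, this]
    rw [h2]
    have h3 : (Finset.range N).filter (fun n => n ≠ 0 ∧ K ∣ n) ⊆ (Finset.range N).image (fun m => K * (m + 1)) := by
      intro n hn
      simp only [Finset.mem_filter, Finset.mem_range, Finset.mem_image] at hn ⊢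
      obtain ⟨hnN, hn0, q, rfl⟩ := hn
      have hq : q ≠ 0 := by rintro rfl; simp at hn0
      obtain ⟨m, rfl⟩ := Nat.exists_eq_succ_of_ne_zero hq
      refine ⟨m, ?_, rfl⟩
      have : m < K * (m + 1) := by
        have : 1 * (m + 1) ≤ K * (m + 1) := Nat.mul_le_mul_right _ (Nat.pos_of_ne_zero hK)
        omega
      exact this.trans hnN
    calc _ ≤ ∑ n ∈ (Finset.range N).image (fun m => K * (m + 1)), ‖af r K n‖ / ((n:ℝ) + 1) :=
          Finset.sum_le_sum_of_subset_of_nonneg h3 (fun n _ _ => by positivity)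
      _ = ∑ m ∈ Finset.range N, ‖af r K (K * (m + 1))‖ / (((K * (m + 1) : ℕ):ℝ) + 1) := by
          rw [Finset.sum_image]
          intro a _ b _ h
          have := Nat.eq_of_mul_eq_mul_left (Nat.pos_of_ne_zero hK) h
          omega
      _ ≤ _ := by
          apply Finset.sum_le_sum
          intro m _
          have h4 : ‖af r K (K * (m + 1))‖ ≤ (r ^ K) ^ (m + 1) := by
            unfold af
            have h0 : K * (m + 1) ≠ 0 := Nat.mul_ne_zero hK (Nat.succ_ne_zero m)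
            rw [if_neg h0, if_pos (dvd_mul_right _ _), norm_pow, Complex.norm_real, Real.norm_eq_abs, abs_of_pos hr0, ← pow_mul]
            exact pow_le_pow_of_le_one hr0.le hr1.le (by omega)
          have hm : (0:ℝ) < (m:ℝ) + 1 := by positivity
          rw [div_div]
          apply div_le_div₀ (by positivity) h4 (by positivity)
          push_cast
          nlinarith
  refine h1.trans ?_
  rw [← Finset.sum_div]
  apply div_le_div_of_nonneg_right _ hKp.le
  refine le_trans ?_ hlog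
  rw [← hls.tsum_eq]
  exact hls.summable.sum_le_tsum _ (fun m _ => by positivity)

/-- the composition with the real disc automorphism -/
lemma comp_hasSum {w r : ℝ} (hw0 : 0 < w) (hw1 : w < 1) (hr0 : 0 < r) (hr1 : r ≤ 1) {K : ℕ} (hK : 2 ≤ K) {z : ℂ}
    (hz : ‖z‖ < 1) :
    HasSum (fun n => cf w r K n * z ^ n) (Hf r K ((z - w) / (1 - w * z)) * ((1 - (w:ℂ) ^ 2) / (1 - w * z) ^ 2)) := by
  have hK0 : K ≠ 0 := by omega
  have hwz : ‖(w:ℂ) * z‖ < 1 := by
    rw [norm_mul, Complex.norm_real, Real.norm_eq_abs, abs_of_pos hw0]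
    nlinarith [norm_nonneg z]
  have hden : 1 - (w:ℂ) * z ≠ 0 := by
    intro h
    rw [← sub_eq_zero.mp h, norm_one] at hwz
    exact lt_irrefl _ hwz
  have hxi : ∀ k : ℕ, ‖xi w r (zt K k) * z‖ < 1 := by
    intro k
    rw [norm_mul]
    have := xi_norm_le hw0 hw1 hr0 hr1 (zt_norm hK0 k)
    nlinarith [norm_nonneg z, norm_nonneg (xi w r (zt K k))]
  have h1 : ∀ k ∈ (Finset.univ : Finset (Fin K)),
      HasSum (fun n : ℕ => (zt K k)⁻¹ * xi w r (zt K k) * (xi w r (zt K k) * z) ^ n)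
        ((zt K k)⁻¹ * xi w r (zt K k) * (1 - xi w r (zt K k) * z)⁻¹) :=
    fun k _ => (hasSum_geometric_of_norm_lt_one (hxi k)).mul_left _
  have h2 := (hasSum_sum h1).mul_left (K:ℂ)⁻¹
  have h3 := (hasSum_choose_mul_geometric_of_norm_lt_one 1 hwz).mul_left ((r:ℂ) * (1 - (w:ℂ) ^ 2))
  have h4 := h2.sub h3
  have e : (K:ℂ)⁻¹ * ∑ k : Fin K, (zt K k)⁻¹ * xi w r (zt K k) * (1 - xi w r (zt K k) * z)⁻¹ -
      (r:ℂ) * (1 - (w:ℂ) ^ 2) * (1 / (1 - w * z) ^ (1 + 1)) =
      Hf r K ((z - w) / (1 - w * z)) * ((1 - (w:ℂ) ^ 2) / (1 - w * z) ^ 2) := by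
    have hk : ∀ k : Fin K, (zt K k)⁻¹ * xi w r (zt K k) * (1 - xi w r (zt K k) * z)⁻¹ =
        (r:ℂ) * (1 - (r:ℂ) * zt K k * ((z - w) / (1 - w * z)))⁻¹ * ((1 - (w:ℂ) ^ 2) / (1 - w * z) ^ 2) +
          (zt K k)⁻¹ * (w / (1 - w * z)) := by
      intro k
      have hζ0 := zt_ne hK0 k
      have hζ1 := zt_norm hK0 k
      have hxk := hxi k
      have hd := xi_den_ne hw0 hw1 hr0 hr1 hζ1
      have hx1 : 1 - xi w r (zt K k) * z ≠ 0 := by
        intro h
        rw [← sub_eq_zero.mp h, norm_one] at hxk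
        exact lt_irrefl _ hxk
      have hE : (1 + zt K k * r * w) * xi w r (zt K k) = w + zt K k * r := by
        unfold xi
        exact mul_div_cancel₀ _ hd
      have hfac : 1 - (r:ℂ) * zt K k * ((z - w) / (1 - w * z)) =
          (1 + zt K k * r * w) * (1 - xi w r (zt K k) * z) / (1 - w * z) := by
        rw [eq_div_iff hden, sub_mul, one_mul, mul_assoc ((r:ℂ) * zt K k), div_mul_cancel₀ _ hden]
        linear_combination z * hE
      rw [hfac]
      have key : xi w r (zt K k) * (1 + zt K k * r * w) * (1 - w * z) =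
          zt K k * r * (1 - (w:ℂ) ^ 2) + w * (1 + zt K k * r * w) * (1 - xi w r (zt K k) * z) := by
        linear_combination hE
      generalize xi w r (zt K k) = x at *
      generalize zt K k = a at *
      generalize 1 + a * r * w = E at *
      generalize 1 - x * z = F at *
      generalize 1 - (w:ℂ) * z = D at *
      have e1 : a⁻¹ * x * F⁻¹ = (x * E * D) / (a * F * E * D) := by field_simp
      rw [e1, key]
      field_simp
    have hk2 : ∑ k : Fin K, (zt K k)⁻¹ * xi w r (zt K k) * (1 - xi w r (zt K k) * z)⁻¹ =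
        (r:ℂ) * (∑ k : Fin K, (1 - (r:ℂ) * zt K k * ((z - w) / (1 - w * z)))⁻¹) * ((1 - (w:ℂ) ^ 2) / (1 - w * z) ^ 2) := by
      rw [Finset.sum_congr rfl (fun k _ => hk k), Finset.sum_add_distrib, ← Finset.sum_mul, ← Finset.sum_mul, zt_sum_inv hK,
        zero_mul, add_zero, ← Finset.mul_sum]
    rw [hk2]
    unfold Hf
    generalize (∑ k : Fin K, (1 - (r:ℂ) * zt K k * ((z - w) / (1 - w * z)))⁻¹) = Sg
    ring
  rw [e] at h4
  refine h4.congr_fun (fun n => ?_)
  unfold cf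
  have h5 : ∑ k : Fin K, (zt K k)⁻¹ * xi w r (zt K k) * (xi w r (zt K k) * z) ^ n =
      (∑ k : Fin K, (zt K k)⁻¹ * xi w r (zt K k) ^ (n + 1)) * z ^ n := by
    rw [Finset.sum_mul]
    apply Finset.sum_congr rfl
    intro k _
    rw [mul_pow]
    ring
  rw [h5]
  rw [Nat.choose_one_right]
  push_cast
  ring

end Pool.Agent.H840R2
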